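import Pool.Agent.R118.Spr.AbsStmt

/-!
# SPR-A: finite projective dimension from a ranked family  (helper258)
-/

open CategoryTheory Limits

universe v u w

set_option linter.unusedSectionVars false

namespace R118.Spr

namespace PartA

section Mod

variable (R : Type v) [Ring R]

/-- finite projective dimension -/
def FPD (N : Type v) [AddCommGroup N] [Module R N] : Prop :=
  ∃ n, HasProjectiveDimensionLT (ModuleCat.of R N) n

variable {R}
variable {N N' : Type v} [AddCommGroup N] [Module R N] [AddCommGroup N'] [Module R N']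

theorem fpd_proj (N : Type v) [AddCommGroup N] [Module R N] (h : Module.Projective R N) :
    FPD R N :=
  ⟨1, projective_iff_hasProjectiveDimensionLT_one.1 ((IsProjective.iff_projective N).1 h)⟩

theorem fpd_equiv (e : N ≃ₗ[R] N') (h : FPD R N) : FPD R N' := by
  obtain ⟨n, hn⟩ := h
  exact ⟨n, hasProjectiveDimensionLT_of_iso e.toModuleIso n⟩

theorem se (S : Submodule R N) :
    (ShortComplex.mk (ModuleCat.ofHom S.subtype) (ModuleCat.ofHom S.mkQ)
      (by ext x; simp)).ShortExact where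
  exact := by
    rw [ShortComplex.ShortExact.moduleCat_exact_iff_function_exact]
    exact LinearMap.exact_subtype_mkQ S
  mono_f := (ModuleCat.mono_iff_injective _).mpr S.injective_subtype
  epi_g := (ModuleCat.epi_iff_surjective _).mpr S.mkQ_surjective

theorem fpd_ext (S : Submodule R N) (h1 : FPD R S) (h2 : FPD R (N ⧸ S)) : FPD R N := by
  obtain ⟨n, hn⟩ := h1
  obtain ⟨m, hm⟩ := h2
  refine ⟨n + m, (se S).hasProjectiveDimensionLT_X₂ (n + m) ?_ ?_⟩
  · exact hasProjectiveDimensionLT_of_ge (ModuleCat.of R S) n (n + m) (by omega)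
  · exact hasProjectiveDimensionLT_of_ge (ModuleCat.of R (N ⧸ S)) m (n + m) (by omega)

theorem fpd_quot (S : Submodule R N) (h1 : FPD R S) (h2 : FPD R N) : FPD R (N ⧸ S) := by
  obtain ⟨n, hn⟩ := h1
  obtain ⟨m, hm⟩ := h2
  refine ⟨n + m + 1, (se S).hasProjectiveDimensionLT_X₃ (n + m) ?_ ?_⟩
  · exact hasProjectiveDimensionLT_of_ge (ModuleCat.of R S) n (n + m) (by omega)
  · exact hasProjectiveDimensionLT_of_ge (ModuleCat.of R N) m (n + m + 1) (by omega)

theorem fpd_subsingleton [Subsingleton N] : FPD R N :=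
  fpd_proj N inferInstance

end Mod

section

variable {k : Type w} [Field k] {A : Type u} [Category.{v} A] [Preadditive A] [Linear k A]
  [HasFiniteBiproducts A] {I : Type} [Fintype I] [DecidableEq I] (G : I → A)

/-- the idempotents -/
noncomputable def idem (i : I) : Lam G :=
  MulOpposite.op (show End (⨁ G) from biproduct.π G i ≫ biproduct.ι G i)

/-- the element of the ring given by an endomorphism -/
def el (f : (⨁ G) ⟶ ⨁ G) : Lam G := MulOpposite.op (show End (⨁ G) from f)

theorem el_smul (f : (⨁ G) ⟶ ⨁ G) {M : A} (g : (⨁ G) ⟶ M) : el G f • g = f ≫ g := rfl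

theorem el_comp (f g : (⨁ G) ⟶ ⨁ G) : el G (f ≫ g) = el G f * el G g := rfl

theorem el_add (f g : (⨁ G) ⟶ ⨁ G) : el G (f + g) = el G f + el G g := rfl

theorem el_id : el G (𝟙 _) = 1 := rfl

theorem el_zero : el G 0 = 0 := rfl

theorem el_surj (l : Lam G) : ∃ f, l = el G f := ⟨l.unop, rfl⟩

theorem el_sum {ι : Type} (s : Finset ι) (f : ι → ((⨁ G) ⟶ ⨁ G)) :
    el G (∑ a ∈ s, f a) = ∑ a ∈ s, el G (f a) := by
  classical
  induction s using Finset.induction_on with
  | empty => simp [el_zero]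
  | insert a s ha ih => rw [Finset.sum_insert ha, Finset.sum_insert ha, el_add, ih]

theorem idem_eq (i : I) : idem G i = el G (biproduct.π G i ≫ biproduct.ι G i) := rfl

theorem sum_idem : ∑ i, idem G i = 1 := by
  simp only [idem_eq]
  rw [← el_sum, ← el_id]
  congr 1
  exact biproduct.total

theorem idem_mul (i : I) : idem G i * idem G i = idem G i := by
  rw [idem_eq, ← el_comp]
  congr 1
  simp

/-- `Hom(G', U)` is projective if `U` is a direct summand of a sum of `G s`'s -/
theorem proj_of_add {U : A} {m : ℕ} (s : Fin m → I) (p : ∀ b, U ⟶ G (s b)) (q : ∀ b, G (s b) ⟶ U)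
    (h : ∑ b, p b ≫ q b = 𝟙 U) : Module.Projective (Lam G) ((⨁ G) ⟶ U) := by
  let a : ((⨁ G) ⟶ U) →ₗ[Lam G] (Fin m → Lam G) :=
    { toFun := fun f b => el G (f ≫ p b ≫ biproduct.ι G (s b))
      map_add' := fun f g => by
        funext b
        rw [Pi.add_apply, ← el_add, Preadditive.add_comp]
      map_smul' := fun l f => by
        obtain ⟨l, rfl⟩ := el_surj G l
        funext b
        rw [RingHom.id_apply, Pi.smul_apply, smul_eq_mul, ← el_comp, el_smul, Category.assoc] }
  let b : (Fin m → Lam G) →ₗ[Lam G] ((⨁ G) ⟶ U) :=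
    ∑ b, (LinearMap.proj b : (Fin m → Lam G) →ₗ[Lam G] Lam G).smulRight
      (biproduct.π G (s b) ≫ q b)
  refine Module.Projective.of_split a b ?_
  refine LinearMap.ext fun f => ?_
  change b (a f) = f
  have h1 : b (a f) = ∑ c, el G (f ≫ p c ≫ biproduct.ι G (s c)) • (biproduct.π G (s c) ≫ q c) := by
    change (∑ c, _ : (Fin m → Lam G) →ₗ[Lam G] ((⨁ G) ⟶ U)) (a f) = _
    rw [LinearMap.sum_apply]
    rfl
  rw [h1]
  simp only [el_smul, Category.assoc, biproduct.ι_π_self_assoc]
  rw [← Preadditive.comp_sum, h, Category.comp_id]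

theorem proj_G (i : I) : Module.Projective (Lam G) ((⨁ G) ⟶ G i) :=
  proj_of_add G (m := 1) (fun _ => i) (fun _ => 𝟙 _) (fun _ => 𝟙 _) (by simp)

/-- the map to a module given by an element -/
noncomputable def phi (i : I) {L : Type v} [AddCommGroup L] [Module (Lam G) L] (n : L) :
    ((⨁ G) ⟶ G i) →ₗ[Lam G] L where
  toFun f := el G (f ≫ biproduct.ι G i) • n
  map_add' f g := by rw [Preadditive.add_comp, el_add, add_smul]
  map_smul' l f := by
    obtain ⟨l, rfl⟩ := el_surj G l
    rw [RingHom.id_apply, el_smul, Category.assoc, el_comp, mul_smul]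

theorem phi_apply (i : I) {L : Type v} [AddCommGroup L] [Module (Lam G) L] (n : L)
    (f : (⨁ G) ⟶ G i) : phi G i n f = el G (f ≫ biproduct.ι G i) • n := rfl

/-- composition with `u` -/
noncomputable def comp {U M : A} (u : U ⟶ M) : ((⨁ G) ⟶ U) →ₗ[Lam G] ((⨁ G) ⟶ M) where
  toFun f := f ≫ u
  map_add' f g := Preadditive.add_comp _ _ _ f g u
  map_smul' l f := by
    obtain ⟨l, rfl⟩ := el_surj G l
    rw [RingHom.id_apply, el_smul, el_smul, Category.assoc]

theorem comp_apply {U M : A} (u : U ⟶ M) (f : (⨁ G) ⟶ U) : comp G u f = f ≫ u := rfl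

theorem finLen_P (i : I) (hfd : FiniteDimensional k ((⨁ G) ⟶ G i)) :
    IsNoetherian (Lam G) ((⨁ G) ⟶ G i) ∧ IsArtinian (Lam G) ((⨁ G) ⟶ G i) := by
  let inst : SMul k (Lam G) := ⟨fun c l => el G (c • (show (⨁ G) ⟶ ⨁ G from l.unop))⟩
  have tower : IsScalarTower k (Lam G) ((⨁ G) ⟶ G i) := ⟨fun c l f => by
    obtain ⟨l, rfl⟩ := el_surj G l
    change (c • l) ≫ f = c • (l ≫ f)
    exact Linear.smul_comp _ _ _ c l f⟩
  exact ⟨isNoetherian_of_tower k inferInstance, isArtinian_of_tower k inferInstance⟩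

/-- the claim for simple modules -/
def SC (r : I → ℕ) (ρ : ℕ) : Prop :=
  ∀ i, r i < ρ → ∀ (L : Type v) [AddCommGroup L] [Module (Lam G) L], IsSimpleModule (Lam G) L →
    ∀ n : L, idem G i • n ≠ 0 → FPD (Lam G) L

theorem exists_idem {L : Type v} [AddCommGroup L] [Module (Lam G) L] {n : L} (hn : n ≠ 0) :
    ∃ i, idem G i • n ≠ 0 := by
  by_contra hcon
  push Not at hcon
  apply hn
  have h1 : (∑ i, idem G i) • n = 0 := by
    rw [Finset.sum_smul]
    exact Finset.sum_eq_zero fun i _ => hcon i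
  rwa [sum_idem, one_smul] at h1

theorem fl_case {r : I → ℕ} {ρ : ℕ} (hS : SC G r ρ) (N : Type v) [AddCommGroup N]
    [Module (Lam G) N] (hN : IsFiniteLength (Lam G) N) :
    (∀ j, ρ ≤ r j → ∀ n : N, idem G j • n = 0) → FPD (Lam G) N := by
  induction hN with
  | of_subsingleton => intro _; exact fpd_subsingleton
  | @of_simple_quotient M _ _ S hq _ ih =>
    intro h0
    refine fpd_ext S (ih fun j hj n => Subtype.ext ?_) ?_
    · exact h0 j hj n
    · have hnt : Nontrivial (M ⧸ S) := hq.nontrivial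
      obtain ⟨x, hx⟩ := exists_ne (0 : M ⧸ S)
      obtain ⟨i, hi⟩ := exists_idem G hx
      have hri : r i < ρ := by
        by_contra hcon
        push Not at hcon
        apply hi
        obtain ⟨m, rfl⟩ := Submodule.Quotient.mk_surjective _ x
        rw [← Submodule.Quotient.mk_smul, h0 i hcon, Submodule.Quotient.mk_zero]
      exact hS i hri (M ⧸ S) hq x hi

theorem simple_step (hfd : ∀ i, FiniteDimensional k ((⨁ G) ⟶ G i))
    (hEnd : ∀ i (f : G i ⟶ G i), ∃ c : k, f = c • 𝟙 (G i))
    {r : I → ℕ} {U : I → A} {u : ∀ i, U i ⟶ G i} (hmono : ∀ i, Mono (u i))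
    (hfac : ∀ i j, j ≠ i → r i ≤ r j → ∀ f : G j ⟶ G i, ∃ f' : G j ⟶ U i, f' ≫ u i = f)
    (hzero : ∀ i (g : G i ⟶ U i), g ≫ u i = 0)
    (hadd : ∀ i, ∃ (m : ℕ) (s : Fin m → I) (p : ∀ b, U i ⟶ G (s b)) (q : ∀ b, G (s b) ⟶ U i),
      ∑ b, p b ≫ q b = 𝟙 (U i)) (i : I) (hS : SC G r (r i)) (L : Type v) [AddCommGroup L]
    [Module (Lam G) L] (hL : IsSimpleModule (Lam G) L) (n0 : L) (hn0 : idem G i • n0 ≠ 0) :
    FPD (Lam G) L := by
  obtain ⟨n, hnd⟩ : ∃ n, n = idem G i • n0 := ⟨_, rfl⟩
  have hn : idem G i • n = n := by rw [hnd, ← mul_smul, idem_mul]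
  rw [← hnd] at hn0
  have hphi_pi : phi G i n (biproduct.π G i) = n := by
    rw [phi_apply, ← idem_eq, hn]
  have hsurj : Function.Surjective (phi G i n) := by
    rw [← LinearMap.range_eq_top]
    refine (eq_bot_or_eq_top _).resolve_left fun h => hn0 ?_
    have h1 : n ∈ LinearMap.range (phi G i n) := ⟨_, hphi_pi⟩
    rw [h] at h1
    exact (Submodule.mem_bot _).1 h1
  have hAN : LinearMap.range (comp G (u i)) ≤ LinearMap.ker (phi G i n) := by
    rintro _ ⟨f, rfl⟩
    rw [LinearMap.mem_ker]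
    by_contra hne
    obtain ⟨x, hx⟩ : ∃ x, x = phi G i n (comp G (u i) f) := ⟨_, rfl⟩
    rw [← hx] at hne
    have hspan : Submodule.span (Lam G) {x} = ⊤ :=
      (eq_bot_or_eq_top _).resolve_left fun h => hne (Submodule.span_singleton_eq_bot.1 h)
    have hnm : n ∈ Submodule.span (Lam G) {x} := by rw [hspan]; trivial
    obtain ⟨l, hl⟩ := Submodule.mem_span_singleton.1 hnm
    obtain ⟨l, rfl⟩ := el_surj G l
    apply hn0
    rw [← hn, ← hl, hx, phi_apply, comp_apply, idem_eq, ← mul_smul, ← mul_smul, ← el_comp,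
      ← el_comp]
    have h2 : ((biproduct.π G i ≫ biproduct.ι G i) ≫ l) ≫ (f ≫ u i) ≫ biproduct.ι G i =
        biproduct.π G i ≫ ((biproduct.ι G i ≫ l ≫ f) ≫ u i) ≫ biproduct.ι G i := by
      simp only [Category.assoc]
    rw [h2, hzero, zero_comp, comp_zero, el_zero, zero_smul]
  have hfA : FPD (Lam G) (LinearMap.range (comp G (u i))) := by
    obtain ⟨m, s, p, q, hpq⟩ := hadd i
    have hm := hmono i
    have hinj : Function.Injective (comp G (u i)) := fun f g hfg => (cancel_mono (u i)).1 hfg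
    exact fpd_equiv (LinearEquiv.ofInjective _ hinj) (fpd_proj _ (proj_of_add G s p q hpq))
  obtain ⟨hNo, hAr⟩ := finLen_P G i (hfd i)
  have hfS : FPD (Lam G) ((LinearMap.range (comp G (u i))).submoduleOf
      (LinearMap.ker (phi G i n))) :=
    fpd_equiv (Submodule.submoduleOfEquivOfLe hAN).symm hfA
  have hfN' : FPD (Lam G) (LinearMap.ker (phi G i n) ⧸
      (LinearMap.range (comp G (u i))).submoduleOf (LinearMap.ker (phi G i n))) := by
    refine fl_case G hS _ ?_ ?_
    · rw [isFiniteLength_iff_isNoetherian_isArtinian]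
      exact ⟨inferInstance, inferInstance⟩
    · intro j hj y
      obtain ⟨⟨x, hx⟩, rfl⟩ := Submodule.Quotient.mk_surjective _ y
      rw [← Submodule.Quotient.mk_smul, Submodule.Quotient.mk_eq_zero]
      change idem G j • x ∈ LinearMap.range (comp G (u i))
      have hx2 : idem G j • x = biproduct.π G j ≫ biproduct.ι G j ≫ x := by
        rw [idem_eq, el_smul, Category.assoc]
      by_cases hji : j = i
      · subst hji
        obtain ⟨c, hc⟩ := hEnd j (biproduct.ι G j ≫ x)
        have hx3 : idem G j • x = c • biproduct.π G j := by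
          rw [hx2, hc, Linear.comp_smul, Category.comp_id]
        have hx4 : phi G j n (idem G j • x) = 0 := by
          rw [map_smul, LinearMap.mem_ker.1 hx, smul_zero]
        have hc0 : c = 0 := by
          by_contra hc0
          apply hn0
          rw [hx3, phi_apply, Linear.smul_comp] at hx4
          have h5 : el G (c⁻¹ • 𝟙 _) • el G (c • biproduct.π G j ≫ biproduct.ι G j) • n = n := by
            rw [← mul_smul, ← el_comp, Linear.smul_comp, Category.id_comp, smul_smul,
              inv_mul_cancel₀ hc0, one_smul, ← idem_eq, hn]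
          rw [← h5, hx4, smul_zero]
        rw [hx3, hc0, zero_smul]
        exact Submodule.zero_mem _
      · obtain ⟨f', hf'⟩ := hfac i j hji hj (biproduct.ι G j ≫ x)
        rw [hx2, ← hf']
        exact ⟨biproduct.π G j ≫ f', by rw [comp_apply, Category.assoc]⟩
  have hfN0 : FPD (Lam G) (LinearMap.ker (phi G i n)) := fpd_ext _ hfS hfN'
  have hfq := fpd_quot (LinearMap.ker (phi G i n)) hfN0 (fpd_proj _ (proj_G G i))
  exact fpd_equiv ((phi G i n).quotKerEquivOfSurjective hsurj) hfq

end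

end PartA

open PartA in
/-- **SPR-A** -/
theorem stmtA {k : Type w} [Field k] {A : Type u} [Category.{v} A] [Preadditive A] [Linear k A]
    [HasFiniteBiproducts A] : StmtA (k := k) (A := A) := by
  intro I _ _ G hfd hEnd r U u hmono hfac hzero hadd N hN
  have hSC : ∀ ρ, SC G r ρ := by
    intro ρ
    induction ρ with
    | zero => intro i hi; exact absurd hi (Nat.not_lt_zero _)
    | succ ρ ih =>
      intro i hi L _ _ hL n hn
      exact simple_step G hfd hEnd hmono hfac hzero hadd i
        (fun j hj => ih j (by omega)) L hL n hn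
  obtain ⟨ρ, hρ⟩ : ∃ ρ, ∀ i, r i < ρ := by
    obtain ⟨b, hb⟩ := (Set.finite_range r).bddAbove
    exact ⟨b + 1, fun i => Nat.lt_succ_of_le (hb ⟨i, rfl⟩)⟩
  obtain ⟨n, h⟩ := fl_case G (hSC ρ) N hN fun j hj => absurd (hρ j) (by omega)
  exact ⟨n, h⟩

end R118.Spr
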