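import Mathlib

/-!
# Abstract statements for the spread-resolution theorem (MP_467d59_al)

`pd_finite_of_rank` (part SPR-A) and `exists_res` (part SPR-B).  They are to be proved in
`Pool/Agent/R118/Spr/A.lean` and `Pool/Agent/R118/Spr/B.lean`.
-/

open CategoryTheory Limits

universe v u w

namespace R118.Spr

section

variable {A : Type u} [Category.{v} A] [Preadditive A] [HasFiniteBiproducts A]

/-- The ring over which the modules live. -/
abbrev Lam {I : Type} [Finite I] (G : I → A) : Type v := (End (⨁ G))ᵐᵒᵖ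

/-- `HasRes G n M`: the object `M` has a `G`-resolution of length at most `n` (given step by step):
for `n = 0`, `M` is a finite direct sum of `G i`'s; for `n + 1` there is a map `g : X ⟶ M` from a
finite direct sum of `G i`'s such that every map `G i ⟶ M` lifts along `g`, with kernel `K`
having a resolution of length at most `n`. -/
inductive HasRes {I : Type} (G : I → A) : ℕ → A → Prop
  | base (M : A) (m : ℕ) (s : Fin m → I) (e : Nonempty (M ≅ ⨁ fun j => G (s j))) : HasRes G 0 M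
  | step (n : ℕ) (K M : A) (m : ℕ) (s : Fin m → I) (i : K ⟶ ⨁ fun j => G (s j))
      (g : (⨁ fun j => G (s j)) ⟶ M) (w : i ≫ g = 0)
      (hk : Nonempty (IsLimit (KernelFork.ofι i w)))
      (hl : ∀ (a : I) (h : G a ⟶ M), ∃ h' : G a ⟶ ⨁ fun j => G (s j), h' ≫ g = h)
      (hK : HasRes G n K) : HasRes G (n + 1) M

end

variable {k : Type w} [Field k] {A : Type u} [Category.{v} A] [Preadditive A] [Linear k A]
  [HasFiniteBiproducts A]

/-- **SPR-A** -/
def StmtA : Prop :=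
  ∀ {I : Type} [Fintype I] [DecidableEq I] (G : I → A)
    (_hfd : ∀ i, FiniteDimensional k ((⨁ G) ⟶ G i))
    (_hEnd : ∀ i (f : G i ⟶ G i), ∃ c : k, f = c • 𝟙 (G i))
    (r : I → ℕ) (U : I → A) (u : ∀ i, U i ⟶ G i) (_hmono : ∀ i, Mono (u i))
    (_hfac : ∀ i j, j ≠ i → r i ≤ r j → ∀ f : G j ⟶ G i, ∃ f' : G j ⟶ U i, f' ≫ u i = f)
    (_hzero : ∀ i (g : G i ⟶ U i), g ≫ u i = 0)
    (_hadd : ∀ i, ∃ (m : ℕ) (s : Fin m → I) (p : ∀ b, U i ⟶ G (s b)) (q : ∀ b, G (s b) ⟶ U i),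
      ∑ b, p b ≫ q b = 𝟙 (U i))
    (N : ModuleCat.{v} (Lam G)) (_hN : IsFiniteLength (Lam G) N),
    ∃ n, HasProjectiveDimensionLT N n

/-- **SPR-B** -/
def StmtB : Prop :=
  ∀ {I : Type} [Fintype I] [DecidableEq I] (G : I → A)
    (_hpd : ∀ (N : ModuleCat.{v} (Lam G)), IsFiniteLength (Lam G) N →
      ∃ n, HasProjectiveDimensionLT N n)
    (MM : A → Prop)
    (_hfin : ∀ M, MM M → FiniteDimensional k ((⨁ G) ⟶ M))
    (_hker : ∀ M, MM M → ∀ (m : ℕ) (s : Fin m → I) (g : (⨁ fun j => G (s j)) ⟶ M),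
      ∃ (K : A) (i : K ⟶ ⨁ fun j => G (s j)) (w : i ≫ g = 0), MM K ∧
        Nonempty (IsLimit (KernelFork.ofι i w)))
    (_hiso : ∀ M, MM M → ∀ (m : ℕ) (s : Fin m → I) (g : (⨁ fun j => G (s j)) ⟶ M),
      (∀ a, Function.Bijective (fun h : G a ⟶ ⨁ fun j => G (s j) => h ≫ g)) → IsIso g)
    (_hidem : ∀ (m : ℕ) (s : Fin m → I)
      (e : (⨁ fun j => G (s j)) ⟶ ⨁ fun j => G (s j)), e ≫ e = e → e ≠ 0 →
      ∃ (a b : Fin m) (hab : s a = s b) (c : k), c ≠ 0 ∧
        biproduct.ι (fun j => G (s j)) a ≫ e ≫ biproduct.π (fun j => G (s j)) b =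
          c • eqToHom (congrArg G hab))
    (M : A) (_hM : MM M),
    ∃ n, HasRes G n M

end R118.Spr
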