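import Pool.Agent.R118.Spr.Basic

/-!
# Aligned sets and aligned representations of `T × Q`
-/

open CategoryTheory Limits

universe u

namespace R118.Spr

section general
variable {k : Type u} [Field k] {P : Type u} [PartialOrder P]

lemma add_app_apply {M N : P ⥤ ModuleCat.{u} k} (f g : M ⟶ N) (p : P) (x : M.obj p) :
    (f + g).app p x = f.app p x + g.app p x := rfl

lemma sum_app_apply {M N : P ⥤ ModuleCat.{u} k} {ι : Type*} (s : Finset ι) (f : ι → (M ⟶ N))
    (p : P) (x : M.obj p) : (∑ i ∈ s, f i).app p x = ∑ i ∈ s, (f i).app p x := by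
  classical
  induction s using Finset.induction_on with
  | empty => simp only [Finset.sum_empty]; rfl
  | insert a s ha ih => rw [Finset.sum_insert ha, Finset.sum_insert ha, add_app_apply, ih]

lemma smul_app_apply {M N : P ⥤ ModuleCat.{u} k} (c : k) (f : M ⟶ N) (p : P) (x : M.obj p) :
    (c • f).app p x = c • f.app p x := rfl

lemma comp_app_apply {L M N : P ⥤ ModuleCat.{u} k} (f : L ⟶ M) (g : M ⟶ N) (p : P)
    (x : L.obj p) : (f ≫ g).app p x = g.app p (f.app p x) := rfl

lemma id_app_apply {M : P ⥤ ModuleCat.{u} k} (p : P)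
    (x : M.obj p) : (𝟙 M : M ⟶ M).app p x = x := rfl

lemma zero_app_apply {M N : P ⥤ ModuleCat.{u} k} (p : P)
    (x : M.obj p) : (0 : M ⟶ N).app p x = 0 := rfl

/-- the kernel functor -/
noncomputable def kerRep {M N : P ⥤ ModuleCat.{u} k} (g : M ⟶ N) : P ⥤ ModuleCat.{u} k where
  obj p := ModuleCat.of k (LinearMap.ker (g.app p).hom)
  map {p q} h := ModuleCat.ofHom ((M.map h).hom.restrict (fun x hx => by
    rw [LinearMap.mem_ker] at hx ⊢
    have := nat_apply g h x
    change g.app q (M.map h x) = 0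
    rw [this]
    change N.map h ((g.app p).hom x) = 0
    rw [hx, map_zero]))
  map_id p := by
    ext x
    change (M.map (𝟙 p)) x.1 = x.1
    rw [M.map_id]; rfl
  map_comp {p q r} a b := by
    ext x
    change (M.map (a ≫ b)) x.1 = M.map b (M.map a x.1)
    rw [M.map_comp]; rfl

/-- its inclusion -/
noncomputable def kerι {M N : P ⥤ ModuleCat.{u} k} (g : M ⟶ N) : kerRep g ⟶ M where
  app _ := ModuleCat.ofHom (Submodule.subtype _)
  naturality _ _ _ := rfl

lemma kerι_inj {M N : P ⥤ ModuleCat.{u} k} (g : M ⟶ N) (p : P) :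
    Function.Injective ((kerι g).app p) := fun _ _ h => Subtype.ext h

lemma kerι_comp {M N : P ⥤ ModuleCat.{u} k} (g : M ⟶ N) : kerι g ≫ g = 0 := by
  ext p x
  exact x.2

lemma ker_exists {M N : P ⥤ ModuleCat.{u} k} (g : M ⟶ N) {p : P} {x : M.obj p}
    (hx : g.app p x = 0) : ∃ y, (kerι g).app p y = x := ⟨⟨x, hx⟩, rfl⟩

/-- lifting to the kernel -/
noncomputable def kerLift {L M N : P ⥤ ModuleCat.{u} k} (g : M ⟶ N) (f : L ⟶ M)
    (w : f ≫ g = 0) : L ⟶ kerRep g where
  app p := ModuleCat.ofHom ((f.app p).hom.codRestrict _ (fun x => by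
    have := congrArg (fun t : L ⟶ N => t.app p x) w
    exact this))
  naturality p q h := by
    ext x
    refine kerι_inj g q ?_
    exact nat_apply f h x

lemma kerLift_ι {L M N : P ⥤ ModuleCat.{u} k} (g : M ⟶ N) (f : L ⟶ M)
    (w : f ≫ g = 0) : kerLift g f w ≫ kerι g = f := rfl

lemma kerι_cancel {L M N : P ⥤ ModuleCat.{u} k} (g : M ⟶ N) {a b : L ⟶ kerRep g}
    (h : a ≫ kerι g = b ≫ kerι g) : a = b := by
  ext p x
  refine kerι_inj g p ?_
  exact congrArg (fun t : L ⟶ M => t.app p x) h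

lemma kerIsLimit {M N : P ⥤ ModuleCat.{u} k} (g : M ⟶ N) :
    Nonempty (IsLimit (KernelFork.ofι (kerι g) (kerι_comp g))) :=
  ⟨KernelFork.IsLimit.ofι _ _ (fun f w => kerLift g f w) (fun f w => kerLift_ι g f w)
    (fun f w _ hm => kerι_cancel g (hm.trans (kerLift_ι g f w).symm))⟩

end general

section aligned
variable {k : Type u} [Field k] {T Q P : Type u} [LinearOrder T] [PartialOrder Q] [PartialOrder P]
  (e : P ≃o T × Q)

/-- the point with coordinates `t, q` -/
def pt (t : T) (q : Q) : P := e.symm (t, q)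

lemma pt_le_pt {t t' : T} {q q' : Q} : pt e t q ≤ pt e t' q' ↔ t ≤ t' ∧ q ≤ q' := by
  rw [pt, pt, e.symm.le_iff_le, Prod.mk_le_mk]

lemma exists_pt (p : P) : ∃ t q, pt e t q = p := ⟨(e p).1, (e p).2, by simp [pt]⟩

/-- `t ≤ t'` and no element of `C` in `(t, t']` -/
def Same (C : Finset T) (t t' : T) : Prop := t ≤ t' ∧ ∀ c ∈ C, c ≤ t' → c ≤ t

lemma Same.le {C : Finset T} {t t' : T} (h : Same C t t') (q : Q) :
    pt e t q ≤ pt e t' q := (pt_le_pt e).2 ⟨h.1, le_rfl⟩

lemma exists_floor {C : Finset T} {t : T} (h : ∃ c ∈ C, c ≤ t) : ∃ c ∈ C, Same C c t := by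
  classical
  obtain ⟨c, hc, hct⟩ := h
  have hne : (C.filter (· ≤ t)).Nonempty := ⟨c, Finset.mem_filter.2 ⟨hc, hct⟩⟩
  refine ⟨(C.filter (· ≤ t)).max' hne, (Finset.mem_filter.1 (Finset.max'_mem _ hne)).1,
    (Finset.mem_filter.1 (Finset.max'_mem _ hne)).2, fun c' hc' h' => ?_⟩
  exact Finset.le_max' _ _ (Finset.mem_filter.2 ⟨hc', h'⟩)

/-- aligned sets -/
structure AlS (C : Finset T) (S : Set P) : Prop where
  low : ∀ t q, pt e t q ∈ S → ∃ c ∈ C, c ≤ t
  same : ∀ t t' q, Same C t t' → (pt e t q ∈ S ↔ pt e t' q ∈ S)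

/-- aligned representations -/
structure AlN (C : Finset T) (N : P ⥤ ModuleCat.{u} k) : Prop where
  fin : ∀ p, Module.Finite k (N.obj p)
  low : ∀ t q, (∀ c ∈ C, ¬ c ≤ t) → ∀ x : N.obj (pt e t q), x = 0
  same : ∀ t t' q (h : Same C t t'),
    Function.Bijective (N.map (homOfLE (h.le e q)))

variable {e} {C : Finset T}

lemma AlS.alN {S : Set P} (hS : S.OrdConnected) (h : AlS e C S) : AlN e C (sp k S hS) where
  fin p := Module.Finite.of_injective (vl (k := k) (S := S) (hS := hS) (p := p))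
    (fun _ _ h => vl_inj h)
  low t q hl x := by
    refine vl_inj ?_
    rw [map_zero]
    refine vl_notMem (fun hx => ?_) x
    obtain ⟨c, hc, hct⟩ := h.low t q hx
    exact hl c hc hct
  same t t' q hs := by
    by_cases ht : pt e t q ∈ S
    · have ht' := (h.same t t' q hs).1 ht
      constructor
      · intro x y hxy
        refine vl_inj ?_
        have := congrArg vl hxy
        rwa [vl_map, vl_map, if_pos ht', if_pos ht'] at this
      · intro y
        refine ⟨vl y • one S hS (pt e t q), vl_inj ?_⟩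
        rw [vl_map, if_pos ht', map_smul, vl_one, if_pos ht, smul_eq_mul, mul_one]
    · have ht' := fun h' => ht ((h.same t t' q hs).2 h')
      constructor
      · intro x y _
        exact vl_inj (by rw [vl_notMem ht, vl_notMem ht])
      · intro y
        exact ⟨0, vl_inj (by rw [vl_notMem ht', vl_notMem ht'])⟩

lemma sum_id_apply {X : P ⥤ ModuleCat.{u} k} {ι : Type} [Fintype ι]
    {Y : ι → (P ⥤ ModuleCat.{u} k)} (i : ∀ a, Y a ⟶ X) (p : ∀ a, X ⟶ Y a)
    (h : ∑ a, p a ≫ i a = 𝟙 X) (v : P) (x : X.obj v) :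
    x = ∑ a, (i a).app v ((p a).app v x) := by
  have := congrArg (fun t : X ⟶ X => t.app v x) h
  change (∑ a, p a ≫ i a).app v x = x at this
  rw [sum_app_apply] at this
  exact this.symm

lemma AlN.of_sum {X : P ⥤ ModuleCat.{u} k} {ι : Type} [Fintype ι]
    {Y : ι → (P ⥤ ModuleCat.{u} k)} (i : ∀ a, Y a ⟶ X) (p : ∀ a, X ⟶ Y a)
    (h : ∑ a, p a ≫ i a = 𝟙 X) (hY : ∀ a, AlN e C (Y a)) : AlN e C X where
  fin v := by
    have := fun a => (hY a).fin v
    refine Module.Finite.of_surjective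
      (∑ a, (((i a).app v).hom ∘ₗ LinearMap.proj a : (∀ a, (Y a).obj v) →ₗ[k] X.obj v)) ?_
    intro x
    refine ⟨fun a => (p a).app v x, ?_⟩
    rw [LinearMap.sum_apply]
    exact (sum_id_apply i p h v x).symm
  low t q hl x := by
    rw [sum_id_apply i p h (pt e t q) x]
    refine Finset.sum_eq_zero fun a _ => ?_
    rw [(hY a).low t q hl ((p a).app (pt e t q) x), map_zero]
  same t t' q hs := by
    constructor
    · intro x y hxy
      rw [sum_id_apply i p h (pt e t q) x, sum_id_apply i p h (pt e t q) y]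
      refine Finset.sum_congr rfl fun a _ => ?_
      congr 1
      refine ((hY a).same t t' q hs).1 ?_
      rw [← nat_apply, ← nat_apply, hxy]
    · intro y
      choose z hz using fun a => ((hY a).same t t' q hs).2 ((p a).app (pt e t' q) y)
      refine ⟨∑ a, (i a).app (pt e t q) (z a), ?_⟩
      rw [map_sum, sum_id_apply i p h (pt e t' q) y]
      refine Finset.sum_congr rfl fun a _ => ?_
      rw [← nat_apply, hz]

lemma AlN.biprod {ι : Type} [Fintype ι]
    {Y : ι → (P ⥤ ModuleCat.{u} k)} (hY : ∀ a, AlN e C (Y a)) : AlN e C (⨁ Y) := by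
  classical
  exact AlN.of_sum (fun a => biproduct.ι Y a) (fun a => biproduct.π Y a) biproduct.total hY

lemma AlN.ker {X M : P ⥤ ModuleCat.{u} k} (g : X ⟶ M) (hX : AlN e C X) (hM : AlN e C M) :
    AlN e C (kerRep g) where
  fin v := by
    have := hX.fin v
    exact Module.Finite.of_injective ((kerι g).app v).hom (kerι_inj g v)
  low t q hl x := kerι_inj g _ (by
    rw [hX.low t q hl ((kerι g).app (pt e t q) x), map_zero])
  same t t' q hs := by
    constructor
    · intro x y hxy
      refine kerι_inj g _ ?_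
      refine (hX.same t t' q hs).1 ?_
      rw [← nat_apply, ← nat_apply, hxy]
    · intro y
      obtain ⟨x, hx⟩ := (hX.same t t' q hs).2 ((kerι g).app (pt e t' q) y)
      have h0 : g.app (pt e t q) x = 0 := by
        refine (hM.same t t' q hs).1 ?_
        rw [← nat_apply, hx, map_zero]
        exact y.2
      obtain ⟨z, hz⟩ := ker_exists g h0
      refine ⟨z, kerι_inj g _ ?_⟩
      rw [nat_apply, hz, hx]

lemma AlN.quot {Y X M : P ⥤ ModuleCat.{u} k} (f : Y ⟶ X) (g : X ⟶ M)
    (hY : AlN e C Y) (hX : AlN e C X)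
    (h : ∀ p, Function.Exact (f.app p) (g.app p) ∧ Function.Surjective (g.app p)) :
    AlN e C M where
  fin v := by
    have := hX.fin v
    exact Module.Finite.of_surjective (g.app v).hom (h v).2
  low t q hl x := by
    obtain ⟨y, rfl⟩ := (h (pt e t q)).2 x
    rw [hX.low t q hl y, map_zero]
  same t t' q hs := by
    constructor
    · rw [injective_iff_map_eq_zero]
      intro x hx
      obtain ⟨y, rfl⟩ := (h (pt e t q)).2 x
      rw [← nat_apply] at hx
      obtain ⟨z, hz⟩ := ((h (pt e t' q)).1 _).1 hx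
      obtain ⟨w, rfl⟩ := (hY.same t t' q hs).2 z
      rw [nat_apply] at hz
      have := (hX.same t t' q hs).1 hz
      rw [← this]
      exact ((h (pt e t q)).1 _).2 ⟨w, rfl⟩
    · intro y
      obtain ⟨x, rfl⟩ := (h (pt e t' q)).2 y
      obtain ⟨z, rfl⟩ := (hX.same t t' q hs).2 x
      exact ⟨g.app _ z, (nat_apply g _ z).symm⟩

lemma AlN.of_iso {X M : P ⥤ ModuleCat.{u} k} (i : X ≅ M) (hX : AlN e C X) : AlN e C M :=
  AlN.of_sum (ι := Unit) (Y := fun _ => X) (fun _ => i.hom) (fun _ => i.inv)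
    (by simp) (fun _ => hX)

end aligned

end R118.Spr
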