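import Pool.Agent.R118.Spr.AbsStmt

set_option autoImplicit false

/-! SPR-B: from finite projective dimension to a resolution (by helper706, after helper118). -/

open CategoryTheory Limits

universe v u w

namespace R118.Spr

namespace B

section pre

variable {A : Type u} [Category.{v} A] [Preadditive A] [HasFiniteBiproducts A]
  {I : Type} [Fintype I] (G : I → A)

/-- the functor -/
noncomputable abbrev F : A ⥤ ModuleCat.{v} (Lam G) := preadditiveCoyonedaObj (⨁ G)

/-- postcomposition as a linear map -/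
noncomputable def post {M N : A} (g : M ⟶ N) : ((⨁ G) ⟶ M) →ₗ[Lam G] ((⨁ G) ⟶ N) where
  toFun f := f ≫ g
  map_add' _ _ := Preadditive.add_comp _ _ _ _ _ _
  map_smul' _ _ := Category.assoc _ _ _

theorem post_apply {M N : A} (g : M ⟶ N) (f : (⨁ G) ⟶ M) : post G g f = f ≫ g := rfl

theorem F_map {M N : A} (g : M ⟶ N) : (F G).map g = ModuleCat.ofHom (post G g) := rfl

theorem smul_eq {M : A} (r : Lam G) (f : (⨁ G) ⟶ M) : r • f = r.unop ≫ f := rfl

/-- the coordinate map -/
noncomputable def co {M : A} (t : M ⟶ ⨁ G) : ((⨁ G) ⟶ M) →ₗ[Lam G] Lam G where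
  toFun f := MulOpposite.op (f ≫ t)
  map_add' f g := by
    rw [Preadditive.add_comp]
    rfl
  map_smul' r f := by
    rw [RingHom.id_apply, smul_eq, Category.assoc]
    rfl

/-- the other map -/
noncomputable def ev {M : A} (t : (⨁ G) ⟶ M) : Lam G →ₗ[Lam G] ((⨁ G) ⟶ M) where
  toFun r := r • t
  map_add' r s := add_smul r s t
  map_smul' r s := by
    rw [RingHom.id_apply, smul_eq_mul, mul_smul]

variable {m : ℕ} (s : Fin m → I)

theorem decomp (f : (⨁ G) ⟶ ⨁ fun j => G (s j)) :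
    f = ∑ j, (MulOpposite.op (f ≫ biproduct.π (fun j => G (s j)) j ≫ biproduct.ι G (s j)) : Lam G)
      • (biproduct.π G (s j) ≫ biproduct.ι (fun j => G (s j)) j) := by
  have h : ∀ j, (MulOpposite.op (f ≫ biproduct.π (fun j => G (s j)) j ≫ biproduct.ι G (s j)) :
      Lam G) • (biproduct.π G (s j) ≫ biproduct.ι (fun j => G (s j)) j)
      = f ≫ (biproduct.π (fun j => G (s j)) j ≫ biproduct.ι (fun j => G (s j)) j) := by
    intro j
    rw [smul_eq, MulOpposite.unop_op]
    simp only [Category.assoc]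
    rw [biproduct.ι_π_self_assoc]
  rw [Finset.sum_congr rfl fun j _ => h j, ← Preadditive.comp_sum, biproduct.total,
    Category.comp_id]

theorem proj_sum : Module.Projective (Lam G) ((⨁ G) ⟶ ⨁ fun j => G (s j)) := by
  refine Module.Projective.of_split
    (LinearMap.pi fun j => co G (biproduct.π (fun j => G (s j)) j ≫ biproduct.ι G (s j)))
    (∑ j, (ev G (biproduct.π G (s j) ≫ biproduct.ι (fun j => G (s j)) j)).comp
      (LinearMap.proj j)) ?_
  refine LinearMap.ext fun f => ?_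
  rw [LinearMap.comp_apply, LinearMap.sum_apply, LinearMap.id_apply]
  exact (decomp G s f).symm

theorem rep {Y : A} (E : ((⨁ G) ⟶ ⨁ fun j => G (s j)) →ₗ[Lam G] ((⨁ G) ⟶ Y)) :
    ∃ e : (⨁ fun j => G (s j)) ⟶ Y, ∀ f, E f = f ≫ e := by
  refine ⟨biproduct.desc fun j => biproduct.ι G (s j) ≫
    E (biproduct.π G (s j) ≫ biproduct.ι (fun j => G (s j)) j), fun f => ?_⟩
  conv_lhs => rw [decomp G s f, map_sum]
  have h1 : f ≫ (biproduct.desc fun j => biproduct.ι G (s j) ≫
      E (biproduct.π G (s j) ≫ biproduct.ι (fun j => G (s j)) j)) =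
      f ≫ (∑ j, biproduct.π (fun j => G (s j)) j ≫ biproduct.ι (fun j => G (s j)) j) ≫
        (biproduct.desc fun j => biproduct.ι G (s j) ≫
          E (biproduct.π G (s j) ≫ biproduct.ι (fun j => G (s j)) j)) := by
    rw [biproduct.total, Category.id_comp]
  rw [h1, Preadditive.sum_comp, Preadditive.comp_sum]
  refine Finset.sum_congr rfl fun j _ => ?_
  rw [map_smul, smul_eq, MulOpposite.unop_op]
  simp only [Category.assoc, biproduct.ι_desc]

theorem gen {Y : A} (φ : (⨁ fun j => G (s j)) ⟶ Y) (h : ∀ f : (⨁ G) ⟶ _, f ≫ φ = 0) : φ = 0 := by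
  refine biproduct.hom_ext' _ _ fun j => ?_
  have h1 : biproduct.ι (fun j => G (s j)) j =
      biproduct.ι G (s j) ≫ biproduct.π G (s j) ≫ biproduct.ι (fun j => G (s j)) j := by
    rw [biproduct.ι_π_self_assoc]
  rw [h1, Category.assoc, Category.assoc]
  have h2 := h (biproduct.π G (s j) ≫ biproduct.ι (fun j => G (s j)) j)
  rw [Category.assoc] at h2
  rw [h2, comp_zero, comp_zero]

/-- approximation with `m` summands -/
def App (M : A) (m : ℕ) : Prop := ∃ (s : Fin m → I) (g : (⨁ fun j => G (s j)) ⟶ M),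
  ∀ (a : I) (h : G a ⟶ M), ∃ h' : G a ⟶ ⨁ fun j => G (s j), h' ≫ g = h

theorem app_surj {M X : A} (g : X ⟶ M)
    (hl : ∀ (a : I) (h : G a ⟶ M), ∃ h' : G a ⟶ X, h' ≫ g = h) (f : (⨁ G) ⟶ M) :
    ∃ f' : (⨁ G) ⟶ X, f' ≫ g = f := by
  choose h' hh' using fun a => hl a (biproduct.ι G a ≫ f)
  refine ⟨biproduct.desc h', ?_⟩
  refine biproduct.hom_ext' _ _ fun a => ?_
  rw [biproduct.ι_desc_assoc, hh']

theorem step_ses {K X M : A} (i : K ⟶ X) (g : X ⟶ M) (w : i ≫ g = 0)
    (hk : IsLimit (KernelFork.ofι i w))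
    (hl : ∀ (a : I) (h : G a ⟶ M), ∃ h' : G a ⟶ X, h' ≫ g = h) :
    (ShortComplex.mk ((F G).map i) ((F G).map g)
      (by rw [← Functor.map_comp, w, Functor.map_zero])).ShortExact := by
  refine ShortComplex.ShortExact.mk' ?_ ?_ ?_
  · rw [ShortComplex.moduleCat_exact_iff]
    intro f hf
    obtain ⟨l, hl'⟩ := KernelFork.IsLimit.lift' hk (f : (⨁ G) ⟶ X) hf
    exact ⟨l, hl'⟩
  · rw [ModuleCat.mono_iff_injective]
    intro f f' hff
    exact Fork.IsLimit.hom_ext hk hff
  · rw [ModuleCat.epi_iff_surjective]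
    intro f
    exact app_surj G g hl f

end pre

section main

variable {k : Type w} [Field k] {A : Type u} [Category.{v} A] [Preadditive A] [Linear k A]
  [HasFiniteBiproducts A] {I : Type} [Fintype I] (G : I → A)

include k in
theorem fl (M : A) (h : FiniteDimensional k ((⨁ G) ⟶ M)) :
    IsFiniteLength (Lam G) ((F G).obj M) := by
  haveI : IsScalarTower k (Lam G) ((⨁ G) ⟶ M) :=
    ⟨fun c r f => Linear.smul_comp _ _ _ c r.unop f⟩
  have h1 : IsNoetherian (Lam G) ((⨁ G) ⟶ M) := isNoetherian_of_tower k inferInstance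
  have h2 : IsArtinian (Lam G) ((⨁ G) ⟶ M) := isArtinian_of_tower k inferInstance
  exact isFiniteLength_iff_isNoetherian_isArtinian.2 ⟨h1, h2⟩

include k in
theorem exists_app (M : A) (hM : FiniteDimensional k ((⨁ G) ⟶ M)) : ∃ m, App G M m := by
  classical
  set b := Module.finBasis k ((⨁ G) ⟶ M) with hb
  set d := Module.finrank k ((⨁ G) ⟶ M) with hd
  set e : Fin (Fintype.card (I × Fin d)) ≃ I × Fin d := (Fintype.equivFin _).symm with he
  refine ⟨_, fun j => (e j).1, biproduct.desc fun j => biproduct.ι G (e j).1 ≫ b (e j).2, ?_⟩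
  have hP : ∀ p : I × Fin d, ∃ h' : G p.1 ⟶ ⨁ fun j => G (e j).1,
      h' ≫ (biproduct.desc fun j => biproduct.ι G (e j).1 ≫ b (e j).2)
        = biproduct.ι G p.1 ≫ b p.2 :=
    e.surjective.forall.2 fun j => ⟨biproduct.ι (fun j => G (e j).1) j, biproduct.ι_desc _ _⟩
  intro a h
  choose hh hhh using fun x : Fin d => hP (a, x)
  refine ⟨∑ x, (b.repr (biproduct.π G a ≫ h) x) • hh x, ?_⟩
  rw [Preadditive.sum_comp]
  have h1 : ∀ x, ((b.repr (biproduct.π G a ≫ h) x) • hh x) ≫
      (biproduct.desc fun j => biproduct.ι G (e j).1 ≫ b (e j).2)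
      = biproduct.ι G a ≫ ((b.repr (biproduct.π G a ≫ h) x) • b x) := by
    intro x
    rw [Linear.smul_comp, hhh x, Linear.comp_smul]
  rw [Finset.sum_congr rfl fun x _ => h1 x, ← Preadditive.comp_sum, b.sum_repr,
    biproduct.ι_π_self_assoc]

theorem drop {M : A} {m : ℕ} (s : Fin (m + 1) → I) (g : (⨁ fun j => G (s j)) ⟶ M)
    (hl : ∀ (a : I) (h : G a ⟶ M), ∃ h' : G a ⟶ ⨁ fun j => G (s j), h' ≫ g = h)
    (e : (⨁ fun j => G (s j)) ⟶ ⨁ fun j => G (s j)) (heg : e ≫ g = 0)
    (a b : Fin (m + 1)) (hab : s a = s b) (c : k) (hc : c ≠ 0)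
    (he : biproduct.ι (fun j => G (s j)) a ≫ e ≫ biproduct.π (fun j => G (s j)) b =
      c • eqToHom (congrArg G hab)) : App G M m := by
  refine ⟨fun j => s (b.succAbove j),
    biproduct.desc fun j => biproduct.ι (fun j => G (s j)) (b.succAbove j) ≫ g, ?_⟩
  intro x h
  obtain ⟨h0, hh0⟩ := hl x h
  set h1 : G x ⟶ ⨁ fun j => G (s j) := h0 - c⁻¹ • (h0 ≫ biproduct.π (fun j => G (s j)) b ≫
    eqToHom (congrArg G hab.symm) ≫ biproduct.ι (fun j => G (s j)) a ≫ e) with hh1
  have e1 : h1 ≫ g = h := by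
    rw [hh1, Preadditive.sub_comp, Linear.smul_comp]
    simp only [Category.assoc, heg, comp_zero, smul_zero, sub_zero]
    exact hh0
  have e2 : h1 ≫ biproduct.π (fun j => G (s j)) b = 0 := by
    rw [hh1, Preadditive.sub_comp, Linear.smul_comp]
    simp only [Category.assoc]
    rw [he, Linear.comp_smul, eqToHom_trans, eqToHom_refl]
    rw [Linear.comp_smul, Linear.comp_smul, Category.comp_id, smul_smul, inv_mul_cancel₀ hc,
      one_smul, sub_self]
  refine ⟨biproduct.lift fun j => h1 ≫ biproduct.π (fun j => G (s j)) (b.succAbove j), ?_⟩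
  rw [biproduct.lift_desc]
  have e3 : h1 ≫ g = h1 ≫ (∑ j, biproduct.π (fun j => G (s j)) j ≫
      biproduct.ι (fun j => G (s j)) j) ≫ g := by
    rw [biproduct.total, Category.id_comp]
  rw [← e1, e3, Preadditive.sum_comp, Preadditive.comp_sum, Fin.sum_univ_succAbove _ b]
  have e4 : h1 ≫ (biproduct.π (fun j => G (s j)) b ≫ biproduct.ι (fun j => G (s j)) b) ≫ g = 0 := by
    rw [Category.assoc, reassoc_of% e2, zero_comp]
  rw [e4, zero_add]
  refine Finset.sum_congr rfl fun j _ => ?_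
  simp only [Category.assoc]

theorem base_case (M : A) (happ : ∃ m, App G M m)
    (hiso : ∀ (m : ℕ) (s : Fin m → I) (g : (⨁ fun j => G (s j)) ⟶ M),
      (∀ a, Function.Bijective (fun h : G a ⟶ ⨁ fun j => G (s j) => h ≫ g)) → IsIso g)
    (hidem : ∀ (m : ℕ) (s : Fin m → I)
      (e : (⨁ fun j => G (s j)) ⟶ ⨁ fun j => G (s j)), e ≫ e = e → e ≠ 0 →
      ∃ (a b : Fin m) (hab : s a = s b) (c : k), c ≠ 0 ∧
        biproduct.ι (fun j => G (s j)) a ≫ e ≫ biproduct.π (fun j => G (s j)) b =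
          c • eqToHom (congrArg G hab))
    (hproj : Projective ((F G).obj M)) : HasRes G 0 M := by
  classical
  obtain ⟨s, g, hl⟩ := Nat.find_spec happ
  have hmin : ∀ m' < Nat.find happ, ¬ App G M m' := fun m' h => Nat.find_min happ h
  generalize Nat.find happ = m at s g hl hmin
  haveI hepi : Epi ((F G).map g) := by
    rw [ModuleCat.epi_iff_surjective]
    intro f
    exact app_surj G g hl f
  have hσ : Projective.factorThru (𝟙 ((F G).obj M)) ((F G).map g) ≫ (F G).map g = 𝟙 _ :=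
    Projective.factorThru_comp _ _
  set σ : ((⨁ G) ⟶ M) →ₗ[Lam G] ((⨁ G) ⟶ ⨁ fun j => G (s j)) :=
    (Projective.factorThru (𝟙 ((F G).obj M)) ((F G).map g)).hom with hσd
  have hσ' : ∀ f : (⨁ G) ⟶ M, σ f ≫ g = f := by
    intro f
    have h1 := congrArg (fun t => (ModuleCat.Hom.hom t) f) hσ
    exact h1
  set E : ((⨁ G) ⟶ ⨁ fun j => G (s j)) →ₗ[Lam G] ((⨁ G) ⟶ ⨁ fun j => G (s j)) :=
    LinearMap.id - σ.comp (post G g) with hE
  have hEa : ∀ f, E f = f - σ (f ≫ g) := fun f => rfl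
  have hE1 : ∀ f, E f ≫ g = 0 := by
    intro f
    rw [hEa, Preadditive.sub_comp, hσ', sub_self]
  have hE2 : ∀ f, f ≫ g = 0 → E f = f := by
    intro f hf
    rw [hEa, hf, map_zero, sub_zero]
  obtain ⟨e, he⟩ := rep G s E
  have heg : e ≫ g = 0 := by
    refine gen G s _ fun f => ?_
    rw [← Category.assoc, ← he, hE1]
  have hee : e ≫ e = e := by
    rw [← sub_eq_zero]
    refine gen G s _ fun f => ?_
    rw [Preadditive.comp_sub, ← Category.assoc, ← he f, ← he (E f), hE2 _ (hE1 f), sub_self]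
  have he0 : e = 0 := by
    by_contra hne
    obtain ⟨a, b, hab, c, hc, hc2⟩ := hidem m s e hee hne
    obtain ⟨m', rfl⟩ : ∃ m', m = m' + 1 :=
      ⟨m - 1, (Nat.succ_pred_eq_of_pos (lt_of_le_of_lt (Nat.zero_le _) a.isLt)).symm⟩
    exact hmin m' (Nat.lt_succ_self _) (drop G s g hl e heg a b hab c hc hc2)
  have hinj : ∀ f : (⨁ G) ⟶ ⨁ fun j => G (s j), f ≫ g = 0 → f = 0 := by
    intro f hf
    rw [← hE2 f hf, he, he0, comp_zero]
  haveI : IsIso g := by
    refine hiso m s g fun a => ⟨?_, ?_⟩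
    · intro h h' hh
      have h1 : (h - h') ≫ g = 0 := by
        rw [Preadditive.sub_comp, sub_eq_zero]
        exact hh
      have h2 : biproduct.π G a ≫ (h - h') = 0 := by
        refine hinj _ ?_
        rw [Category.assoc, h1, comp_zero]
      have h3 : h - h' = biproduct.ι G a ≫ biproduct.π G a ≫ (h - h') := by
        rw [biproduct.ι_π_self_assoc]
      rw [h2, comp_zero, sub_eq_zero] at h3
      exact h3
    · intro h
      exact hl a h
  exact HasRes.base M m s ⟨(asIso g).symm⟩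

end main

end B

theorem stmtB {k : Type w} [Field k] {A : Type u} [Category.{v} A] [Preadditive A] [Linear k A]
    [HasFiniteBiproducts A] : StmtB (k := k) (A := A) := by
  intro I _ _ G hpd MM hfin hker hiso hidem
  have key : ∀ (n : ℕ) (M : A), MM M → HasProjectiveDimensionLT ((B.F G).obj M) (n + 1) →
      HasRes G n M := by
    intro n
    induction n with
    | zero =>
      intro M hM hn
      exact B.base_case G M (B.exists_app G M (hfin M hM)) (hiso M hM) hidem
        (projective_iff_hasProjectiveDimensionLT_one.2 hn)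
    | succ n ih =>
      intro M hM hn
      obtain ⟨m, s, g, hl⟩ := B.exists_app G M (hfin M hM)
      obtain ⟨K, i, w, hK, ⟨hk⟩⟩ := hker M hM m s g
      have hses := B.step_ses G i g w hk hl
      have hproj : Projective ((B.F G).obj (⨁ fun j => G (s j))) := by
        haveI := B.proj_sum G s
        exact (ModuleCat.of (Lam G) ((⨁ G) ⟶ ⨁ fun j => G (s j))).projective_of_categoryTheory_projective
      have h1 : HasProjectiveDimensionLT ((B.F G).obj K) (n + 1) :=
        (hses.hasProjectiveDimensionLT_X₃_iff n hproj).1 hn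
      exact HasRes.step n K M m s i g w ⟨hk⟩ hl (ih K hK h1)
  intro M hM
  obtain ⟨n, hn⟩ := hpd ((B.F G).obj M) (B.fl G M (hfin M hM))
  exact ⟨n, key n M hM (hasProjectiveDimensionLT_of_ge _ n (n + 1) (Nat.le_succ n))⟩

end R118.Spr
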