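import Pool.Agent.R118.Spr.Defs

/-!
# Morphisms out of spread representations
-/

open CategoryTheory Limits

universe u

namespace R118.Spr

variable {k : Type u} [Field k] {P : Type u} [PartialOrder P]

/-- the value of an element of `sp k S hS` at `p`, as a scalar -/
noncomputable def vl {S : Set P} {hS : S.OrdConnected} {p : P} :
    (sp k S hS).obj p →ₗ[k] k :=
  Submodule.subtype (fib k S p)

open scoped Classical in
lemma vl_map {S : Set P} {hS : S.OrdConnected} {p q : P} (h : p ⟶ q)
    (x : (sp k S hS).obj p) : vl ((sp k S hS).map h x) = if q ∈ S then vl x else 0 := rfl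

lemma vl_inj {S : Set P} {hS : S.OrdConnected} {p : P} {x y : (sp k S hS).obj p}
    (h : vl x = vl y) : x = y := Subtype.ext h

lemma vl_notMem {S : Set P} {hS : S.OrdConnected} {p : P} (hp : p ∉ S)
    (x : (sp k S hS).obj p) : vl x = 0 := x.2 hp

open scoped Classical in
/-- the generator at `p` (zero if `p ∉ S`) -/
noncomputable def one (S : Set P) (hS : S.OrdConnected) (p : P) : (sp k S hS).obj p :=
  ⟨if p ∈ S then 1 else 0, fun h => if_neg h⟩

open scoped Classical in
lemma vl_one {S : Set P} {hS : S.OrdConnected} {p : P} :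
    vl (one (k := k) S hS p) = if p ∈ S then 1 else 0 := rfl

lemma eq_smul_one {S : Set P} {hS : S.OrdConnected} {p : P} (x : (sp k S hS).obj p) :
    x = vl x • one S hS p := by
  refine vl_inj ?_
  rw [map_smul, vl_one, smul_eq_mul]
  by_cases hp : p ∈ S
  · simp [hp]
  · simp [hp, vl_notMem hp]

open scoped Classical in
lemma map_one_eq {S : Set P} {hS : S.OrdConnected} {p q : P} (h : p ⟶ q) (hp : p ∈ S) :
    (sp k S hS).map h (one S hS p) = if q ∈ S then one S hS q else 0 := by
  refine vl_inj ?_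
  rw [vl_map, vl_one, if_pos hp]
  split_ifs with hq
  · rw [vl_one, if_pos hq]
  · rw [map_zero]

lemma one_notMem {S : Set P} {hS : S.OrdConnected} {p : P} (hp : p ∉ S) :
    one (k := k) S hS p = 0 := by
  refine vl_inj ?_
  rw [vl_one, if_neg hp, map_zero]

open scoped Classical in
/-- a morphism out of `sp k S hS` from its values on generators -/
noncomputable def desc {S : Set P} {hS : S.OrdConnected} {N : P ⥤ ModuleCat.{u} k}
    (n : ∀ p, N.obj p)
    (hn : ∀ (p q : P) (h : p ⟶ q), p ∈ S → N.map h (n p) = if q ∈ S then n q else 0) :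
    sp k S hS ⟶ N where
  app p := ModuleCat.ofHom
    ((LinearMap.toSpanSingleton k (N.obj p) (n p)).comp (vl (S := S) (hS := hS) (p := p)))
  naturality p q h := by
    ext x
    change vl ((sp k S hS).map h x) • n q = N.map h (vl x • n p)
    rw [vl_map, map_smul]
    by_cases hp : p ∈ S
    · rw [hn p q h hp]
      by_cases hq : q ∈ S
      · rw [if_pos hq, if_pos hq]
      · rw [if_neg hq, if_neg hq, zero_smul, smul_zero]
    · rw [vl_notMem hp x, zero_smul]
      split_ifs <;> rw [zero_smul]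

/-- the value of a morphism on the generator at `p` -/
noncomputable def elt {S : Set P} {hS : S.OrdConnected} {N : P ⥤ ModuleCat.{u} k}
    (f : sp k S hS ⟶ N) (p : P) : N.obj p := f.app p (one S hS p)

lemma app_eq {S : Set P} {hS : S.OrdConnected} {N : P ⥤ ModuleCat.{u} k}
    (f : sp k S hS ⟶ N) (p : P) (x : (sp k S hS).obj p) : f.app p x = vl x • elt f p := by
  conv_lhs => rw [eq_smul_one x]
  rw [map_smul]
  rfl

lemma elt_notMem {S : Set P} {hS : S.OrdConnected} {N : P ⥤ ModuleCat.{u} k}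
    (f : sp k S hS ⟶ N) {p : P} (hp : p ∉ S) : elt f p = 0 := by
  rw [elt, one_notMem hp, map_zero]

lemma hom_ext_elt {S : Set P} {hS : S.OrdConnected} {N : P ⥤ ModuleCat.{u} k}
    {f g : sp k S hS ⟶ N} (h : ∀ p ∈ S, elt f p = elt g p) : f = g := by
  ext p x
  rw [app_eq, app_eq]
  by_cases hp : p ∈ S
  · rw [h p hp]
  · rw [elt_notMem f hp, elt_notMem g hp]

lemma nat_apply {M N : P ⥤ ModuleCat.{u} k} (f : M ⟶ N) {p q : P} (h : p ⟶ q) (x : M.obj p) :
    f.app q (M.map h x) = N.map h (f.app p x) := by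
  have := congrArg (fun t => t x) (congrArg ModuleCat.Hom.hom (f.naturality h))
  exact this

open scoped Classical in
lemma map_elt {S : Set P} {hS : S.OrdConnected} {N : P ⥤ ModuleCat.{u} k}
    (f : sp k S hS ⟶ N) {p q : P} (h : p ⟶ q) (hp : p ∈ S) :
    N.map h (elt f p) = if q ∈ S then elt f q else 0 := by
  rw [elt, ← nat_apply, map_one_eq h hp]
  split_ifs with hq
  · rfl
  · rw [map_zero]

lemma elt_desc {S : Set P} {hS : S.OrdConnected} {N : P ⥤ ModuleCat.{u} k}
    (n : ∀ p, N.obj p) (hn) {p : P} (hp : p ∈ S) :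
    elt (desc (S := S) (hS := hS) n hn) p = n p := by
  change vl (one (k := k) S hS p) • n p = n p
  rw [vl_one, if_pos hp, one_smul]

lemma elt_comp {S : Set P} {hS : S.OrdConnected} {M N : P ⥤ ModuleCat.{u} k}
    (f : sp k S hS ⟶ M) (g : M ⟶ N) (p : P) : elt (f ≫ g) p = g.app p (elt f p) := rfl

/-- the coefficient at `p` of a morphism between spread representations -/
noncomputable def cf {S T : Set P} {hS : S.OrdConnected} {hT : T.OrdConnected}
    (f : sp k S hS ⟶ sp k T hT) (p : P) : k := vl (elt f p)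

section
variable {S T U : Set P} {hS : S.OrdConnected} {hT : T.OrdConnected} {hU : U.OrdConnected}

lemma cf_left {f : sp k S hS ⟶ sp k T hT} {p : P} (h : cf f p ≠ 0) : p ∈ S := by
  by_contra hp
  exact h (by rw [cf, elt_notMem f hp, map_zero])

lemma cf_right {f : sp k S hS ⟶ sp k T hT} {p : P} (h : cf f p ≠ 0) : p ∈ T := by
  by_contra hp
  exact h (vl_notMem hp (elt f p))

lemma cf_ext {f g : sp k S hS ⟶ sp k T hT} (h : ∀ p, p ∈ S → p ∈ T → cf f p = cf g p) :
    f = g := by
  refine hom_ext_elt fun p hp => vl_inj ?_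
  by_cases hpT : p ∈ T
  · exact h p hp hpT
  · rw [vl_notMem hpT, vl_notMem hpT]

lemma cf_comp (f : sp k S hS ⟶ sp k T hT) (g : sp k T hT ⟶ sp k U hU) (p : P) :
    cf (f ≫ g) p = cf f p * cf g p := by
  rw [cf, elt_comp, app_eq, map_smul, smul_eq_mul]
  rfl

/-- both in `S`, the larger one in `T`: coefficients agree -/
lemma cf_eq (f : sp k S hS ⟶ sp k T hT) {p q : P} (h : p ≤ q) (hp : p ∈ S) (hq : q ∈ S)
    (hqT : q ∈ T) : cf f q = cf f p := by
  have := congrArg vl (map_elt f (homOfLE h) hp)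
  rw [vl_map, if_pos hq, if_pos hqT] at this
  exact this.symm

/-- leaving `S` but not `T`: the coefficient is zero -/
lemma cf_zero (f : sp k S hS ⟶ sp k T hT) {p q : P} (h : p ≤ q) (hp : p ∈ S) (hq : q ∉ S)
    (hqT : q ∈ T) : cf f p = 0 := by
  have := congrArg vl (map_elt f (homOfLE h) hp)
  rw [vl_map, if_neg hq, if_pos hqT, map_zero] at this
  exact this

open scoped Classical in
/-- morphism between spread representations from coefficients -/
noncomputable def mkc (c : P → k)
    (h1 : ∀ p q, p ≤ q → p ∈ S → q ∈ S → q ∈ T → p ∈ T → c q = c p)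
    (h2 : ∀ p q, p ≤ q → p ∈ S → q ∉ S → q ∈ T → p ∈ T → c p = 0)
    (h3 : ∀ p q, p ≤ q → p ∈ S → p ∉ T → q ∈ S → q ∈ T → c q = 0) :
    sp k S hS ⟶ sp k T hT :=
  desc (fun p => c p • one T hT p) (fun p q h hp => by
    have hpq : p ≤ q := leOfHom h
    refine vl_inj ?_
    rw [vl_map, map_smul, vl_one]
    by_cases hpT : p ∈ T
    · by_cases hqT : q ∈ T
      · by_cases hq : q ∈ S
        · rw [if_pos hqT, if_pos hpT, if_pos hq, map_smul, vl_one, if_pos hqT,
            h1 p q hpq hp hq hqT hpT]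
        · rw [if_pos hqT, if_pos hpT, if_neg hq, map_zero, h2 p q hpq hp hq hqT hpT, zero_smul]
      · rw [if_neg hqT]
        exact (vl_notMem hqT _).symm
    · by_cases hqT : q ∈ T
      · by_cases hq : q ∈ S
        · rw [if_pos hqT, if_neg hpT, if_pos hq, map_smul, vl_one, if_pos hqT,
            h3 p q hpq hp hpT hq hqT, smul_zero, zero_smul]
        · rw [if_pos hqT, if_neg hpT, if_neg hq, map_zero, smul_zero]
      · rw [if_neg hqT]
        exact (vl_notMem hqT _).symm)

lemma cf_mkc (c : P → k) (h1 h2 h3) {p : P} (hp : p ∈ S) (hpT : p ∈ T) :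
    cf (mkc (S := S) (T := T) (hS := hS) (hT := hT) c h1 h2 h3) p = c p := by
  rw [cf, mkc, elt_desc _ _ hp, map_smul, vl_one, if_pos hpT, smul_eq_mul, mul_one]

lemma cf_add (f g : sp k S hS ⟶ sp k T hT) (p : P) : cf (f + g) p = cf f p + cf g p := by
  rw [cf, cf, cf, ← map_add]; rfl

lemma cf_sum {ι : Type*} (s : Finset ι) (f : ι → (sp k S hS ⟶ sp k T hT)) (p : P) :
    cf (∑ i ∈ s, f i) p = ∑ i ∈ s, cf (f i) p := by
  classical
  induction s using Finset.induction_on with
  | empty => simp only [Finset.sum_empty]; exact map_zero vl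
  | insert a s ha ih => rw [Finset.sum_insert ha, Finset.sum_insert ha, cf_add, ih]

lemma cf_smul (c : k) (f : sp k S hS ⟶ sp k T hT) (p : P) : cf (c • f) p = c * cf f p := by
  rw [cf, cf, ← smul_eq_mul, ← map_smul]; rfl

lemma cf_id {p : P} (hp : p ∈ S) : cf (𝟙 (sp k S hS)) p = 1 := by
  change vl (one (k := k) S hS p) = 1
  rw [vl_one, if_pos hp]

lemma cf_zero_hom (p : P) : cf (0 : sp k S hS ⟶ sp k T hT) p = 0 :=
  map_zero (vl (k := k) (S := T) (hS := hT) (p := p))

end

/-- endomorphisms of a spread representation are scalars -/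
lemma end_scalar {S : Set P} (hS : IsSpread S) (f : sp k S hS.convex ⟶ sp k S hS.convex) :
    ∃ c : k, f = c • 𝟙 _ := by
  obtain ⟨x, hx⟩ := hS.nonempty
  refine ⟨cf f x, cf_ext fun p hp _ => ?_⟩
  rw [cf_smul, cf_id hp, mul_one]
  have := hS.connected x hx p hp
  clear hp
  induction this with
  | refl => rfl
  | tail _ hbc ih =>
    obtain ⟨hb, hc, h | h⟩ := hbc
    · rw [cf_eq f h hb hc hc, ih hb]
    · rw [← cf_eq f h hc hb hb, ih hb]

end R118.Spr
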