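import Pool.Agent.R118.Spr.Stm2

/-!
# SPR-C: module theory with explicit bounds  (helper91, after helper258 and helper706)
-/

open CategoryTheory Limits

universe v u w

set_option linter.unusedSectionVars false
set_option linter.style.haveILetI false

namespace R118.Spr

namespace PartC

open PartA

section Mod

variable (R : Type v) [Ring R]

/-- projective dimension less than `b` -/
def PLT (N : Type v) [AddCommGroup N] [Module R N] (b : ℕ) : Prop :=
  HasProjectiveDimensionLT (ModuleCat.of R N) b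

variable {R}
variable {N N' : Type v} [AddCommGroup N] [Module R N] [AddCommGroup N'] [Module R N']

theorem plt_mono {b c : ℕ} (h : PLT R N b) (hbc : b ≤ c) : PLT R N c := by
  haveI : HasProjectiveDimensionLT (ModuleCat.of R N) b := h
  exact hasProjectiveDimensionLT_of_ge (ModuleCat.of R N) b c hbc

theorem plt_proj (N : Type v) [AddCommGroup N] [Module R N] (h : Module.Projective R N) (b : ℕ) :
    PLT R N (b + 1) :=
  plt_mono (b := 1)
    (projective_iff_hasProjectiveDimensionLT_one.1 ((IsProjective.iff_projective N).1 h)) (by omega)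

theorem plt_equiv (e : N ≃ₗ[R] N') {b : ℕ} (h : PLT R N b) : PLT R N' b := by
  haveI : HasProjectiveDimensionLT (ModuleCat.of R N) b := h
  exact hasProjectiveDimensionLT_of_iso e.toModuleIso b

theorem plt_ext (S : Submodule R N) {b : ℕ} (h1 : PLT R S b) (h2 : PLT R (N ⧸ S) b) :
    PLT R N b :=
  (se S).hasProjectiveDimensionLT_X₂ b h1 h2

theorem plt_quot (S : Submodule R N) {b : ℕ} (h1 : PLT R S b) (h2 : PLT R N (b + 1)) :
    PLT R (N ⧸ S) (b + 1) :=
  (se S).hasProjectiveDimensionLT_X₃ b h1 h2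

theorem plt_subsingleton [Subsingleton N] (b : ℕ) : PLT R N (b + 1) :=
  plt_proj N inferInstance b

end Mod

section

variable {k : Type w} [Field k] {A : Type u} [Category.{v} A] [Preadditive A] [Linear k A]
  [HasFiniteBiproducts A] {I : Type} [Fintype I] [DecidableEq I] (G : I → A)

/-- the claim for simple modules -/
def SC1 (r : I → ℕ) (ρ : ℕ) : Prop :=
  ∀ i, r i < ρ → ∀ (L : Type v) [AddCommGroup L] [Module (Lam G) L], IsSimpleModule (Lam G) L →
    ∀ n : L, idem G i • n ≠ 0 → PLT (Lam G) L (ρ + 1)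

theorem fl_case1 {r : I → ℕ} {ρ : ℕ} (hS : SC1 G r ρ) (N : Type v) [AddCommGroup N]
    [Module (Lam G) N] (hN : IsFiniteLength (Lam G) N) :
    (∀ j, ρ ≤ r j → ∀ n : N, idem G j • n = 0) → PLT (Lam G) N (ρ + 1) := by
  induction hN with
  | of_subsingleton => intro _; exact plt_subsingleton ρ
  | @of_simple_quotient M _ _ S hq _ ih =>
    intro h0
    refine plt_ext S (ih fun j hj n => Subtype.ext ?_) ?_
    · exact h0 j hj n
    · have hnt : Nontrivial (M ⧸ S) := hq.nontrivial
      obtain ⟨x, hx⟩ := exists_ne (0 : M ⧸ S)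
      obtain ⟨i, hi⟩ := exists_idem G hx
      have hri : r i < ρ := by
        by_contra hcon
        push Not at hcon
        apply hi
        obtain ⟨m, rfl⟩ := Submodule.Quotient.mk_surjective _ x
        rw [← Submodule.Quotient.mk_smul, h0 i hcon, Submodule.Quotient.mk_zero]
      exact hS i hri (M ⧸ S) hq x hi

/-- finite length from the simple modules -/
theorem fl_all {b : ℕ} (hS : ∀ i, ∀ (L : Type v) [AddCommGroup L] [Module (Lam G) L],
      IsSimpleModule (Lam G) L → ∀ n : L, idem G i • n ≠ 0 → PLT (Lam G) L (b + 1))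
    (N : Type v) [AddCommGroup N] [Module (Lam G) N] (hN : IsFiniteLength (Lam G) N) :
    PLT (Lam G) N (b + 1) := by
  induction hN with
  | of_subsingleton => exact plt_subsingleton b
  | @of_simple_quotient M _ _ S hq _ ih =>
    refine plt_ext S ih ?_
    have hnt : Nontrivial (M ⧸ S) := hq.nontrivial
    obtain ⟨x, hx⟩ := exists_ne (0 : M ⧸ S)
    obtain ⟨i, hi⟩ := exists_idem G hx
    exact hS i (M ⧸ S) hq x hi

section simple

variable {i : I} {L : Type v} [AddCommGroup L] [Module (Lam G) L]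
  (hL : IsSimpleModule (Lam G) L) {n : L} (hn : idem G i • n = n) (hn0 : n ≠ 0)
include hL hn hn0

theorem phi_pi : phi G i n (biproduct.π G i) = n := by
  rw [phi_apply, ← idem_eq, hn]

theorem phi_surj : Function.Surjective (phi G i n) := by
  rw [← LinearMap.range_eq_top]
  refine (eq_bot_or_eq_top _).resolve_left fun h => hn0 ?_
  have h1 : n ∈ LinearMap.range (phi G i n) := ⟨_, phi_pi G hL hn hn0⟩
  rw [h] at h1
  exact (Submodule.mem_bot _).1 h1

theorem range_le_ker {U : A} (u : U ⟶ G i) (hzero : ∀ g : G i ⟶ U, g ≫ u = 0) :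
    LinearMap.range (comp G u) ≤ LinearMap.ker (phi G i n) := by
  rintro _ ⟨f, rfl⟩
  rw [LinearMap.mem_ker]
  by_contra hne
  obtain ⟨x, hx⟩ : ∃ x, x = phi G i n (comp G u f) := ⟨_, rfl⟩
  rw [← hx] at hne
  have hspan : Submodule.span (Lam G) {x} = ⊤ :=
    (eq_bot_or_eq_top _).resolve_left fun h => hne (Submodule.span_singleton_eq_bot.1 h)
  have hnm : n ∈ Submodule.span (Lam G) {x} := by rw [hspan]; trivial
  obtain ⟨l, hl⟩ := Submodule.mem_span_singleton.1 hnm
  obtain ⟨l, rfl⟩ := el_surj G l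
  apply hn0
  rw [← hn, ← hl, hx, phi_apply, PartA.comp_apply, idem_eq, ← mul_smul, ← mul_smul, ← el_comp,
    ← el_comp]
  have h2 : ((biproduct.π G i ≫ biproduct.ι G i) ≫ l) ≫ (f ≫ u) ≫ biproduct.ι G i =
      biproduct.π G i ≫ ((biproduct.ι G i ≫ l ≫ f) ≫ u) ≫ biproduct.ι G i := by
    simp only [Category.assoc]
  rw [h2, hzero, zero_comp, comp_zero, el_zero, zero_smul]

include k in
theorem idem_ker (hEnd : ∀ i (f : G i ⟶ G i), ∃ c : k, f = c • 𝟙 (G i)) {x : (⨁ G) ⟶ G i}
    (hx : idem G i • x ∈ LinearMap.ker (phi G i n)) : idem G i • x = 0 := by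
  have hx2 : idem G i • x = biproduct.π G i ≫ biproduct.ι G i ≫ x := by
    rw [idem_eq, el_smul, Category.assoc]
  obtain ⟨c, hc⟩ := hEnd i (biproduct.ι G i ≫ x)
  have hx3 : idem G i • x = c • biproduct.π G i := by
    rw [hx2, hc, Linear.comp_smul, Category.comp_id]
  have hx4 : phi G i n (idem G i • x) = 0 := LinearMap.mem_ker.1 hx
  have hc0 : c = 0 := by
    by_contra hc0
    apply hn0
    rw [hx3, phi_apply, Linear.smul_comp] at hx4
    have h5 : el G (c⁻¹ • 𝟙 _) • el G (c • biproduct.π G i ≫ biproduct.ι G i) • n = n := by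
      rw [← mul_smul, ← el_comp, Linear.smul_comp, Category.id_comp, smul_smul,
        inv_mul_cancel₀ hc0, one_smul, ← idem_eq, hn]
    rw [← h5, hx4, smul_zero]
  rw [hx3, hc0, zero_smul]

end simple

theorem simple_step1 (hfd : ∀ i, FiniteDimensional k ((⨁ G) ⟶ G i))
    (hEnd : ∀ i (f : G i ⟶ G i), ∃ c : k, f = c • 𝟙 (G i))
    {r : I → ℕ} {U : I → A} {u : ∀ i, U i ⟶ G i} (hmono : ∀ i, Mono (u i))
    (hfac : ∀ i j, j ≠ i → r i ≤ r j → ∀ f : G j ⟶ G i, ∃ f' : G j ⟶ U i, f' ≫ u i = f)
    (hzero : ∀ i (g : G i ⟶ U i), g ≫ u i = 0)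
    (hadd : ∀ i, ∃ (m : ℕ) (s : Fin m → I) (p : ∀ b, U i ⟶ G (s b)) (q : ∀ b, G (s b) ⟶ U i),
      ∑ b, p b ≫ q b = 𝟙 (U i)) (i : I) (hS : SC1 G r (r i)) (L : Type v) [AddCommGroup L]
    [Module (Lam G) L] (hL : IsSimpleModule (Lam G) L) (n0 : L) (hn0 : idem G i • n0 ≠ 0) :
    PLT (Lam G) L (r i + 2) := by
  obtain ⟨n, hnd⟩ : ∃ n, n = idem G i • n0 := ⟨_, rfl⟩
  have hn : idem G i • n = n := by rw [hnd, ← mul_smul, idem_mul]
  rw [← hnd] at hn0
  have hsurj := phi_surj G hL hn hn0
  have hAN := range_le_ker G hL hn hn0 (u i) (hzero i)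
  have hfA : PLT (Lam G) (LinearMap.range (comp G (u i))) (r i + 1) := by
    obtain ⟨m, s, p, q, hpq⟩ := hadd i
    have hm := hmono i
    have hinj : Function.Injective (comp G (u i)) := fun f g hfg => (cancel_mono (u i)).1 hfg
    exact plt_equiv (LinearEquiv.ofInjective _ hinj) (plt_proj _ (proj_of_add G s p q hpq) _)
  obtain ⟨hNo, hAr⟩ := finLen_P G i (hfd i)
  have hfS : PLT (Lam G) ((LinearMap.range (comp G (u i))).submoduleOf
      (LinearMap.ker (phi G i n))) (r i + 1) :=
    plt_equiv (Submodule.submoduleOfEquivOfLe hAN).symm hfA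
  have hfN' : PLT (Lam G) (LinearMap.ker (phi G i n) ⧸
      (LinearMap.range (comp G (u i))).submoduleOf (LinearMap.ker (phi G i n))) (r i + 1) := by
    refine fl_case1 G hS _ ?_ ?_
    · rw [isFiniteLength_iff_isNoetherian_isArtinian]
      exact ⟨inferInstance, inferInstance⟩
    · intro j hj y
      obtain ⟨⟨x, hx⟩, rfl⟩ := Submodule.Quotient.mk_surjective _ y
      rw [← Submodule.Quotient.mk_smul, Submodule.Quotient.mk_eq_zero]
      change idem G j • x ∈ LinearMap.range (comp G (u i))
      by_cases hji : j = i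
      · subst hji
        rw [idem_ker G hL hn hn0 hEnd (Submodule.smul_mem _ _ hx)]
        exact Submodule.zero_mem _
      · have hx2 : idem G j • x = biproduct.π G j ≫ biproduct.ι G j ≫ x := by
          rw [idem_eq, el_smul, Category.assoc]
        obtain ⟨f', hf'⟩ := hfac i j hji hj (biproduct.ι G j ≫ x)
        rw [hx2, ← hf']
        exact ⟨biproduct.π G j ≫ f', by rw [PartA.comp_apply, Category.assoc]⟩
  have hfN0 : PLT (Lam G) (LinearMap.ker (phi G i n)) (r i + 1) := plt_ext _ hfS hfN'
  have hfq := plt_quot (LinearMap.ker (phi G i n)) hfN0 (plt_proj _ (proj_G G i) _)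
  exact plt_equiv ((phi G i n).quotKerEquivOfSurjective hsurj) hfq

end

section res

variable {A : Type u} [Category.{v} A] [Preadditive A]
  [HasFiniteBiproducts A] {I : Type} [Fintype I] (G : I → A)

theorem hasRes_lt {n : ℕ} {M : A} (h : HasRes G n M) :
    HasProjectiveDimensionLT ((B.F G).obj M) (n + 1) := by
  induction h with
  | base M m s e =>
    obtain ⟨e⟩ := e
    have hproj : Projective ((B.F G).obj (⨁ fun j => G (s j))) := by
      haveI := B.proj_sum G s
      exact (ModuleCat.of (Lam G) ((⨁ G) ⟶ ⨁ fun j => G (s j))).projective_of_categoryTheory_projective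
    haveI := projective_iff_hasProjectiveDimensionLT_one.1 hproj
    exact hasProjectiveDimensionLT_of_iso ((B.F G).mapIso e).symm 1
  | step n K M m s i g w hk hl hK ih =>
    obtain ⟨hk⟩ := hk
    have hses := B.step_ses G i g w hk hl
    have hproj : Projective ((B.F G).obj (⨁ fun j => G (s j))) := by
      haveI := B.proj_sum G s
      exact (ModuleCat.of (Lam G) ((⨁ G) ⟶ ⨁ fun j => G (s j))).projective_of_categoryTheory_projective
    haveI := projective_iff_hasProjectiveDimensionLT_one.1 hproj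
    exact hses.hasProjectiveDimensionLT_X₃ (n + 1) ih
      (hasProjectiveDimensionLT_of_ge _ 1 (n + 1 + 1) (by omega))

end res

end PartC

open PartA PartC

theorem stmtA1 {k : Type w} [Field k] {A : Type u} [Category.{v} A] [Preadditive A] [Linear k A]
    [HasFiniteBiproducts A] : StmtA1 (k := k) (A := A) := by
  intro I _ _ G hfd hEnd r R hR U u hmono hfac hzero hadd N hN
  have hSC : ∀ ρ, SC1 G r ρ := by
    intro ρ
    induction ρ with
    | zero => intro i hi; exact absurd hi (Nat.not_lt_zero _)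
    | succ ρ ih =>
      intro i hi L _ _ hL n hn
      rcases Nat.lt_succ_iff_lt_or_eq.1 hi with h | h
      · exact plt_mono (ih i h L hL n hn) (by omega)
      · subst h
        exact simple_step1 G hfd hEnd hmono hfac hzero hadd i ih L hL n hn
  exact fl_case1 G (hSC R) N hN fun j hj => absurd (hR j) (by omega)

theorem stmtA2 {k : Type w} [Field k] {A : Type u} [Category.{v} A] [Preadditive A] [Linear k A]
    [HasFiniteBiproducts A] : StmtA2 (k := k) (A := A) := by
  intro I _ _ G hEnd B E K σ κ w hk hfac hzero hadd hres N hN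
  refine fl_all G (b := B + 2) ?_ N hN
  intro i L _ _ hL n0 hn0
  obtain ⟨n, hnd⟩ : ∃ n, n = idem G i • n0 := ⟨_, rfl⟩
  have hn : idem G i • n = n := by rw [hnd, ← mul_smul, idem_mul]
  rw [← hnd] at hn0
  have hsurj := phi_surj G hL hn hn0
  have hker : LinearMap.range (comp G (σ i)) = LinearMap.ker (phi G i n) := by
    refine le_antisymm (range_le_ker G hL hn hn0 (σ i) (hzero i)) ?_
    intro x hx
    have hx1 : x = ∑ j, idem G j • x := by
      rw [← Finset.sum_smul, sum_idem, one_smul]
    have hj : ∀ j, j ≠ i → idem G j • x ∈ LinearMap.range (comp G (σ i)) := by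
      intro j hji
      have hx2 : idem G j • x = biproduct.π G j ≫ biproduct.ι G j ≫ x := by
        rw [idem_eq, el_smul, Category.assoc]
      obtain ⟨f', hf'⟩ := hfac i j hji (biproduct.ι G j ≫ x)
      rw [hx2, ← hf']
      exact ⟨biproduct.π G j ≫ f', by rw [PartA.comp_apply, Category.assoc]⟩
    rw [hx1]
    refine Submodule.sum_mem _ fun j _ => ?_
    by_cases hji : j = i
    · subst hji
      rw [idem_ker G hL hn hn0 hEnd (Submodule.smul_mem _ _ hx)]
      exact Submodule.zero_mem _
    · exact hj j hji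
  -- the kernel of composition with `σ i`
  obtain ⟨hlim⟩ := hk i
  have hinj : Function.Injective (comp G (κ i)) := fun f g hfg => Fork.IsLimit.hom_ext hlim hfg
  have hkr : LinearMap.range (comp G (κ i)) = LinearMap.ker (comp G (σ i)) := by
    apply le_antisymm
    · rintro _ ⟨f, rfl⟩
      rw [LinearMap.mem_ker, PartA.comp_apply, PartA.comp_apply, Category.assoc, w i, comp_zero]
    · intro f hf
      obtain ⟨l, hl⟩ := KernelFork.IsLimit.lift' hlim f (LinearMap.mem_ker.1 hf)
      exact ⟨l, hl⟩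
  have h1 : PLT (Lam G) ((⨁ G) ⟶ K i) (B + 1) := hasRes_lt G (hres i)
  have h2 : PLT (Lam G) (LinearMap.ker (comp G (σ i))) (B + 1) :=
    plt_equiv ((LinearEquiv.ofInjective _ hinj).trans (LinearEquiv.ofEq _ _ hkr)) h1
  have hE : Module.Projective (Lam G) ((⨁ G) ⟶ E i) := by
    obtain ⟨m, s, p, q, hpq⟩ := hadd i
    exact proj_of_add G s p q hpq
  have h3 : PLT (Lam G) (LinearMap.range (comp G (σ i))) (B + 2) :=
    plt_equiv (LinearMap.quotKerEquivRange (comp G (σ i)))
      (plt_quot (LinearMap.ker (comp G (σ i))) h2 (plt_proj _ hE _))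
  rw [hker] at h3
  have h4 := plt_quot (LinearMap.ker (phi G i n)) h3 (plt_proj _ (proj_G G i) _)
  exact plt_equiv ((phi G i n).quotKerEquivOfSurjective hsurj) h4

theorem stmtB1 {k : Type w} [Field k] {A : Type u} [Category.{v} A] [Preadditive A] [Linear k A]
    [HasFiniteBiproducts A] : StmtB1 (k := k) (A := A) := by
  intro I _ _ G n0 hpd MM hfin hker hiso hidem
  have key : ∀ (n : ℕ) (M : A), MM M → HasProjectiveDimensionLT ((B.F G).obj M) (n + 1) →
      HasRes G n M := by
    intro n
    induction n with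
    | zero =>
      intro M hM hn
      exact B.base_case G M (B.exists_app G M (hfin M hM)) (hiso M hM) hidem
        (projective_iff_hasProjectiveDimensionLT_one.2 hn)
    | succ n ih =>
      intro M hM hn
      obtain ⟨m, s, g, hl⟩ := B.exists_app G M (hfin M hM)
      obtain ⟨K, i, w, hK, ⟨hk⟩⟩ := hker M hM m s g
      have hses := B.step_ses G i g w hk hl
      have hproj : Projective ((B.F G).obj (⨁ fun j => G (s j))) := by
        haveI := B.proj_sum G s
        exact (ModuleCat.of (Lam G) ((⨁ G) ⟶ ⨁ fun j => G (s j))).projective_of_categoryTheory_projective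
      have h1 : HasProjectiveDimensionLT ((B.F G).obj K) (n + 1) :=
        (hses.hasProjectiveDimensionLT_X₃_iff n hproj).1 hn
      exact HasRes.step n K M m s i g w ⟨hk⟩ hl (ih K hK h1)
  intro M hM
  exact key n0 M hM (hpd ((B.F G).obj M) (B.fl G M (hfin M hM)))

end R118.Spr
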