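import Pool.Agent.R118.Spr.Hull

/-!
# Decomposition of aligned convex sets into aligned spreads, lifting
-/

open CategoryTheory Limits

universe u

namespace R118.Spr

variable {k : Type u} [Field k] {T Q P : Type u} [LinearOrder T] [PartialOrder Q] [PartialOrder P]
  {e : P ≃o T × Q} {C : Finset T}

/-- removing the part generated below `C` -/
def cutLow (e : P ≃o T × Q) (C : Finset T) (S : Set P) : Set P :=
  {r | r ∈ S ∧ ∀ z ∈ S, z ≤ r → ∃ c ∈ C, c ≤ (e z).1}

lemma cutLow_conv {S : Set P} (hS : S.OrdConnected) : (cutLow e C S).OrdConnected :=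
  ⟨fun _ hp _ hr _ hx => ⟨hS.out hp.1 hr.1 hx, fun z hz hzx => hr.2 z hz (hzx.trans hx.2)⟩⟩

lemma hull_fac' {N : P ⥤ ModuleCat.{u} k} {S : Set P} (hS : S.OrdConnected)
    (hN : AlN e C N) (f : sp k S hS ⟶ N) :
    ∃ (H : Set P) (hH : H.OrdConnected) (_ : AlS e C H)
      (h : sp k S hS ⟶ sp k H hH) (g : sp k H hH ⟶ N), h ≫ g = f := by
  classical
  have hz : ∀ r ∈ S, r ∉ cutLow e C S → elt f r = 0 := by
    intro r hr hr1
    have : ∃ z ∈ S, z ≤ r ∧ ∀ c ∈ C, ¬ c ≤ (e z).1 := by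
      by_contra hcon
      push Not at hcon
      exact hr1 ⟨hr, fun z hz hzr => hcon z hz hzr⟩
    obtain ⟨z, hzS, hzr, hzl⟩ := this
    have h0 : elt f z = 0 := by
      obtain ⟨t, q, rfl⟩ := exists_pt e z
      refine hN.low t q (fun c hc h => hzl c hc ?_) _
      simpa [pt] using h
    have := map_elt f (homOfLE hzr) hzS
    rw [if_pos hr, h0, map_zero] at this
    exact this.symm
  let h : sp k S hS ⟶ sp k (cutLow e C S) (cutLow_conv hS) :=
    mkc (fun _ => 1) (fun _ _ _ _ _ _ _ => rfl)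
      (fun p q _ _ hq hq1 _ => absurd hq1.1 hq)
      (fun p q hpq hp hp1 hq hq1 => by
        exact absurd ⟨hp, fun z hz hzp => hq1.2 z hz (hzp.trans hpq)⟩ hp1)
  let f' : sp k (cutLow e C S) (cutLow_conv hS) ⟶ N := desc (fun p => elt f p)
    (fun p r hpr hp => by
      rw [map_elt f hpr hp.1]
      by_cases hr : r ∈ S
      · rw [if_pos hr]
        by_cases hr1 : r ∈ cutLow e C S
        · rw [if_pos hr1]
        · rw [if_neg hr1, hz r hr hr1]
      · rw [if_neg hr, if_neg (fun hr1 : r ∈ cutLow e C S => hr hr1.1)])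
  have hf : h ≫ f' = f := by
    refine hom_ext_elt fun p hp => ?_
    rw [elt_comp, app_eq]
    by_cases hp1 : p ∈ cutLow e C S
    · rw [elt_desc _ _ hp1]
      change cf (mkc (fun _ => 1) _ _ _) p • elt f p = _
      rw [cf_mkc _ _ _ _ hp hp1, one_smul]
    · rw [vl_notMem hp1, zero_smul, hz p hp hp1]
  obtain ⟨h2, g, hg⟩ := hull_fac (cutLow_conv hS) (fun t q ht => by
    have := ht.2 _ ht.1 le_rfl
    simpa [pt] using this) hN f'
  exact ⟨_, hull_conv (cutLow_conv hS), hull_alS _, h ≫ h2, g, by rw [Category.assoc, hg, hf]⟩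

/-- aligned spreads -/
abbrev ASp (e : P ≃o T × Q) (C : Finset T) := {S : Set P // IsSpread S ∧ AlS e C S}

lemma alS_ext {S S' : Set P} (hS : AlS e C S) (hS' : AlS e C S')
    (h : ∀ c ∈ C, ∀ q, pt e c q ∈ S ↔ pt e c q ∈ S') : S = S' := by
  ext p
  obtain ⟨t, q, rfl⟩ := exists_pt e p
  constructor
  · intro hp
    obtain ⟨c, hc, hct⟩ := exists_floor (hS.low t q hp)
    exact (hS'.same c t q hct).1 ((h c hc q).1 ((hS.same c t q hct).2 hp))
  · intro hp
    obtain ⟨c, hc, hct⟩ := exists_floor (hS'.low t q hp)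
    exact (hS.same c t q hct).1 ((h c hc q).2 ((hS'.same c t q hct).2 hp))

instance finite_ASp [Finite Q] : Finite (ASp e C) := by
  refine Finite.of_injective (β := Set (C × Q)) (fun S => {x | pt e (x.1 : T) x.2 ∈ S.1}) ?_
  intro S S' h
  refine Subtype.ext (alS_ext S.2.2 S'.2.2 fun c hc q => ?_)
  have := congrArg (fun A => (⟨c, hc⟩, q) ∈ A) h
  exact iff_of_eq this

/-- the family of aligned spread representations -/
noncomputable abbrev Gf (k : Type u) [Field k] {I : Type} (E : I ≃ ASp e C) (i : I) :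
    P ⥤ ModuleCat.{u} k := sp k (E i).1 (E i).2.1.convex

/-- zigzag relation inside `U` -/
def zz (U : Set P) (a b : P) : Prop := a ∈ U ∧ b ∈ U ∧ (a ≤ b ∨ b ≤ a)

lemma zz_mem {U : Set P} {x y : P} (hx : x ∈ U) (h : Relation.ReflTransGen (zz U) x y) :
    y ∈ U := by
  induction h with
  | refl => exact hx
  | tail _ h _ => exact h.2.1

lemma zz_symm {U : Set P} {x y : P} (h : Relation.ReflTransGen (zz U) x y) :
    Relation.ReflTransGen (zz U) y x := by
  induction h with
  | refl => exact Relation.ReflTransGen.refl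
  | tail _ h ih => exact Relation.ReflTransGen.head ⟨h.2.1, h.1, h.2.2.symm⟩ ih

/-- the component of `x` in `U` -/
def cmp (U : Set P) (x : P) : Set P := {y | Relation.ReflTransGen (zz U) x y}

lemma cmp_closed {U : Set P} {x y z : P} (hx : x ∈ U) (hy : y ∈ cmp U x) (hz : z ∈ U)
    (h : y ≤ z ∨ z ≤ y) : z ∈ cmp U x :=
  Relation.ReflTransGen.tail hy ⟨zz_mem hx hy, hz, h⟩

lemma cmp_spread {U : Set P} (hU : U.OrdConnected) {x : P} (hx : x ∈ U) :
    IsSpread (cmp U x) where
  convex := ⟨fun p hp r hr y hy => cmp_closed hx hp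
    (hU.out (zz_mem hx hp) (zz_mem hx hr) hy) (Or.inl hy.1)⟩
  nonempty := ⟨x, Relation.ReflTransGen.refl⟩
  connected a ha b hb := by
    have key : ∀ b, Relation.ReflTransGen (zz U) a b →
        Relation.ReflTransGen (fun a b => a ∈ cmp U x ∧ b ∈ cmp U x ∧ (a ≤ b ∨ b ≤ a)) a b := by
      intro b h
      induction h with
      | refl => exact Relation.ReflTransGen.refl
      | tail h1 h2 ih =>
        exact ih.tail ⟨Relation.ReflTransGen.trans ha h1,
          Relation.ReflTransGen.trans ha (h1.tail h2), h2.2.2⟩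
    exact key b ((zz_symm ha).trans hb)

lemma cmp_alS {U : Set P} (hU : AlS e C U) {x : P} (hx : x ∈ U) : AlS e C (cmp U x) where
  low t q h := hU.low t q (zz_mem hx h)
  same t t' q hs := by
    constructor
    · intro h
      exact cmp_closed hx h ((hU.same t t' q hs).1 (zz_mem hx h)) (Or.inl (hs.le e q))
    · intro h
      exact cmp_closed hx h ((hU.same t t' q hs).2 (zz_mem hx h)) (Or.inr (hs.le e q))

/-- decomposition into components -/
lemma comps {I : Type} [Fintype I] (E : I ≃ ASp e C) {U : Set P} (hU : U.OrdConnected)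
    (hA : AlS e C U) :
    ∃ (m : ℕ) (s : Fin m → I) (p : ∀ b, sp k U hU ⟶ Gf k E (s b))
      (q : ∀ b, Gf k E (s b) ⟶ sp k U hU), ∑ b, p b ≫ q b = 𝟙 (sp k U hU) := by
  classical
  let J := {i : I // (E i).1 ⊆ U ∧ ∀ x ∈ (E i).1, ∀ y ∈ U, (x ≤ y ∨ y ≤ x) → y ∈ (E i).1}
  obtain ⟨m, ⟨F⟩⟩ := Finite.exists_equiv_fin J
  let s : Fin m → I := fun b => (F.symm b).1
  have hsub : ∀ b, (E (s b)).1 ⊆ U := fun b => (F.symm b).2.1
  have hcl : ∀ b, ∀ x ∈ (E (s b)).1, ∀ y ∈ U, (x ≤ y ∨ y ≤ x) → y ∈ (E (s b)).1 :=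
    fun b => (F.symm b).2.2
  let p : ∀ b, sp k U hU ⟶ Gf k E (s b) := fun b =>
    mkc (fun _ => 1) (fun _ _ _ _ _ _ _ => rfl)
      (fun x y _ _ hy hy' _ => absurd (hsub b hy') hy)
      (fun x y hxy hx hx' _ hy' => absurd (hcl b y hy' x hx (Or.inr hxy)) hx')
  let q : ∀ b, Gf k E (s b) ⟶ sp k U hU := fun b =>
    mkc (fun _ => 1) (fun _ _ _ _ _ _ _ => rfl)
      (fun x y hxy hx hy hy' _ => absurd (hcl b x hx y hy' (Or.inl hxy)) hy)
      (fun x y _ hx hx' _ _ => absurd (hsub b hx) hx')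
  refine ⟨m, s, p, q, cf_ext fun x hx _ => ?_⟩
  rw [cf_sum, cf_id hx]
  have hi0 : (E (E.symm ⟨cmp U x, cmp_spread hU hx, cmp_alS hA hx⟩)).1 = cmp U x := by simp
  let j0 : J := ⟨E.symm ⟨cmp U x, cmp_spread hU hx, cmp_alS hA hx⟩, by
    rw [hi0]
    exact ⟨fun y hy => zz_mem hx hy, fun y hy z hz h => cmp_closed hx hy hz h⟩⟩
  have hs0 : (E (s (F j0))).1 = cmp U x := by
    have : s (F j0) = j0.1 := by simp [s]
    rw [this]
    exact hi0
  rw [Finset.sum_eq_single (F j0)]
  · have hx0 : x ∈ (E (s (F j0))).1 := by rw [hs0]; exact Relation.ReflTransGen.refl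
    rw [cf_comp, cf_mkc _ _ _ _ hx hx0, cf_mkc _ _ _ _ hx0 hx, one_mul]
  · intro b _ hb
    by_contra hne
    rw [cf_comp] at hne
    have hxb : x ∈ (E (s b)).1 := cf_right (left_ne_zero_of_mul hne)
    refine hb ?_
    -- the two components agree
    have h1 : (E (s b)).1 = cmp U x := by
      apply Set.Subset.antisymm
      · intro y hy
        have := (E (s b)).2.1.connected x hxb y hy
        clear hy
        change Relation.ReflTransGen (zz U) x y
        induction this with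
        | refl => exact Relation.ReflTransGen.refl
        | tail _ h ih => exact ih.tail ⟨hsub b h.1, hsub b h.2.1, h.2.2⟩
      · intro y hy
        change Relation.ReflTransGen (zz U) x y at hy
        induction hy with
        | refl => exact hxb
        | tail _ h ih => exact hcl b _ ih _ h.2.1 h.2.2
    have h2 : s b = s (F j0) := by
      apply E.injective
      apply Subtype.ext
      rw [h1, hs0]
    have h3 : F.symm b = F.symm (F j0) := Subtype.ext h2
    exact F.symm.injective h3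
  · intro h
    exact absurd (Finset.mem_univ _) h

/-- lifting property: if all maps from aligned spreads lift, all maps from convex sets lift -/
lemma lift_all {I : Type} [Fintype I] (E : I ≃ ASp e C) {X M : P ⥤ ModuleCat.{u} k} (g : X ⟶ M)
    (hM : AlN e C M) (hl : ∀ i (h : Gf k E i ⟶ M), ∃ h' : Gf k E i ⟶ X, h' ≫ g = h)
    {S : Set P} (hS : S.OrdConnected) (f : sp k S hS ⟶ M) : ∃ f' : sp k S hS ⟶ X, f' ≫ g = f := by
  obtain ⟨H, hH, hHA, h, f1, hf⟩ := hull_fac' hS hM f
  obtain ⟨m, s, p, q, hpq⟩ := comps (k := k) E hH hHA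
  choose φ hφ using fun b => hl (s b) (q b ≫ f1)
  refine ⟨h ≫ ∑ b, p b ≫ φ b, ?_⟩
  rw [Category.assoc, Preadditive.sum_comp]
  have : ∑ b, (p b ≫ φ b) ≫ g = f1 := by
    have h1 : ∀ b, (p b ≫ φ b) ≫ g = (p b ≫ q b) ≫ f1 := fun b => by
      rw [Category.assoc, hφ, Category.assoc]
    rw [Finset.sum_congr rfl fun b _ => h1 b, ← Preadditive.sum_comp, hpq, Category.id_comp]
  rw [this, hf]

end R118.Spr
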