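import Pool.Agent.R118.Spr.FP

/-!
# The aligned hull of a convex set
-/

open CategoryTheory Limits

universe u

namespace R118.Spr

variable {k : Type u} [Field k] {T Q P : Type u} [LinearOrder T] [PartialOrder Q] [PartialOrder P]
  {e : P ≃o T × Q} {C : Finset T}

lemma Same.refl (C : Finset T) (t : T) : Same C t t := ⟨le_rfl, fun _ _ h => h⟩

lemma Same.trans {a b c : T} (h1 : Same C a b) (h2 : Same C b c) : Same C a c :=
  ⟨h1.1.trans h2.1, fun d hd h => h1.2 d hd (h2.2 d hd h)⟩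

lemma Same.of_le {a b c : T} (h : Same C a c) (hab : a ≤ b) (hbc : b ≤ c) : Same C b c :=
  ⟨hbc, fun d hd hdc => (h.2 d hd hdc).trans hab⟩

/-- if `t ≤ s`, `Same t t'` then `Same s (max s t')` -/
lemma Same.max {t t' s : T} (h : Same C t t') (hs : t ≤ s) : Same C s (max s t') := by
  refine ⟨le_max_left _ _, fun c hc hcm => ?_⟩
  rcases le_max_iff.1 hcm with h1 | h1
  · exact h1
  · exact (h.2 c hc h1).trans hs

/-- eventually in `S` along the fibre of `t` -/
def Ev (e : P ≃o T × Q) (C : Finset T) (S : Set P) (t : T) (q : Q) (t' : T) : Prop :=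
  Same C t t' ∧ ∀ t'', Same C t' t'' → pt e t'' q ∈ S

lemma Ev.mem {S : Set P} {t : T} {q : Q} {t' : T} (h : Ev e C S t q t') : pt e t' q ∈ S :=
  h.2 t' (Same.refl C t')

lemma Ev.mono {S : Set P} {t : T} {q : Q} {t' s : T} (h : Ev e C S t q t') (hs : Same C t' s) :
    Ev e C S t q s := ⟨h.1.trans hs, fun x hx => h.2 x (hs.trans hx)⟩

/-- the hull -/
def hull (e : P ≃o T × Q) (C : Finset T) (S : Set P) : Set P :=
  {p | (∃ c ∈ C, c ≤ (e p).1) ∧ ∃ t', Ev e C S (e p).1 (e p).2 t'}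

lemma mem_hull {S : Set P} {t : T} {q : Q} :
    pt e t q ∈ hull e C S ↔ (∃ c ∈ C, c ≤ t) ∧ ∃ t', Ev e C S t q t' := by
  simp [hull, pt]

lemma hull_alS (S : Set P) : AlS e C (hull e C S) where
  low t q h := (mem_hull.1 h).1
  same t t' q hs := by
    rw [mem_hull, mem_hull]
    constructor
    · rintro ⟨⟨c, hc, hct⟩, t1, h1⟩
      refine ⟨⟨c, hc, hct.trans hs.1⟩, Max.max t' t1, ?_, fun x hx => ?_⟩
      · exact h1.1.max hs.1
      · refine h1.2 x (Same.trans ⟨le_max_right _ _, fun c hc h => ?_⟩ hx)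
        rcases le_max_iff.1 h with h | h
        · exact (hs.2 c hc h).trans h1.1.1
        · exact h
    · rintro ⟨⟨c, hc, hct⟩, t1, h1⟩
      exact ⟨⟨c, hc, hs.2 c hc hct⟩, t1, hs.trans h1.1, h1.2⟩

/-- a dichotomy: for `t ≤ s` either same fibre, or every `t'` in the fibre of `t` is `≤ s` -/
lemma same_or {t s : T} (h : t ≤ s) : Same C t s ∨ ∀ t', Same C t t' → t' ≤ s := by
  by_cases hs : Same C t s
  · exact Or.inl hs
  · right
    intro t' ht'
    by_contra hlt
    push Not at hlt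
    exact hs ⟨h, fun c hc hcs => ht'.2 c hc (hcs.trans hlt.le)⟩

lemma hull_conv {S : Set P} (hS : S.OrdConnected) : (hull e C S).OrdConnected := by
  refine ⟨fun p hp r hr x hx => ?_⟩
  obtain ⟨t, q, rfl⟩ := exists_pt e p
  obtain ⟨s, w, rfl⟩ := exists_pt e r
  obtain ⟨y, v, rfl⟩ := exists_pt e x
  rw [mem_hull] at hp hr ⊢
  obtain ⟨hty, hqv⟩ := (pt_le_pt e).1 hx.1
  obtain ⟨hys, hvw⟩ := (pt_le_pt e).1 hx.2
  obtain ⟨⟨c, hc, hct⟩, t1, ht1⟩ := hp
  obtain ⟨_, s1, hs1⟩ := hr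
  refine ⟨⟨c, hc, hct.trans hty⟩, ?_⟩
  rcases same_or (C := C) hys with h | h
  · -- same fibre
    refine ⟨Max.max (Max.max y t1) s1, ?_, fun z hz => ?_⟩
    · refine ⟨(le_max_left _ _).trans (le_max_left _ _), fun c hc hcm => ?_⟩
      rcases le_max_iff.1 hcm with h1 | h1
      · exact (ht1.1.max hty).2 c hc h1
      · exact h.2 c hc (hs1.1.2 c hc h1)
    · have h1 : t1 ≤ z := ((le_max_right _ _).trans (le_max_left _ _)).trans hz.1
      have h2 : Same C s1 z := by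
        refine ⟨(le_max_right _ _).trans hz.1, fun c hc hcz => ?_⟩
        have := hz.2 c hc hcz
        rcases le_max_iff.1 this with h3 | h3
        · exact (((ht1.1.max hty).2 c hc h3).trans hys).trans hs1.1.1
        · exact h3
      exact hS.out ht1.mem (hs1.2 z h2) ⟨(pt_le_pt e).2 ⟨h1, hqv⟩, (pt_le_pt e).2 ⟨le_rfl, hvw⟩⟩
  · refine ⟨Max.max y t1, ht1.1.max hty, fun z hz => ?_⟩
    have hyz : Same C y z := (ht1.1.max hty).trans hz
    have hzs := h z hyz
    exact hS.out ht1.mem hs1.mem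
      ⟨(pt_le_pt e).2 ⟨(le_max_right _ _).trans hz.1, hqv⟩,
        (pt_le_pt e).2 ⟨hzs.trans hs1.1.1, hvw⟩⟩

variable {N : P ⥤ ModuleCat.{u} k}

lemma map_map {A : P ⥤ ModuleCat.{u} k} {p q r : P} (h : p ≤ q) (h' : q ≤ r) (x : A.obj p) :
    A.map (homOfLE h') (A.map (homOfLE h) x) = A.map (homOfLE (h.trans h')) x := by
  have : homOfLE (h.trans h') = homOfLE h ≫ homOfLE h' := rfl
  rw [this, A.map_comp]
  rfl

lemma map_irrel {A : P ⥤ ModuleCat.{u} k} {p q : P} (h h' : p ⟶ q) (x : A.obj p) :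
    A.map h x = A.map h' x := by
  rw [Subsingleton.elim h h']

/-- nonzero value implies eventually in `S` -/
lemma ev_of_ne {S : Set P} {hS : S.OrdConnected} (hN : AlN e C N) (f : sp k S hS ⟶ N) {t : T}
    {q : Q} (hne : elt f (pt e t q) ≠ 0) : Ev e C S t q t := by
  have hp : pt e t q ∈ S := by
    by_contra h
    exact hne (elt_notMem f h)
  refine ⟨Same.refl C t, fun t' ht' => ?_⟩
  by_contra hn
  have := map_elt f (homOfLE (ht'.le e q)) hp
  rw [if_neg hn] at this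
  exact hne ((hN.same t t' q ht').1 (this.trans (map_zero _).symm))

/-- hull factorization when all the points of `S` are above `C` -/
lemma hull_fac {S : Set P} (hS : S.OrdConnected) (hlow : ∀ t q, pt e t q ∈ S → ∃ c ∈ C, c ≤ t)
    (hN : AlN e C N) (f : sp k S hS ⟶ N) :
    ∃ (h : sp k S hS ⟶ sp k (hull e C S) (hull_conv hS)) (g : sp k (hull e C S) (hull_conv hS) ⟶ N),
      h ≫ g = f := by
  classical
  -- the values
  have hex : ∀ t q, pt e t q ∈ hull e C S → ∃ n : N.obj (pt e t q), ∀ t' (h' : Ev e C S t q t'),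
      N.map (homOfLE (h'.1.le e q)) n = elt f (pt e t' q) := by
    intro t q hp
    obtain ⟨_, t1, h1⟩ := mem_hull.1 hp
    obtain ⟨n, hn⟩ := (hN.same t t1 q h1.1).2 (elt f (pt e t1 q))
    refine ⟨n, fun t' h' => ?_⟩
    rcases le_total t1 t' with hle | hle
    · have hs : Same C t1 t' := h'.1.of_le h1.1.1 hle
      have h2 := map_elt f (homOfLE (hs.le e q)) h1.mem
      rw [if_pos (h1.2 t' hs), ← hn, map_map] at h2
      exact h2
    · have hs : Same C t' t1 := h1.1.of_le h'.1.1 hle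
      have h2 := map_elt f (homOfLE (hs.le e q)) h'.mem
      rw [if_pos h1.mem, ← hn] at h2
      refine (hN.same t' t1 q hs).1 ?_
      rw [h2, map_map]
  have hex' : ∀ p, ∃ n : N.obj p, ∀ t q (hpt : pt e t q = p), p ∈ hull e C S →
      ∀ t' (h' : Ev e C S t q t'),
      N.map (homOfLE (hpt ▸ h'.1.le e q : p ≤ pt e t' q)) n = elt f (pt e t' q) := by
    intro p
    by_cases hp : p ∈ hull e C S
    · obtain ⟨t, q, rfl⟩ := exists_pt e p
      obtain ⟨n, hn⟩ := hex t q hp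
      refine ⟨n, fun t2 q2 h2 _ t' h' => ?_⟩
      have h3 : (t2, q2) = (t, q) := e.symm.injective h2
      obtain ⟨rfl, rfl⟩ := Prod.mk.inj h3
      exact hn t' h'
    · exact ⟨0, fun _ _ _ h => absurd h hp⟩
  choose n hn using hex'
  have hn' : ∀ t q, pt e t q ∈ hull e C S → ∀ t' (h' : Ev e C S t q t'),
      N.map (homOfLE (h'.1.le e q)) (n (pt e t q)) = elt f (pt e t' q) :=
    fun t q h t' h' => hn _ t q rfl h t' h'
  have hcond : ∀ (p r : P) (h : p ⟶ r), p ∈ hull e C S →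
      N.map h (n p) = if r ∈ hull e C S then n r else 0 := by
    intro p r h hp
    obtain ⟨t, q, rfl⟩ := exists_pt e p
    obtain ⟨s, w, rfl⟩ := exists_pt e r
    have hle := leOfHom h
    obtain ⟨hts, hqw⟩ := (pt_le_pt e).1 hle
    obtain ⟨⟨c, hc, hct⟩, t1, h1⟩ := mem_hull.1 hp
    by_cases hr : pt e s w ∈ hull e C S
    · rw [if_pos hr]
      obtain ⟨_, s1, hs1⟩ := mem_hull.1 hr
      -- m = max (max s t1) s1
      have hm : Same C s (Max.max (Max.max s t1) s1) := by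
        refine ⟨(le_max_left _ _).trans (le_max_left _ _), fun c hc hcm => ?_⟩
        rcases le_max_iff.1 hcm with h2 | h2
        · exact (h1.1.max hts).2 c hc h2
        · exact hs1.1.2 c hc h2
      have hm1 : Ev e C S s w (Max.max (Max.max s t1) s1) :=
        hs1.mono (hm.of_le hs1.1.1 (le_max_right _ _))
      have hle1 : pt e t1 q ≤ pt e (Max.max (Max.max s t1) s1) w :=
        (pt_le_pt e).2 ⟨(le_max_right _ _).trans (le_max_left _ _), hqw⟩
      refine (hN.same s _ w hm).1 ?_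
      rw [hn' s w hr _ hm1]
      have h3 := map_elt f (homOfLE hle1) h1.mem
      rw [if_pos hm1.mem, ← hn' t q hp t1 h1, map_map] at h3
      rw [← h3, map_irrel h (homOfLE hle), map_map]
    · rw [if_neg hr]
      have hm : Same C s (Max.max s t1) := h1.1.max hts
      have : ∃ s2, Same C (Max.max s t1) s2 ∧ pt e s2 w ∉ S := by
        by_contra hcon
        push Not at hcon
        exact hr (mem_hull.2 ⟨⟨c, hc, hct.trans hts⟩, _, hm, hcon⟩)
      obtain ⟨s2, hs2, hs2S⟩ := this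
      have hle1 : pt e t1 q ≤ pt e s2 w :=
        (pt_le_pt e).2 ⟨(le_max_right _ _).trans hs2.1, hqw⟩
      refine (hN.same s s2 w (hm.trans hs2)).1 ?_
      have h3 := map_elt f (homOfLE hle1) h1.mem
      rw [if_neg hs2S, ← hn' t q hp t1 h1, map_map] at h3
      rw [map_zero, ← h3, map_irrel h (homOfLE hle), map_map]
  refine ⟨mkc (fun _ => 1) (fun _ _ _ _ _ _ _ => rfl) ?_ ?_, desc n hcond, ?_⟩
  · intro p r hpr hp hr hrH _
    exfalso
    obtain ⟨t, q, rfl⟩ := exists_pt e p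
    obtain ⟨s, w, rfl⟩ := exists_pt e r
    obtain ⟨_, s1, hs1⟩ := mem_hull.1 hrH
    exact hr (hS.out hp hs1.mem ⟨hpr, hs1.1.le e w⟩)
  · intro p r hpr hp hpH hr hrH
    exfalso
    obtain ⟨t, q, rfl⟩ := exists_pt e p
    obtain ⟨s, w, rfl⟩ := exists_pt e r
    obtain ⟨hts, hqw⟩ := (pt_le_pt e).1 hpr
    obtain ⟨_, s1, hs1⟩ := mem_hull.1 hrH
    refine hpH (mem_hull.2 ⟨hlow t q hp, ?_⟩)
    rcases same_or (C := C) hts with h | h
    · refine ⟨s1, h.trans hs1.1, fun z hz => ?_⟩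
      exact hS.out hp (hs1.2 z hz) ⟨(pt_le_pt e).2 ⟨(h.trans hs1.1).1.trans hz.1, le_rfl⟩,
        (pt_le_pt e).2 ⟨le_rfl, hqw⟩⟩
    · refine ⟨t, Same.refl C t, fun z hz => ?_⟩
      exact hS.out hp hr ⟨(pt_le_pt e).2 ⟨hz.1, le_rfl⟩, (pt_le_pt e).2 ⟨h z hz, hqw⟩⟩
  · refine hom_ext_elt fun p hp => ?_
    obtain ⟨t, q, rfl⟩ := exists_pt e p
    rw [elt_comp, app_eq]
    by_cases hpH : pt e t q ∈ hull e C S
    · rw [elt_desc _ _ hpH]
      change cf (mkc (fun _ => 1) _ _ _) (pt e t q) • n (pt e t q) = _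
      rw [cf_mkc _ _ _ _ hp hpH, one_smul]
      obtain ⟨_, t1, h1⟩ := mem_hull.1 hpH
      refine (hN.same t t1 q h1.1).1 ?_
      rw [hn' t q hpH t1 h1, map_elt f _ hp, if_pos h1.mem]
    · rw [vl_notMem hpH, zero_smul]
      by_contra hne
      exact hpH (mem_hull.2 ⟨hlow t q hp, t, ev_of_ne hN f (Ne.symm hne)⟩)

end R118.Spr
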