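import Pool.Agent.R118.Spr.Stm2
import Pool.Agent.R118.Spr.Hull

/-!
# SPR-D (helper584): combinatorics of aligned convex sets in `T × Q`
-/

universe u

namespace R118.Spr

namespace D

variable {T Q P : Type u} [LinearOrder T] [PartialOrder Q] [PartialOrder P]

open Classical in
/-- the set containing the least element of `C` with `p` -/
noncomputable def LL (C : Finset T) (p : T → Prop) : Finset T :=
  C.filter (fun c => p c ∧ ∀ c' ∈ C, p c' → c ≤ c')

lemma mem_LL {C : Finset T} {p : T → Prop} {l : T} :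
    l ∈ LL C p ↔ l ∈ C ∧ p l ∧ ∀ c' ∈ C, p c' → l ≤ c' := by
  classical
  unfold LL
  rw [Finset.mem_filter]

lemma LL_sub (C : Finset T) (p : T → Prop) : LL C p ⊆ C := fun _ h => (mem_LL.1 h).1

lemma LL_prop {C : Finset T} {p : T → Prop} {l : T} (h : l ∈ LL C p) : p l :=
  (mem_LL.1 h).2.1

lemma LL_card (C : Finset T) (p : T → Prop) : (LL C p).card ≤ 1 := by
  rw [Finset.card_le_one]
  intro a ha b hb
  have ha' := mem_LL.1 ha
  have hb' := mem_LL.1 hb
  exact le_antisymm (ha'.2.2 b hb'.1 hb'.2.1) (hb'.2.2 a ha'.1 ha'.2.1)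

lemma LL_exists {C : Finset T} {p : T → Prop} {c : T} (hc : c ∈ C) (hp : p c) :
    ∃ l ∈ LL C p, l ≤ c := by
  classical
  have hne : (C.filter p).Nonempty := ⟨c, Finset.mem_filter.2 ⟨hc, hp⟩⟩
  refine ⟨(C.filter p).min' hne, ?_, Finset.min'_le _ _ (Finset.mem_filter.2 ⟨hc, hp⟩)⟩
  have h1 := Finset.mem_filter.1 (Finset.min'_mem (C.filter p) hne)
  exact mem_LL.2 ⟨h1.1, h1.2, fun c' hc' hp' =>
    Finset.min'_le _ _ (Finset.mem_filter.2 ⟨hc', hp'⟩)⟩

/-- existence of the small set of thresholds -/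
lemma exists_C2 {Q : Type u} [Finite Q] (C : Finset T) (p1 p2 p3 p4 : Q → T → Prop) :
    ∃ C2 : Finset T, C2 ⊆ C ∧ C2.card ≤ 4 * Nat.card Q + 1 ∧
      (∀ c ∈ C, ∃ l ∈ C2, l ≤ c) ∧
      (∀ q, ∀ c ∈ C, p1 q c → ∃ l ∈ C2, p1 q l ∧ l ≤ c) ∧
      (∀ q, ∀ c ∈ C, p2 q c → ∃ l ∈ C2, p2 q l ∧ l ≤ c) ∧
      (∀ q, ∀ c ∈ C, p3 q c → ∃ l ∈ C2, p3 q l ∧ l ≤ c) ∧
      (∀ q, ∀ c ∈ C, p4 q c → ∃ l ∈ C2, p4 q l ∧ l ≤ c) := by
  classical
  have := Fintype.ofFinite Q
  let D : Q → Finset T := fun q => (LL C (p1 q) ∪ LL C (p2 q)) ∪ (LL C (p3 q) ∪ LL C (p4 q))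
  have hD : ∀ q, (D q).card ≤ 4 := by
    intro q
    have h1 := LL_card C (p1 q)
    have h2 := LL_card C (p2 q)
    have h3 := LL_card C (p3 q)
    have h4 := LL_card C (p4 q)
    have h5 := Finset.card_union_le (LL C (p1 q) ∪ LL C (p2 q)) (LL C (p3 q) ∪ LL C (p4 q))
    have h6 := Finset.card_union_le (LL C (p1 q)) (LL C (p2 q))
    have h7 := Finset.card_union_le (LL C (p3 q)) (LL C (p4 q))
    change ((LL C (p1 q) ∪ LL C (p2 q)) ∪ (LL C (p3 q) ∪ LL C (p4 q))).card ≤ 4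
    omega
  refine ⟨LL C (fun _ => True) ∪ Finset.univ.biUnion D, ?_, ?_, ?_, ?_, ?_, ?_, ?_⟩
  · intro c hc
    rcases Finset.mem_union.1 hc with hc | hc
    · exact LL_sub _ _ hc
    · obtain ⟨q, -, hq⟩ := Finset.mem_biUnion.1 hc
      rcases Finset.mem_union.1 hq with hq | hq <;>
      rcases Finset.mem_union.1 hq with hq | hq <;> exact LL_sub _ _ hq
  · have h1 := Finset.card_union_le (LL C (fun _ => True)) (Finset.univ.biUnion D)
    have h2 := LL_card C (fun _ => True)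
    have h3 : (Finset.univ.biUnion D).card ≤ (Finset.univ : Finset Q).card * 4 :=
      Finset.card_biUnion_le_card_mul _ _ _ fun q _ => hD q
    rw [Finset.card_univ, ← Nat.card_eq_fintype_card] at h3
    omega
  · intro c hc
    obtain ⟨l, hl, hlc⟩ := LL_exists (p := fun _ => True) hc trivial
    exact ⟨l, Finset.mem_union_left _ hl, hlc⟩
  all_goals
    intro q c hc hp
    obtain ⟨l, hl, hlc⟩ := LL_exists hc hp
    refine ⟨l, Finset.mem_union_right _ (Finset.mem_biUnion.2 ⟨q, Finset.mem_univ q, ?_⟩),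
      LL_prop hl, hlc⟩
    simp only [D, Finset.mem_union]
    tauto

variable (e : P ≃o T × Q)

lemma pt_inj {t t' : T} {q q' : Q} (h : pt e t q = pt e t' q') : t = t' ∧ q = q' := by
  have h1 := e.symm.injective h
  exact ⟨congrArg Prod.fst h1, congrArg Prod.snd h1⟩

lemma grid_finite [Finite Q] (C : Finset T) :
    {z : P | ∃ c ∈ C, ∃ q, z = pt e c q}.Finite := by
  have h : ((C : Set T) ×ˢ (Set.univ : Set Q)).Finite := C.finite_toSet.prod Set.finite_univ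
  refine (h.image (fun p : T × Q => pt e p.1 p.2)).subset ?_
  rintro z ⟨c, hc, q, rfl⟩
  exact ⟨(c, q), ⟨hc, trivial⟩, rfl⟩

lemma exists_min_grid [Finite Q] (C : Finset T) (p : P → Prop)
    (h : ∃ c ∈ C, ∃ q, p (pt e c q)) :
    ∃ c ∈ C, ∃ q, p (pt e c q) ∧ ∀ c' ∈ C, ∀ q', p (pt e c' q') → c' ≤ c → q' ≤ q →
      c' = c ∧ q' = q := by
  have hfin : {z : P | (∃ c ∈ C, ∃ q, z = pt e c q) ∧ p z}.Finite :=
    (grid_finite e C).subset fun z hz => hz.1
  have hne : {z : P | (∃ c ∈ C, ∃ q, z = pt e c q) ∧ p z}.Nonempty := by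
    obtain ⟨c, hc, q, hp⟩ := h
    exact ⟨pt e c q, ⟨c, hc, q, rfl⟩, hp⟩
  obtain ⟨m, hm⟩ := hfin.exists_minimal hne
  obtain ⟨⟨c, hc, q, rfl⟩, hpm⟩ := hm.prop
  refine ⟨c, hc, q, hpm, fun c' hc' q' hp' h1 h2 => ?_⟩
  have hle : pt e c' q' ≤ pt e c q := (pt_le_pt e).2 ⟨h1, h2⟩
  have hge := hm.le_of_le ⟨⟨c', hc', q', rfl⟩, hp'⟩ hle
  exact pt_inj e (le_antisymm hle hge)

end D

open D in
theorem stmtD {T Q P : Type u} [LinearOrder T] [PartialOrder Q] [PartialOrder P] [Finite Q]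
    (e : P ≃o T × Q) (C : Finset T) : StmtD e C := by
  intro S hS hSC
  let α : Q → T → Prop := fun q c => pt e c q ∈ S
  let α' : Q → T → Prop := fun q c => ∃ c' ∈ C, c' < c ∧ pt e c' q ∈ S
  let β : Q → T → Prop := fun q c => pt e c q ∉ S ∧ ∃ c' ∈ C, c' < c ∧ pt e c' q ∈ S
  let β' : Q → T → Prop := fun q c => ∃ c' ∈ C, c' < c ∧
    (pt e c' q ∉ S ∧ ∃ c'' ∈ C, c'' < c' ∧ pt e c'' q ∈ S)
  obtain ⟨C2, hsub, hcard, K0, K1, K2, K3, K4⟩ := exists_C2 C α α' β β'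
  have hflo : ∀ {t q}, pt e t q ∈ S → ∃ c ∈ C, Same C c t ∧ pt e c q ∈ S := by
    intro t q h
    obtain ⟨c, hc, hct⟩ := exists_floor (hSC.low t q h)
    exact ⟨c, hc, hct, (hSC.same c t q hct).2 h⟩
  have hS2 : AlS e C2 S := by
    constructor
    · intro t q h
      obtain ⟨c, hc, hct⟩ := hSC.low t q h
      obtain ⟨l, hl, hlc⟩ := K0 c hc
      exact ⟨l, hl, hlc.trans hct⟩
    · intro t t' q h
      constructor
      · intro ht
        by_contra ht'
        obtain ⟨c, hc, hct, hcS⟩ := hflo ht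
        obtain ⟨c', hc', hct'⟩ := exists_floor (C := C) (t := t') ⟨c, hc, hct.1.trans h.1⟩
        have hc'S : pt e c' q ∉ S := fun hh => ht' ((hSC.same c' t' q hct').1 hh)
        have hle : c ≤ c' := hct'.2 c hc (hct.1.trans h.1)
        have hlt : c < c' := lt_of_le_of_ne hle (by rintro rfl; exact hc'S hcS)
        obtain ⟨l, hl, ⟨hl1, c'', hc'', hlt'', hS''⟩, hlc⟩ :=
          K3 q c' hc' ⟨hc'S, c, hc, hlt, hcS⟩
        have hlt : l ≤ t := h.2 l hl (hlc.trans hct'.1)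
        exact hl1 (hS.convex.out hS'' ht
          ⟨(pt_le_pt e).2 ⟨hlt''.le, le_rfl⟩, (pt_le_pt e).2 ⟨hlt, le_rfl⟩⟩)
      · intro ht'
        obtain ⟨c', hc', hct', hcS'⟩ := hflo ht'
        obtain ⟨l, hl, hl1, hlc⟩ := K1 q c' hc' hcS'
        have hlt : l ≤ t := h.2 l hl (hlc.trans hct'.1)
        exact hS.convex.out hl1 ht'
          ⟨(pt_le_pt e).2 ⟨hlt, le_rfl⟩, (pt_le_pt e).2 ⟨h.1, le_rfl⟩⟩
  refine ⟨C2, hsub, hcard, hS2, ?_, ?_⟩
  · -- F1
    rintro U ⟨hUS, hUne, hUup⟩ hUC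
    have hex : ∃ c ∈ C, ∃ q, pt e c q ∈ S ∧ pt e c q ∉ U := by
      by_contra hcon
      apply hUne
      refine Set.Subset.antisymm hUS fun y hy => ?_
      obtain ⟨t, q, rfl⟩ := exists_pt e y
      obtain ⟨c, hc, hct, hcS⟩ := hflo hy
      by_contra hyU
      exact hcon ⟨c, hc, q, hcS, fun hh => hyU ((hUC.same c t q hct).1 hh)⟩
    obtain ⟨c0, hc0, q0, ⟨hxS, hxU⟩, hmin⟩ :=
      exists_min_grid e C (fun z => z ∈ S ∧ z ∉ U) hex
    have hmin' : ∀ c ∈ C, ∀ q, pt e c q ∈ S → c ≤ c0 → q ≤ q0 → c = c0 ∧ q = q0 := by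
      intro c hc q hcS h1 h2
      refine hmin c hc q ⟨hcS, fun hh => hxU ?_⟩ h1 h2
      exact hUup _ hh _ hxS ((pt_le_pt e).2 ⟨h1, h2⟩)
    have hB : ∀ t q, pt e t q ∈ {z : P | ∃ t, Same C c0 t ∧ z = pt e t q0} ↔
        Same C c0 t ∧ q = q0 := by
      intro t q
      constructor
      · rintro ⟨t1, h1, h2⟩
        obtain ⟨rfl, rfl⟩ := pt_inj e h2
        exact ⟨h1, rfl⟩
      · rintro ⟨h1, rfl⟩
        exact ⟨t, h1, rfl⟩
    refine ⟨S \ {z | ∃ t, Same C c0 t ∧ z = pt e t q0}, ⟨?_, ?_⟩, ⟨?_, ?_, ?_⟩, ?_⟩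
    · intro t q h
      exact hS2.low t q h.1
    · intro t t' q h
      by_cases hst : pt e t q ∈ S
      · have hst' := (hS2.same t t' q h).1 hst
        have key : (Same C c0 t ∧ q = q0) ↔ (Same C c0 t' ∧ q = q0) := by
          constructor
          · rintro ⟨h1, rfl⟩
            refine ⟨⟨h1.1.trans h.1, fun d hd hdt => ?_⟩, rfl⟩
            by_contra hlt
            rw [not_le] at hlt
            obtain ⟨l, hl, ⟨c', hc', hc'l, hc'S⟩, hld⟩ := K2 q d hd ⟨c0, hc0, hlt, hxS⟩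
            have hlt2 : l ≤ c0 := h1.2 l (hsub hl) (h.2 l hl (hld.trans hdt))
            have := (hmin' c' hc' q hc'S (hc'l.le.trans hlt2) le_rfl).1
            exact absurd (this ▸ hc'l) (not_lt.2 hlt2)
          · rintro ⟨h1, rfl⟩
            obtain ⟨c, hc, hct, hcS⟩ := hflo hst
            have h2 : c0 ≤ c := by
              rcases le_total c c0 with h3 | h3
              · exact (hmin' c hc q hcS h3 le_rfl).1.ge
              · exact h3
            exact ⟨⟨h2.trans hct.1, fun d hd hdt => h1.2 d hd (hdt.trans h.1)⟩, rfl⟩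
        constructor
        · rintro ⟨-, h2⟩
          refine ⟨hst', fun h3 => h2 ?_⟩
          rw [hB] at h3 ⊢
          exact key.2 h3
        · rintro ⟨-, h2⟩
          refine ⟨hst, fun h3 => h2 ?_⟩
          rw [hB] at h3 ⊢
          exact key.1 h3
      · have hst' : pt e t' q ∉ S := fun hh => hst ((hS2.same t t' q h).2 hh)
        exact ⟨fun hh => absurd hh.1 hst, fun hh => absurd hh.1 hst'⟩
    · exact Set.sdiff_subset
    · intro heq
      have : pt e c0 q0 ∈ S \ {z | ∃ t, Same C c0 t ∧ z = pt e t q0} := by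
        rw [heq]; exact hxS
      exact this.2 ⟨c0, Same.refl C c0, rfl⟩
    · rintro y ⟨hyS, hyB⟩ z hz hyz
      refine ⟨hz, fun hzB => hyB ?_⟩
      obtain ⟨t, hct, rfl⟩ := hzB
      obtain ⟨t1, q1, rfl⟩ := exists_pt e y
      obtain ⟨ht1, hq1⟩ := (pt_le_pt e).1 hyz
      obtain ⟨c1, hc1, hct1, hcS1⟩ := hflo hyS
      have h1 : c1 ≤ c0 := hct.2 c1 hc1 (hct1.1.trans ht1)
      obtain ⟨rfl, rfl⟩ := hmin' c1 hc1 q1 hcS1 h1 hq1
      exact ⟨t1, hct1, rfl⟩
    · intro y hy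
      refine ⟨hUS hy, ?_⟩
      rintro ⟨t, hct, rfl⟩
      exact hxU ((hUC.same c0 t q0 hct).2 hy)
  · -- F2
    intro S' hS' hSC' hSS' hne hdown
    have hstep : ∃ a ∈ S, ∃ b ∈ S', b ∉ S ∧ a ≤ b := by
      obtain ⟨s0, hs0⟩ := hS.nonempty
      obtain ⟨s1, hs1, hs1'⟩ : ∃ s1 ∈ S', s1 ∉ S := by
        by_contra hcon
        push Not at hcon
        exact hne (Set.Subset.antisymm hSS' hcon)
      by_contra hcon
      have hpath := hS'.connected s0 (hSS' hs0) s1 hs1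
      have : s1 ∈ S := by
        clear hs1'
        induction hpath with
        | refl => exact hs0
        | tail h1 h2 ih =>
          rename_i b c
          have hb : b ∈ S := ih h2.1
          rcases h2.2.2 with h3 | h3
          · by_contra hc
            exact hcon ⟨b, hb, c, h2.2.1, hc, h3⟩
          · exact hdown b hb c h2.2.1 h3
      exact hs1' this
    obtain ⟨a, haS, b, hbS', hbS, hab⟩ := hstep
    obtain ⟨ta, qa, rfl⟩ := exists_pt e a
    obtain ⟨tb, qb, rfl⟩ := exists_pt e b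
    obtain ⟨htab, hqab⟩ := (pt_le_pt e).1 hab
    obtain ⟨ca, hca, hcta, hcSa⟩ := hflo haS
    obtain ⟨cb, hcb, hctb⟩ := exists_floor (hSC'.low tb qb hbS')
    have hcab : ca ≤ cb := hctb.2 ca hca (hcta.1.trans htab)
    have hz0S' : pt e cb qb ∈ S' := (hSC'.same cb tb qb hctb).2 hbS'
    have hz0S : pt e cb qb ∉ S := fun hh => hbS ((hSC.same cb tb qb hctb).1 hh)
    obtain ⟨c0, hc0, q0, ⟨hxS, hxz0, ⟨s1, hs1, hs1x⟩⟩, hmin⟩ :=
      exists_min_grid e C (fun z => z ∉ S ∧ z ≤ pt e cb qb ∧ ∃ s ∈ S, s ≤ z)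
        ⟨cb, hcb, qb, hz0S, le_rfl, pt e ca qa, hcSa, (pt_le_pt e).2 ⟨hcab, hqab⟩⟩
    have hxS' : pt e c0 q0 ∈ S' := hS'.convex.out (hSS' hs1) hz0S' ⟨hs1x, hxz0⟩
    have hmin' : ∀ c ∈ C, ∀ q, c ≤ c0 → q ≤ q0 → (∃ s ∈ S, s ≤ pt e c q) →
        pt e c q ∉ S → c = c0 ∧ q = q0 := by
      intro c hc q h1 h2 h3 h4
      exact hmin c hc q ⟨h4, ((pt_le_pt e).2 ⟨h1, h2⟩).trans hxz0, h3⟩ h1 h2
    have hx3 : ¬ ∃ s ∈ S, pt e c0 q0 ≤ s := by
      rintro ⟨s, hs, hxs⟩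
      exact hxS (hS.convex.out hs1 hs ⟨hs1x, hxs⟩)
    -- the second part
    let E : Set P := {y | (∃ c ∈ C, c ≤ (e y).1) ∧
      (∃ t2, Same C c0 t2 ∧ y ≤ pt e t2 q0) ∧ ¬ ∃ s ∈ S, y ≤ s}
    have hEpt : ∀ t q, pt e t q ∈ E ↔ (∃ c ∈ C, c ≤ t) ∧
      (∃ t2, Same C c0 t2 ∧ pt e t q ≤ pt e t2 q0) ∧ ¬ ∃ s ∈ S, pt e t q ≤ s := by
      intro t q
      have h1 : (e (pt e t q)).1 = t := by simp [pt]
      change ((∃ c ∈ C, c ≤ (e (pt e t q)).1) ∧ _ ∧ _) ↔ _
      rw [h1]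
    have hWd : ∀ y ∈ S ∪ E, ∀ s ∈ S, y ≤ s → y ∈ S := by
      rintro y (hy | hy) s hs hys
      · exact hy
      · exact absurd ⟨s, hs, hys⟩ hy.2.2
    have hxE : pt e c0 q0 ∈ E :=
      (hEpt c0 q0).2 ⟨⟨c0, hc0, le_rfl⟩, ⟨c0, Same.refl C c0, le_rfl⟩, hx3⟩
    have hWlow : ∀ y ∈ S ∪ E, ∃ c ∈ C, c ≤ (e y).1 := by
      rintro y (hy | hy)
      · have h1 : pt e (e y).1 (e y).2 = y := by simp [pt]
        rw [← h1] at hy
        exact hSC.low _ _ hy
      · exact hy.1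
    refine ⟨S ∪ E, ⟨?_⟩, ⟨?_, ?_⟩, ⟨?_, ?_, ?_⟩, ?_, ?_⟩
    · -- order connected
      rintro a ha c' hc' b ⟨hab', hbc'⟩
      by_cases hb : b ∈ S
      · exact Or.inl hb
      · right
        have hc'E : c' ∈ E := by
          rcases hc' with hc' | hc'
          · have haS' := hWd a ha c' hc' (hab'.trans hbc')
            exact absurd (hS.convex.out haS' hc' ⟨hab', hbc'⟩) hb
          · exact hc'
        obtain ⟨h1, ⟨t2, h2, h2'⟩, h3⟩ := hc'E
        refine ⟨?_, ⟨t2, h2, hbc'.trans h2'⟩, ?_⟩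
        · obtain ⟨c, hc, hca'⟩ := hWlow a ha
          exact ⟨c, hc, hca'.trans (Prod.le_def.1 (e.monotone hab')).1⟩
        · rintro ⟨s, hs, hbs⟩
          have haS' := hWd a ha s hs (hab'.trans hbs)
          exact hb (hS.convex.out haS' hs ⟨hab', hbs⟩)
    · -- low
      intro t q h
      have h1 : (e (pt e t q)).1 = t := by simp [pt]
      obtain ⟨c, hc, hct⟩ := hWlow _ h
      rw [h1] at hct
      obtain ⟨l, hl, hlc⟩ := K0 c hc
      exact ⟨l, hl, hlc.trans hct⟩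
    · -- same
      intro t t' q h
      have hSiff := hS2.same t t' q h
      have hEiff : pt e t q ∈ E ↔ pt e t' q ∈ E := by
        rw [hEpt, hEpt]
        refine and_congr ?_ (and_congr ?_ (not_congr ?_))
        · constructor
          · rintro ⟨c, hc, hct⟩
            exact ⟨c, hc, hct.trans h.1⟩
          · rintro ⟨c, hc, hct⟩
            obtain ⟨l, hl, hlc⟩ := K0 c hc
            exact ⟨l, hsub hl, h.2 l hl (hlc.trans hct)⟩
        · constructor
          · rintro ⟨t2, h2, h2'⟩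
            obtain ⟨htt2, hqq0⟩ := (pt_le_pt e).1 h2'
            by_cases ht' : t' ≤ t2
            · exact ⟨t2, h2, (pt_le_pt e).2 ⟨ht', hqq0⟩⟩
            · rw [not_le] at ht'
              refine ⟨t', ⟨h2.1.trans ht'.le, fun d hd hdt => ?_⟩, (pt_le_pt e).2 ⟨le_rfl, hqq0⟩⟩
              by_contra hlt
              rw [not_le] at hlt
              by_cases hI : ∃ c1 ∈ C, c1 < c0 ∧ ∃ q1 ≤ q0, pt e c1 q1 ∈ S
              · obtain ⟨c1, hc1, hc10, q1, hq1, hS1⟩ := hI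
                have hS10 : pt e c1 q0 ∈ S := by
                  by_contra hn
                  exact absurd (hmin' c1 hc1 q0 hc10.le le_rfl
                    ⟨pt e c1 q1, hS1, (pt_le_pt e).2 ⟨le_rfl, hq1⟩⟩ hn).1 hc10.ne
                obtain ⟨l, hl, ⟨c', hc', hc'l, hc'S, c'', hc'', hc''l, hc''S⟩, hld⟩ :=
                  K4 q0 d hd ⟨c0, hc0, hlt, hxS, c1, hc1, hc10, hS10⟩
                have hl0 : l ≤ c0 := h2.2 l (hsub hl) ((h.2 l hl (hld.trans hdt)).trans htt2)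
                have := (hmin' c' hc' q0 (hc'l.le.trans hl0) le_rfl
                  ⟨pt e c'' q0, hc''S, (pt_le_pt e).2 ⟨hc''l.le, le_rfl⟩⟩ hc'S).1
                exact absurd (this ▸ hc'l) (not_lt.2 hl0)
              · obtain ⟨ts, qs, rfl⟩ := exists_pt e s1
                obtain ⟨hts, hqs⟩ := (pt_le_pt e).1 hs1x
                obtain ⟨c1, hc1, hct1, hcS1⟩ := hflo hs1
                have hc10 : c1 = c0 := by
                  rcases lt_or_eq_of_le (hct1.1.trans hts) with h3 | h3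
                  · exact absurd ⟨c1, hc1, h3, qs, hqs, hcS1⟩ hI
                  · exact h3
                subst hc10
                obtain ⟨l, hl, ⟨c', hc', hc'l, hc'S⟩, hld⟩ :=
                  K2 qs d hd ⟨c1, hc1, hlt, hcS1⟩
                have hl0 : l ≤ c1 := h2.2 l (hsub hl) ((h.2 l hl (hld.trans hdt)).trans htt2)
                exact hI ⟨c', hc', lt_of_lt_of_le hc'l hl0, qs, hqs, hc'S⟩
          · rintro ⟨t2, h2, h2'⟩
            exact ⟨t2, h2, ((pt_le_pt e).2 ⟨h.1, le_rfl⟩).trans h2'⟩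
        · constructor
          · rintro ⟨s, hs, hts⟩
            obtain ⟨t1, q1, rfl⟩ := exists_pt e s
            obtain ⟨ht1, hq1⟩ := (pt_le_pt e).1 hts
            by_cases ht' : t' ≤ t1
            · exact ⟨_, hs, (pt_le_pt e).2 ⟨ht', hq1⟩⟩
            · rw [not_le] at ht'
              refine ⟨pt e t' q1, (hS2.same t1 t' q1 (h.of_le ht1 ht'.le)).1 hs,
                (pt_le_pt e).2 ⟨le_rfl, hq1⟩⟩
          · rintro ⟨s, hs, hts⟩
            exact ⟨s, hs, ((pt_le_pt e).2 ⟨h.1, le_rfl⟩).trans hts⟩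
      exact or_congr hSiff hEiff
    · exact Set.subset_union_left
    · intro x hx y hy hyx
      exact hWd y hy x hx hyx
    · exact ⟨s1, hs1, pt e c0 q0, Or.inr hxE, hxS, hs1x⟩
    · intro x hx hxW y hy hyx
      by_cases hyS : y ∈ S
      · exact Or.inl hyS
      · right
        have hxE' : x ∈ E := by
          rcases hxW with hxW | hxW
          · exact absurd (hdown x hxW y hy hyx) hyS
          · exact hxW
        obtain ⟨h1, ⟨t2, h2, h2'⟩, h3⟩ := hxE'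
        refine ⟨?_, ⟨t2, h2, hyx.trans h2'⟩, ?_⟩
        · have h1 : pt e (e y).1 (e y).2 = y := by simp [pt]
          rw [← h1] at hy
          exact hSC'.low _ _ hy
        · rintro ⟨s, hs, hys⟩
          exact hyS (hdown s hs y hy hys)
    · intro x hx hxW y hyW hxy
      rcases hyW with hyS | hyE
      · exact hSS' hyS
      · obtain ⟨h1, ⟨t2, h2, h2'⟩, h3⟩ := hyE
        exact hS'.convex.out hx ((hSC'.same c0 t2 q0 h2).1 hxS') ⟨hxy, h2'⟩

end R118.Spr
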