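import Mathlib

/-!
# Representations of posets, spread representations, finite spread-resolutions (definitions)
-/

open CategoryTheory Limits

universe u

namespace R118.Spr

set_option linter.unusedSectionVars false

section

variable (k : Type u) [Field k] {P : Type u} [PartialOrder P]

instance instHFB : HasFiniteBiproducts (P ⥤ ModuleCat.{u} k) :=
  HasFiniteBiproducts.of_hasFiniteProducts

/-- The subspace `{x ∈ k | p ∉ S → x = 0}` of `k`, that is `k` if `p ∈ S` and `0` otherwise. -/
def fib (S : Set P) (p : P) : Submodule k k where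
  carrier := {x : k | p ∉ S → x = 0}
  add_mem' := fun {a b} ha hb h => by rw [ha h, hb h, add_zero]
  zero_mem' := fun _ => rfl
  smul_mem' := fun c x hx h => by rw [hx h, smul_zero]

open scoped Classical in
/-- The map `fib k S p → fib k S q` which is the identity of `k` if `q ∈ S` and zero otherwise. -/
noncomputable def fibFun (S : Set P) (p q : P) (x : fib k S p) : fib k S q :=
  ⟨if q ∈ S then x.1 else 0, fun h => if_neg h⟩

lemma fibFun_add (S : Set P) (p q : P) (x y : fib k S p) :
    fibFun k S p q (x + y) = fibFun k S p q x + fibFun k S p q y := Subtype.ext (by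
  by_cases hq : q ∈ S <;> simp [hq, fibFun])

lemma fibFun_smul (S : Set P) (p q : P) (c : k) (x : fib k S p) :
    fibFun k S p q (c • x) = (RingHom.id k) c • fibFun k S p q x := Subtype.ext (by
  by_cases hq : q ∈ S <;> simp [hq, fibFun])

/-- `fibFun` as a linear map. -/
noncomputable def fibMap (S : Set P) (p q : P) : fib k S p →ₗ[k] fib k S q where
  toFun := fibFun k S p q
  map_add' := fibFun_add k S p q
  map_smul' := fibFun_smul k S p q

lemma fibMap_id (S : Set P) (p : P) : ModuleCat.ofHom (fibMap k S p p) = 𝟙 _ := by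
  ext x
  have hx : p ∉ S → x.1 = 0 := x.2
  by_cases hp : p ∈ S
  · simp [hp, fibMap, fibFun]
  · simp [hp, fibMap, fibFun, hx hp]

lemma fibMap_comp (S : Set P) (hS : S.OrdConnected) {p q r : P} (f : p ⟶ q) (g : q ⟶ r) :
    ModuleCat.ofHom (fibMap k S p r) =
      ModuleCat.ofHom (fibMap k S p q) ≫ ModuleCat.ofHom (fibMap k S q r) := by
  ext x
  have hx : p ∉ S → x.1 = 0 := x.2
  by_cases hr : r ∈ S
  · by_cases hq : q ∈ S
    · simp [hr, hq, fibMap, fibFun]
    · have hp : p ∉ S := fun hp => hq (hS.out hp hr ⟨leOfHom f, leOfHom g⟩)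
      simp [hr, hq, hx hp, fibMap, fibFun]
  · simp [hr, fibMap, fibFun]

/-- The spread representation of the convex set `S`: it is `k` on `S` and `0` elsewhere, with
identity maps wherever they are not forced to be zero. -/
noncomputable def sp (S : Set P) (hS : S.OrdConnected) : P ⥤ ModuleCat.{u} k where
  obj p := ModuleCat.of k (fib k S p)
  map {p q} _ := ModuleCat.ofHom (fibMap k S p q)
  map_id p := fibMap_id k S p
  map_comp f g := fibMap_comp k S hS f g

/-- A spread: a nonempty convex set any two elements of which are joined by a zigzag inside it. -/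
structure IsSpread (S : Set P) : Prop where
  convex : S.OrdConnected
  nonempty : S.Nonempty
  connected : ∀ x ∈ S, ∀ y ∈ S,
    Relation.ReflTransGen (fun a b => a ∈ S ∧ b ∈ S ∧ (a ≤ b ∨ b ≤ a)) x y

/-- A finite direct sum of spread representations. -/
def IsSpreadSum (M : P ⥤ ModuleCat.{u} k) : Prop :=
  ∃ (m : ℕ) (S : Fin m → Set P) (hS : ∀ i, IsSpread (S i)),
    Nonempty (M ≅ ⨁ fun i => sp k (S i) (hS i).convex)

variable {k} in
/-- The sequence `X ⟶ Y ⟶ Z` is exact at every vertex. -/
def ExactAt {X Y Z : P ⥤ ModuleCat.{u} k} (f : X ⟶ Y) (g : Y ⟶ Z) : Prop :=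
  ∀ p, Function.Exact (f.app p) (g.app p)

variable {k} in
/-- The map `X ⟶ Y` is surjective at every vertex. -/
def SurjAt {X Y : P ⥤ ModuleCat.{u} k} (f : X ⟶ Y) : Prop :=
  ∀ p, Function.Surjective (f.app p)

/-- The finite direct sum of the representables `k_{↑(a i)}`. -/
noncomputable def reps {m : ℕ} (a : Fin m → P) : P ⥤ ModuleCat.{u} k :=
  ⨁ fun i => sp k (Set.Ici (a i)) Set.ordConnected_Ici

/-- Finitely presented representations: cokernels of maps between finite direct sums of
representables `k_{↑p}` (given by a presentation `Y₁ ⟶ Y₀ ⟶ M ⟶ 0`, exact at every vertex). -/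
def IsFP (M : P ⥤ ModuleCat.{u} k) : Prop :=
  ∃ (m n : ℕ) (a : Fin m → P) (b : Fin n → P) (f : reps k b ⟶ reps k a) (g : reps k a ⟶ M),
    ExactAt f g ∧ SurjAt g

variable {k} in
/-- The sequence `X ⟶ Y ⟶ Z` is exact under `Hom (k_S, -)` for every spread `S`. -/
def HomExact {X Y Z : P ⥤ ModuleCat.{u} k} (f : X ⟶ Y) (g : Y ⟶ Z) : Prop :=
  ∀ (S : Set P) (hS : IsSpread S), Function.Exact
    (fun h : sp k S hS.convex ⟶ X => h ≫ f) (fun h : sp k S hS.convex ⟶ Y => h ≫ g)

variable {k} in
/-- The map `X ⟶ Y` is surjective under `Hom (k_S, -)` for every spread `S`. -/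
def HomSurj {X Y : P ⥤ ModuleCat.{u} k} (f : X ⟶ Y) : Prop :=
  ∀ (S : Set P) (hS : IsSpread S), Function.Surjective
    (fun h : sp k S hS.convex ⟶ X => h ≫ f)

/-- A finite spread-resolution `0 ⟶ X n ⟶ ⋯ ⟶ X 0 ⟶ M ⟶ 0` in the category of finitely
presented representations (`X i = 0` for `i > n`): every `X i` is finitely presented and a finite
direct sum of spread representations, the sequence is exact, and it stays exact under
`Hom (k_S, -)` for every spread `S`. -/
structure SpreadResolution (M : P ⥤ ModuleCat.{u} k) (n : ℕ) where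
  X : ℕ → (P ⥤ ModuleCat.{u} k)
  d : ∀ i, X (i + 1) ⟶ X i
  ε : X 0 ⟶ M
  isSum : ∀ i, IsSpreadSum k (X i)
  isFP : ∀ i, IsFP k (X i)
  isZero : ∀ i, n < i → IsZero (X i)
  exact : ∀ i, ExactAt (d (i + 1)) (d i)
  exact₀ : ExactAt (d 0) ε
  surj : SurjAt ε
  hom_exact : ∀ i, HomExact (d (i + 1)) (d i)
  hom_exact₀ : HomExact (d 0) ε
  hom_surj : HomSurj ε

end

end R118.Spr
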