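import Pool.Agent.R118.Spr.Align

/-!
# Finitely presented representations are the aligned ones
-/

open CategoryTheory Limits

universe u

namespace R118.Spr

section general
variable {k : Type u} [Field k] {P : Type u} [PartialOrder P]

open scoped Classical in
/-- the morphism from the representable at `r` given by an element of `N r` -/
noncomputable def yon {N : P ⥤ ModuleCat.{u} k} (r : P) (y : N.obj r) :
    sp k (Set.Ici r) Set.ordConnected_Ici ⟶ N :=
  desc (fun p => if h : r ≤ p then N.map (homOfLE h) y else 0) (fun p q h hp => by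
    have hp' : r ≤ p := hp
    have hq' : r ≤ q := hp'.trans (leOfHom h)
    rw [dif_pos hp', dif_pos hq', if_pos (show q ∈ Set.Ici r from hq')]
    rw [← comp_apply', ← N.map_comp]
    rfl)
where
  comp_apply' {A B D : ModuleCat.{u} k} (f : A ⟶ B) (g : B ⟶ D) (x : A) :
    (f ≫ g) x = g (f x) := rfl

lemma elt_yon {N : P ⥤ ModuleCat.{u} k} (r : P) (y : N.obj r) : elt (yon r y) r = y := by
  rw [yon, elt_desc _ _ (show r ∈ Set.Ici r from le_refl r), dif_pos (le_refl r)]
  have : homOfLE (le_refl r) = 𝟙 r := rfl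
  rw [this, N.map_id]
  rfl

lemma yon_ext {N : P ⥤ ModuleCat.{u} k} {r : P}
    {f g : sp k (Set.Ici r) Set.ordConnected_Ici ⟶ N} (h : elt f r = elt g r) : f = g := by
  refine hom_ext_elt fun p hp => ?_
  have h1 := map_elt f (homOfLE (show r ≤ p from hp)) (show r ∈ Set.Ici r from le_refl r)
  have h2 := map_elt g (homOfLE (show r ≤ p from hp)) (show r ∈ Set.Ici r from le_refl r)
  rw [if_pos hp] at h1 h2
  rw [← h1, ← h2, h]

lemma isSpread_Ici (r : P) : IsSpread (Set.Ici r) where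
  convex := Set.ordConnected_Ici
  nonempty := ⟨r, le_refl r⟩
  connected _ hx _ hy :=
    (Relation.ReflTransGen.single ⟨hx, le_refl r, Or.inr hx⟩).trans
      (Relation.ReflTransGen.single ⟨le_refl r, hy, Or.inl hy⟩)

end general

section aligned
variable {k : Type u} [Field k] {T Q P : Type u} [LinearOrder T] [PartialOrder Q] [PartialOrder P]
  {e : P ≃o T × Q} {C : Finset T}

lemma alS_Ici {c : T} (hc : c ∈ C) (q : Q) : AlS e C (Set.Ici (pt e c q)) where
  low t _ h := ⟨c, hc, ((pt_le_pt e).1 h).1⟩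
  same t t' q' hs := by
    rw [Set.mem_Ici, Set.mem_Ici, pt_le_pt, pt_le_pt]
    exact ⟨fun h => ⟨h.1.trans hs.1, h.2⟩, fun h => ⟨hs.2 c hc h.1, h.2⟩⟩

/-- finitely presented implies aligned for some `C` -/
lemma IsFP.aligned {M : P ⥤ ModuleCat.{u} k} (h : IsFP k M) (e : P ≃o T × Q) :
    ∃ C : Finset T, AlN e C M := by
  classical
  obtain ⟨m, n, a, b, f, g, hfg⟩ := h
  refine ⟨Finset.univ.image (fun i => (e (a i)).1) ∪ Finset.univ.image (fun i => (e (b i)).1), ?_⟩
  refine AlN.quot f g (AlN.biprod fun j => ?_) (AlN.biprod fun j => ?_)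
    (fun p => ⟨hfg.1 p, hfg.2 p⟩)
  · refine AlS.alN _ ?_
    have : b j = pt e (e (b j)).1 (e (b j)).2 := by simp [pt]
    rw [this]
    exact alS_Ici (by simp) _
  · refine AlS.alN _ ?_
    have : a j = pt e (e (a j)).1 (e (a j)).2 := by simp [pt]
    rw [this]
    exact alS_Ici (by simp) _

/-- an aligned representation is a quotient of a finite sum of representables -/
lemma AlN.cover [Finite Q] {N : P ⥤ ModuleCat.{u} k} (hN : AlN e C N) :
    ∃ (m : ℕ) (a : Fin m → P) (_ : ∀ i, AlS e C (Set.Ici (a i)))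
      (g : (⨁ fun i => sp k (Set.Ici (a i)) Set.ordConnected_Ici) ⟶ N),
      ∀ p, Function.Surjective (g.app p) := by
  classical
  have hfin := fun p => hN.fin p
  choose n s hs using fun x : C × Q =>
    (Module.Finite.exists_fin (R := k) (M := N.obj (pt e (x.1 : T) x.2)))
  let J := Σ x : C × Q, Fin (n x)
  obtain ⟨m, ⟨E⟩⟩ := Finite.exists_equiv_fin J
  let a : Fin m → P := fun i => pt e ((E.symm i).1.1 : T) (E.symm i).1.2
  let φ : ∀ i, sp k (Set.Ici (a i)) Set.ordConnected_Ici ⟶ N :=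
    fun i => yon (a i) (s (E.symm i).1 (E.symm i).2)
  refine ⟨m, a, fun i => alS_Ici (E.symm i).1.1.2 _, biproduct.desc φ, ?_⟩
  -- surjectivity on the grid
  have hgrid : ∀ (c : C) (q : Q), Function.Surjective ((biproduct.desc φ).app (pt e (c : T) q)) := by
    intro c q
    have hr : LinearMap.range ((biproduct.desc φ).app (pt e (c : T) q)).hom = ⊤ := by
      rw [eq_top_iff, ← hs (c, q), Submodule.span_le]
      rintro _ ⟨j, rfl⟩
      have key : ∀ (i : Fin m) (j' : J), E.symm i = j' →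
          ∃ z, ((biproduct.desc φ).app (pt e (j'.1.1 : T) j'.1.2)) z = s j'.1 j'.2 := by
        rintro i _ rfl
        refine ⟨(biproduct.ι (fun i => sp k (Set.Ici (a i)) Set.ordConnected_Ici) i).app (a i)
          (one _ _ (a i)), ?_⟩
        change (biproduct.desc φ).app (a i)
          ((biproduct.ι (fun i => sp k (Set.Ici (a i)) Set.ordConnected_Ici) i).app (a i)
          (one _ _ (a i))) = _
        rw [← comp_app_apply, biproduct.ι_desc]
        exact elt_yon (a i) _
      obtain ⟨z, hz⟩ := key (E ⟨(c, q), j⟩) ⟨(c, q), j⟩ (E.symm_apply_apply _)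
      exact ⟨z, hz⟩
    exact LinearMap.range_eq_top.1 hr
  intro p x
  obtain ⟨t, q, rfl⟩ := exists_pt e p
  by_cases hc : ∃ c ∈ C, c ≤ t
  · obtain ⟨c, hcC, hct⟩ := exists_floor hc
    obtain ⟨y, rfl⟩ := (hN.same c t q hct).2 x
    obtain ⟨z, rfl⟩ := hgrid ⟨c, hcC⟩ q y
    exact ⟨_, nat_apply _ (homOfLE (hct.le e q)) z⟩
  · refine ⟨0, ?_⟩
    rw [map_zero, hN.low t q (fun c hc' h => hc ⟨c, hc', h⟩) x]

lemma AlN.isFP [Finite Q] {N : P ⥤ ModuleCat.{u} k} (hN : AlN e C N) : IsFP k N := by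
  obtain ⟨m, a, ha, g, hg⟩ := hN.cover
  have hK : AlN e C (kerRep g) := AlN.ker g (AlN.biprod fun i => (ha i).alN _) hN
  obtain ⟨n, b, hb, f, hf⟩ := hK.cover
  refine ⟨m, n, a, b, f ≫ kerι g, g, fun p x => ⟨fun hx => ?_, ?_⟩, hg⟩
  · obtain ⟨y, rfl⟩ := ker_exists g hx
    obtain ⟨z, rfl⟩ := hf p y
    exact ⟨z, rfl⟩
  · rintro ⟨z, rfl⟩
    exact (f.app p z).2

end aligned

end R118.Spr
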