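import Pool.Agent.R118.Spr.Rank
import Pool.Agent.R118.Spr.B

/-!
# Finite spread-resolutions over `T × Q`
-/

open CategoryTheory Limits

universe u

namespace R118.Spr

set_option linter.unusedSectionVars false

variable {k : Type u} [Field k] {T Q P : Type u} [LinearOrder T] [PartialOrder Q] [PartialOrder P]
  {e : P ≃o T × Q} {C : Finset T} {I : Type} [Fintype I] {E : I ≃ ASp e C}

/-- an idempotent of a sum of aligned spreads has an invertible entry -/
lemma idem_entry (m : ℕ) (s : Fin m → I)
    (f : (⨁ fun j => Gf k E (s j)) ⟶ ⨁ fun j => Gf k E (s j)) (hf : f ≫ f = f) (hne : f ≠ 0) :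
    ∃ (a b : Fin m) (hab : s a = s b) (c : k), c ≠ 0 ∧
        biproduct.ι (fun j => Gf k E (s j)) a ≫ f ≫ biproduct.π (fun j => Gf k E (s j)) b =
          c • eqToHom (congrArg (Gf k E) hab) := by
  classical
  let ent : ∀ a b : Fin m, Gf k E (s a) ⟶ Gf k E (s b) := fun a b =>
    biproduct.ι (fun j => Gf k E (s j)) a ≫ f ≫ biproduct.π (fun j => Gf k E (s j)) b
  have hent : ∀ a b, ent a b = ∑ c, ent a c ≫ ent c b := by
    intro a b
    have h1 : ent a b = biproduct.ι (fun j => Gf k E (s j)) a ≫ f ≫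
        (∑ c, biproduct.π (fun j => Gf k E (s j)) c ≫ biproduct.ι (fun j => Gf k E (s j)) c) ≫ f ≫
          biproduct.π (fun j => Gf k E (s j)) b := by
      rw [biproduct.total, Category.id_comp]
      change _ ≫ f ≫ _ = _
      conv_lhs => rw [← hf]
      simp only [Category.assoc]
    rw [h1]
    simp only [Preadditive.sum_comp, Preadditive.comp_sum, Category.assoc, ent]
  by_cases hcase : ∃ a b, s a = s b ∧ ent a b ≠ 0
  · obtain ⟨a, b, hab, hne'⟩ := hcase
    obtain ⟨c, hc⟩ := end_scalar (E (s a)).2.1 (ent a b ≫ eqToHom (congrArg (Gf k E) hab.symm))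
    have h2 : ent a b = c • eqToHom (congrArg (Gf k E) hab) := by
      have h3 : ent a b = (ent a b ≫ eqToHom (congrArg (Gf k E) hab.symm)) ≫
          eqToHom (congrArg (Gf k E) hab) := by
        rw [Category.assoc, eqToHom_trans, eqToHom_refl, Category.comp_id]
      rw [h3, hc, Linear.smul_comp, Category.id_comp]
    refine ⟨a, b, hab, c, fun h0 => hne' ?_, h2⟩
    rw [h2, h0, zero_smul]
  · exfalso
    push Not at hcase
    -- nonzero entries strictly increase the height
    have key : ∀ (p : P) (n : ℕ) (a b : Fin m), hgt k E p (s b) < hgt k E p (s a) + n →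
        cf (ent a b) p = 0 := by
      intro p n
      induction n with
      | zero =>
        intro a b hlt
        by_contra hc
        have hab : s a ≠ s b := fun h => hc (by rw [hcase a b h]; exact cf_zero_hom p)
        have := RR.hgt_lt (k := k) (E := E) ⟨ent a b, hc⟩ hab
        omega
      | succ n ih =>
        intro a b hlt
        rw [hent a b, cf_sum]
        refine Finset.sum_eq_zero fun c _ => ?_
        rw [cf_comp]
        by_cases hc : cf (ent a c) p = 0
        · rw [hc, zero_mul]
        · have hac : s a ≠ s c := fun h => hc (by rw [hcase a c h]; exact cf_zero_hom p)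
          have := RR.hgt_lt (k := k) (E := E) ⟨ent a c, hc⟩ hac
          rw [ih c b (by omega), mul_zero]
    have hz : ∀ a b, ent a b = 0 := by
      intro a b
      refine cf_ext fun p _ _ => ?_
      rw [key p (hgt k E p (s b) + 1) a b (by omega), cf_zero_hom]
    refine hne ?_
    refine biproduct.hom_ext' _ _ fun a => biproduct.hom_ext _ _ fun b => ?_
    rw [comp_zero, zero_comp, Category.assoc]
    exact hz a b

lemma bij_of_eq {X M : P ⥤ ModuleCat.{u} k} {g : X ⟶ M}
    (h : ∀ a, Function.Bijective (fun h : Gf k E a ⟶ X => h ≫ g)) {S : Set P} (hS : IsSpread S)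
    (hA : AlS e C S) : Function.Bijective (fun h : sp k S hS.convex ⟶ X => h ≫ g) := by
  have key : ∀ (S' : Set P) (hS' : S'.OrdConnected), (E (E.symm ⟨S, hS, hA⟩)).1 = S' →
      Function.Bijective (fun h : sp k S' hS' ⟶ X => h ≫ g) := by
    rintro S' hS' rfl
    exact h _
  exact key S hS.convex (by simp)

lemma iso_of_bij {X M : P ⥤ ModuleCat.{u} k} (hX : AlN e C X) (hM : AlN e C M) (g : X ⟶ M)
    (h : ∀ a, Function.Bijective (fun h : Gf k E a ⟶ X => h ≫ g)) : IsIso g := by
  have hgrid : ∀ c ∈ C, ∀ q, Function.Bijective (g.app (pt e c q)) := by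
    intro c hc q
    obtain ⟨hi, hs⟩ := bij_of_eq h (isSpread_Ici (pt e c q)) (alS_Ici hc q)
    constructor
    · intro x y hxy
      have h1 : yon (pt e c q) x = yon (pt e c q) y := by
        refine hi (yon_ext ?_)
        rw [elt_comp, elt_comp, elt_yon, elt_yon, hxy]
      rw [← elt_yon (pt e c q) x, h1, elt_yon]
    · intro y
      obtain ⟨h', hh⟩ := hs (yon (pt e c q) y)
      refine ⟨elt h' (pt e c q), ?_⟩
      rw [← elt_comp, ← elt_yon (pt e c q) y]
      exact congrArg (fun t => elt t (pt e c q)) hh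
  have hall : ∀ p, Function.Bijective (g.app p) := by
    intro p
    obtain ⟨t, q, rfl⟩ := exists_pt e p
    by_cases hc : ∃ c ∈ C, c ≤ t
    · obtain ⟨c, hcC, hct⟩ := exists_floor hc
      have h1 := hX.same c t q hct
      have h2 := hM.same c t q hct
      have h3 := hgrid c hcC q
      constructor
      · intro x y hxy
        obtain ⟨x', rfl⟩ := h1.2 x
        obtain ⟨y', rfl⟩ := h1.2 y
        rw [nat_apply, nat_apply] at hxy
        rw [h3.1 (h2.1 hxy)]
      · intro y
        obtain ⟨y', rfl⟩ := h2.2 y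
        obtain ⟨x', rfl⟩ := h3.2 y'
        exact ⟨_, nat_apply g _ x'⟩
    · have hn : ∀ c ∈ C, ¬ c ≤ t := fun c hc' h => hc ⟨c, hc', h⟩
      constructor
      · intro x y _
        rw [hX.low t q hn x, hX.low t q hn y]
      · intro y
        exact ⟨0, by rw [map_zero, hM.low t q hn y]⟩
  have : ∀ p, IsIso (g.app p) := fun p => (ConcreteCategory.isIso_iff_bijective (g.app p)).2 (hall p)
  exact NatIso.isIso_of_isIso_app g

/-- the resolution, abstractly -/
theorem exists_hasRes [Finite Q] [DecidableEq I] (E : I ≃ ASp e C) {M : P ⥤ ModuleCat.{u} k}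
    (hM : AlN e C M) : ∃ n, HasRes (Gf k E) n M := by
  refine stmtB (k := k) (A := P ⥤ ModuleCat.{u} k) (Gf k E) (pd_finite k E) (AlN e C)
    ?_ ?_ ?_ ?_ M hM
  · intro M hM
    exact AlN.finHom (AlN.biprod fun a => (E a).2.2.alN _) hM
  · intro M hM m s g
    exact ⟨kerRep g, kerι g, kerι_comp g,
      AlN.ker g (AlN.biprod fun a => (E (s a)).2.2.alN _) hM, kerIsLimit g⟩
  · intro M hM m s g h
    exact iso_of_bij (AlN.biprod fun a => (E (s a)).2.2.alN _) hM g h
  · intro m s f hf hne
    exact idem_entry m s f hf hne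

section assembly

lemma gx_alN (m : ℕ) (s : Fin m → I) : AlN e C (⨁ fun j => Gf k E (s j)) :=
  AlN.biprod fun a => (E (s a)).2.2.alN _

lemma gx_sum (m : ℕ) (s : Fin m → I) : IsSpreadSum k (⨁ fun j => Gf k E (s j)) :=
  ⟨m, fun j => (E (s j)).1, fun j => (E (s j)).2.1, ⟨Iso.refl _⟩⟩

lemma gx_zero (s : Fin 0 → I) : IsZero (⨁ fun j => Gf k E (s j)) := by
  rw [IsZero.iff_id_eq_zero]
  exact biproduct.hom_ext _ _ fun j => j.elim0

variable {M : P ⥤ ModuleCat.{u} k}

lemma fac_ker {K X M : P ⥤ ModuleCat.{u} k} {i : K ⟶ X} {g : X ⟶ M} {w : i ≫ g = 0}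
    (hk : IsLimit (KernelFork.ofι i w)) {L : P ⥤ ModuleCat.{u} k} (h : L ⟶ X) (hh : h ≫ g = 0) :
    ∃ h', h' ≫ i = h := by
  obtain ⟨l, hl⟩ := KernelFork.IsLimit.lift' hk h hh
  exact ⟨l, hl⟩

lemma isZero_apply {X : P ⥤ ModuleCat.{u} k} (hX : IsZero X) {p : P} (x : X.obj p) : x = 0 := by
  have h := congrArg (fun t : X ⟶ X => t.app p x) ((IsZero.iff_id_eq_zero X).1 hX)
  exact h

/-- base case -/
noncomputable def baseRes [Finite Q] (m : ℕ) (s : Fin m → I)
    (i : M ≅ ⨁ fun j => Gf k E (s j)) : SpreadResolution k M 0 where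
  X a := match a with
    | 0 => ⨁ fun j => Gf k E (s j)
    | _ + 1 => ⨁ fun j : Fin 0 => Gf k E ((Fin.elim0 : Fin 0 → I) j)
  d _ := 0
  ε := i.inv
  isSum a := match a with
    | 0 => gx_sum m s
    | _ + 1 => gx_sum 0 _
  isFP a := match a with
    | 0 => (gx_alN m s).isFP
    | _ + 1 => (gx_alN 0 _).isFP
  isZero a ha := match a, ha with
    | 0, ha => absurd ha (lt_irrefl 0)
    | _ + 1, _ => gx_zero _
  exact a p y := by
    have hy : y = 0 := isZero_apply (gx_zero _) y
    rw [hy, map_zero]
    exact ⟨fun _ => ⟨0, map_zero _⟩, fun _ => rfl⟩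
  exact₀ p y := by
    constructor
    · intro h
      refine ⟨0, ?_⟩
      have h1 : i.hom.app p (i.inv.app p y) = y := by
        rw [← comp_app_apply, i.inv_hom_id]; rfl
      rw [map_zero, ← h1, h, map_zero]
    · rintro ⟨z, rfl⟩
      exact map_zero _
  surj p y := ⟨i.hom.app p y, by rw [← comp_app_apply, i.hom_inv_id]; rfl⟩
  hom_exact a S hS f := by
    have hf : f = 0 := (gx_zero _).eq_of_tgt _ _
    constructor
    · intro _
      exact ⟨0, by rw [hf]; exact zero_comp⟩
    · intro _
      exact comp_zero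
  hom_exact₀ S hS f := by
    constructor
    · intro h
      refine ⟨0, ?_⟩
      change _ ≫ _ = f
      have h1 : f = (f ≫ i.inv) ≫ i.hom := by simp
      rw [h1]
      change f ≫ i.inv = 0 at h
      rw [h, zero_comp, zero_comp]
    · rintro ⟨z, rfl⟩
      change (z ≫ 0) ≫ i.inv = 0
      rw [comp_zero, zero_comp]
  hom_surj S hS f := ⟨f ≫ i.hom, by simp⟩

/-- induction step -/
noncomputable def stepRes [Finite Q] {n : ℕ} (hM : AlN e C M) (m : ℕ) (s : Fin m → I)
    {K : P ⥤ ModuleCat.{u} k} (i : K ⟶ ⨁ fun j => Gf k E (s j))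
    (g : (⨁ fun j => Gf k E (s j)) ⟶ M) (w : i ≫ g = 0)
    (hk : IsLimit (KernelFork.ofι i w))
    (hl : ∀ (a : I) (h : Gf k E a ⟶ M), ∃ h' : Gf k E a ⟶ ⨁ fun j => Gf k E (s j), h' ≫ g = h)
    (R : SpreadResolution k K n) : SpreadResolution k M (n + 1) :=
  have hsurj : ∀ p, Function.Surjective (g.app p) := fun p y => by
    obtain ⟨f', hf'⟩ := lift_all E g hM hl Set.ordConnected_Ici (yon p y)
    refine ⟨elt f' p, ?_⟩
    rw [← elt_comp, hf', elt_yon]
  have hinj : ∀ p, Function.Injective (i.app p) := fun p x y hxy => by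
    have h1 : yon p x = yon p y := by
      refine Fork.IsLimit.hom_ext hk ?_
      change yon p x ≫ i = yon p y ≫ i
      refine yon_ext ?_
      rw [elt_comp, elt_comp, elt_yon, elt_yon, hxy]
    rw [← elt_yon p x, h1, elt_yon]
  have hex : ∀ p (y : (⨁ fun j => Gf k E (s j) : P ⥤ ModuleCat.{u} k).obj p),
      g.app p y = 0 → ∃ x, i.app p x = y := fun p y hy => by
    obtain ⟨h', hh'⟩ := fac_ker hk (yon p y) (yon_ext (by
      rw [elt_comp, elt_yon, hy]; rfl))
    refine ⟨elt h' p, ?_⟩
    rw [← elt_comp, hh', elt_yon]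
  have hcancel : ∀ {L : P ⥤ ModuleCat.{u} k} (h : L ⟶ K), h ≫ i = 0 → h = 0 := fun h hh =>
    Fork.IsLimit.hom_ext hk (hh.trans zero_comp.symm)
  have hwp : ∀ p (x : K.obj p), g.app p (i.app p x) = 0 := fun p x => by
    rw [← comp_app_apply, w]; rfl
  { X := fun a => match a with
      | 0 => ⨁ fun j => Gf k E (s j)
      | a + 1 => R.X a
    d := fun a => match a with
      | 0 => R.ε ≫ i
      | a + 1 => R.d a
    ε := g
    isSum := fun a => match a with
      | 0 => gx_sum m s
      | a + 1 => R.isSum a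
    isFP := fun a => match a with
      | 0 => (gx_alN m s).isFP
      | a + 1 => R.isFP a
    isZero := fun a ha => match a, ha with
      | 0, ha => absurd ha (by omega)
      | a + 1, ha => R.isZero a (by omega)
    exact := fun a => match a with
      | 0 => fun p y => by
        constructor
        · intro h
          change i.app p (R.ε.app p y) = 0 at h
          exact (R.exact₀ p y).1 (hinj p (h.trans (map_zero _).symm))
        · intro h
          change i.app p (R.ε.app p y) = 0
          rw [(R.exact₀ p y).2 h, map_zero]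
      | a + 1 => R.exact a
    exact₀ := fun p y => by
      constructor
      · intro h
        obtain ⟨x, rfl⟩ := hex p y h
        obtain ⟨z, rfl⟩ := R.surj p x
        exact ⟨z, rfl⟩
      · rintro ⟨z, rfl⟩
        exact hwp p _
    surj := hsurj
    hom_exact := fun a => match a with
      | 0 => fun S hS f => by
        constructor
        · intro h
          change f ≫ R.ε ≫ i = 0 at h
          rw [← Category.assoc] at h
          exact (R.hom_exact₀ S hS f).1 (hcancel _ h)
        · intro h
          change f ≫ R.ε ≫ i = 0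
          have h1 : f ≫ R.ε = 0 := (R.hom_exact₀ S hS f).2 h
          rw [← Category.assoc, h1, zero_comp]
      | a + 1 => R.hom_exact a
    hom_exact₀ := fun S hS f => by
      constructor
      · intro h
        obtain ⟨x, hx⟩ := fac_ker hk f h
        obtain ⟨z, hz⟩ := R.hom_surj S hS x
        change z ≫ R.ε = x at hz
        refine ⟨z, ?_⟩
        change z ≫ R.ε ≫ i = f
        rw [← Category.assoc, hz, hx]
      · rintro ⟨z, rfl⟩
        change (z ≫ R.ε ≫ i) ≫ g = 0
        rw [Category.assoc, Category.assoc, w, comp_zero, comp_zero]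
    hom_surj := fun S hS f => lift_all E g hM hl hS.convex f }

lemma hasRes_res [Finite Q] (n : ℕ) (hM : AlN e C M) (h : HasRes (Gf k E) n M) :
    Nonempty (SpreadResolution k M n) := by
  induction h with
  | base M m s i =>
    obtain ⟨i⟩ := i
    exact ⟨baseRes m s i⟩
  | step n K M m s i g w hk hl hK ih =>
    obtain ⟨hk⟩ := hk
    obtain ⟨hk'⟩ := kerIsLimit g
    have hKA : AlN e C K := AlN.of_iso (IsLimit.conePointUniqueUpToIso hk' hk)
      (AlN.ker g (gx_alN m s) hM)
    obtain ⟨R⟩ := ih hKA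
    exact ⟨stepRes hM m s i g w hk hl R⟩

end assembly

theorem exists_spreadResolution (k : Type u) [Field k] {T Q P : Type u} [LinearOrder T]
    [PartialOrder Q] [Finite Q] [PartialOrder P] (e : P ≃o T × Q) (M : P ⥤ ModuleCat.{u} k)
    (hM : IsFP k M) : ∃ n, Nonempty (SpreadResolution k M n) := by
  classical
  obtain ⟨C, hC⟩ := hM.aligned e
  obtain ⟨N, ⟨F⟩⟩ := Finite.exists_equiv_fin (ASp e C)
  obtain ⟨n, hn⟩ := exists_hasRes F.symm hC
  exact ⟨n, hasRes_res n hC hn⟩

end R118.Spr
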