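import Pool.Agent.R118.Spr.Sink

/-!
# The uniform bound: glue
-/

open CategoryTheory Limits

universe u

namespace R118.Spr

set_option linter.unusedSectionVars false

variable {k : Type u} [Field k] {T Q P : Type u} [LinearOrder T] [PartialOrder Q] [PartialOrder P]
  {e : P ≃o T × Q} {C C2 : Finset T} {I : Type} [Fintype I]

variable (k) in
/-- the ranking, with a bound -/
lemma exists_rank_bd [Finite Q] (E : I ≃ ASp e C) : ∃ (r : I → ℕ) (b : I → P),
    (∀ i, r i < Nat.card (C × Q) * (Fintype.card I + 1)) ∧ (∀ i, b i ∈ (E i).1) ∧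
    ∀ i j, j ≠ i → r i ≤ r j → ∀ f : Gf k E j ⟶ Gf k E i, cf f (b i) = 0 := by
  classical
  obtain ⟨N, ⟨F⟩⟩ := Finite.exists_equiv_fin (C × Q)
  have hN : Nat.card (C × Q) = N := by rw [Nat.card_congr F, Nat.card_fin]
  have hmin : ∀ i, ∃ x : C × Q, pt e (x.1 : T) x.2 ∈ (E i).1 ∧
      ∀ y : C × Q, pt e (y.1 : T) y.2 ∈ (E i).1 → F x ≤ F y := by
    intro i
    obtain ⟨x, hx⟩ := exists_grid (E i)
    obtain ⟨z, hz, hz'⟩ := Finset.exists_min_image
      (Finset.univ.filter (fun n : Fin N => pt e ((F.symm n).1 : T) (F.symm n).2 ∈ (E i).1)) id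
      ⟨F x, by simpa using hx⟩
    refine ⟨F.symm z, (Finset.mem_filter.1 hz).2, fun y hy => ?_⟩
    rw [Equiv.apply_symm_apply]
    exact hz' (F y) (by simpa using hy)
  choose x hx hx' using hmin
  refine ⟨fun i => (F (x i)).1 * (Fintype.card I + 1) + hgt k E (pt e ((x i).1 : T) (x i).2) i,
    fun i => pt e ((x i).1 : T) (x i).2, fun i => ?_, hx, fun i j hji hr f => ?_⟩
  · have h1 : (F (x i)).1 + 1 ≤ Nat.card (C × Q) := by rw [hN]; exact (F (x i)).2
    have h2 := hgt_le (k := k) (E := E) (pt e ((x i).1 : T) (x i).2) i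
    have h3 := Nat.mul_le_mul_right (Fintype.card I + 1) h1
    simp only
    nlinarith
  by_contra hne
  have hR : RR k E (pt e ((x i).1 : T) (x i).2) j i := ⟨f, hne⟩
  have h1 := hx' j (x i) hR.left
  have h2 := hR.hgt_lt hji
  rcases h1.lt_or_eq with h3 | h3
  · have h4 : (F (x j)).1 + 1 ≤ (F (x i)).1 := h3
    have h5 := hgt_le (k := k) (E := E) (pt e ((x j).1 : T) (x j).2) j
    have h6 := Nat.mul_le_mul_right (Fintype.card I + 1) h4
    simp only at hr
    nlinarith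
  · have h4 : x j = x i := F.injective h3
    simp only [h4] at hr
    omega

variable (k) in
lemma pd_bd [Finite Q] [DecidableEq I] (hA1 : StmtA1 (k := k) (A := P ⥤ ModuleCat.{u} k))
    (E : I ≃ ASp e C) (R : ℕ) (hR : Nat.card (C × Q) * (Fintype.card I + 1) ≤ R)
    (N : ModuleCat.{u} (Lam (Gf k E)))
    (hN : IsFiniteLength (Lam (Gf k E)) N) : HasProjectiveDimensionLT N (R + 1) := by
  obtain ⟨r, b, hr, hb, hb'⟩ := exists_rank_bd k E
  refine hA1 (Gf k E) ?_ ?_ r R (fun i => (hr i).trans_le hR)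
    (fun i => sp k (UU k E r i) (UU_conv i)) (fun i => incl i) (fun i => incl_mono i) ?_ ?_ ?_ N hN
  · intro i
    exact AlN.finHom (AlN.biprod fun a => (E a).2.2.alN _) ((E i).2.2.alN _)
  · intro i f
    exact end_scalar (E i).2.1 f
  · intro i j hji hr f
    exact incl_fac hji hr f
  · intro i g
    exact incl_zero hb hb' i g
  · intro i
    exact comps E (UU_conv i) (UU_alS i)

lemma hasRes_bd [Finite Q] [DecidableEq I] (hB1 : StmtB1 (k := k) (A := P ⥤ ModuleCat.{u} k))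
    (E : I ≃ ASp e C) (n : ℕ) (hpd : ∀ (N : ModuleCat.{u} (Lam (Gf k E))),
      IsFiniteLength (Lam (Gf k E)) N → HasProjectiveDimensionLT N (n + 1))
    {M : P ⥤ ModuleCat.{u} k} (hM : AlN e C M) : HasRes (Gf k E) n M := by
  refine hB1 (Gf k E) n hpd (AlN e C) ?_ ?_ ?_ ?_ M hM
  · intro M hM
    exact AlN.finHom (AlN.biprod fun a => (E a).2.2.alN _) hM
  · intro M hM m s g
    exact ⟨kerRep g, kerι g, kerι_comp g,
      AlN.ker g (AlN.biprod fun a => (E (s a)).2.2.alN _) hM, kerIsLimit g⟩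
  · intro M hM m s g h
    exact iso_of_bij (AlN.biprod fun a => (E (s a)).2.2.alN _) hM g h
  · intro m s f hf hne
    exact idem_entry m s f hf hne

/-- resolutions by sets aligned to `C2 ⊆ C` are resolutions by sets aligned to `C` -/
lemma hasRes_transfer {I2 : Type} [Fintype I2] (h : C2 ⊆ C) (E2 : I2 ≃ ASp e C2)
    (E : I ≃ ASp e C) {n : ℕ} {M : P ⥤ ModuleCat.{u} k} (hM : AlN e C2 M)
    (hr : HasRes (Gf k E2) n M) : HasRes (Gf k E) n M := by
  let τ : I2 → I := fun a => E.symm ⟨(E2 a).1, (E2 a).2.1, (E2 a).2.2.mono h⟩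
  have hτ : ∀ a, Gf k E2 a = Gf k E (τ a) := fun a => sp_congr (by simp [τ]) _ _
  induction hr with
  | base M m s i =>
    have key : (fun j => Gf k E2 (s j)) = fun j => Gf k E (τ (s j)) := funext fun j => hτ _
    have : ∀ Y : Fin m → (P ⥤ ModuleCat.{u} k), Nonempty (M ≅ ⨁ Y) →
        Y = (fun j => Gf k E (τ (s j))) → HasRes (Gf k E) 0 M := by
      rintro Y i rfl
      exact HasRes.base M m (fun j => τ (s j)) i
    exact this _ i key
  | step n K M m s i g w hk hl hK ih =>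
    have key : (fun j => Gf k E2 (s j)) = fun j => Gf k E (τ (s j)) := funext fun j => hτ _
    obtain ⟨hk0⟩ := hk
    obtain ⟨hk'⟩ := kerIsLimit g
    have hKA : AlN e C2 K := AlN.of_iso (IsLimit.conePointUniqueUpToIso hk' hk0)
      (AlN.ker g (gx_alN m s) hM)
    have hl' : ∀ (a : I) (h : Gf k E a ⟶ M), ∃ h' : Gf k E a ⟶ ⨁ fun j => Gf k E2 (s j),
        h' ≫ g = h := fun a h => lift_all E2 g hM hl (E a).2.1.convex h
    have hk1 : Nonempty (IsLimit (KernelFork.ofι i w)) := ⟨hk0⟩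
    clear hk0 hl hk' hK
    have : ∀ (Y : Fin m → (P ⥤ ModuleCat.{u} k)) (i : K ⟶ ⨁ Y) (g : (⨁ Y) ⟶ M) (w : i ≫ g = 0)
        (_ : Nonempty (IsLimit (KernelFork.ofι i w)))
        (_ : ∀ (a : I) (h : Gf k E a ⟶ M), ∃ h' : Gf k E a ⟶ ⨁ Y, h' ≫ g = h),
        Y = (fun j => Gf k E (τ (s j))) → HasRes (Gf k E) (n + 1) M := by
      rintro Y i g w hk hl rfl
      exact HasRes.step n K M m (fun j => τ (s j)) i g w hk hl (ih hKA)
    exact this _ i g w hk1 hl' key

/-- the bound -/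
def rho (q : ℕ) : ℕ := (4 * q + 1) * q * (2 ^ ((4 * q + 1) * q) + 1)

lemma rho_le [Finite Q] (E : I ≃ ASp e C) (hC : C.card ≤ 4 * Nat.card Q + 1) :
    Nat.card (C × Q) * (Fintype.card I + 1) ≤ rho (Nat.card Q) := by
  have h1 : Nat.card (C × Q) ≤ (4 * Nat.card Q + 1) * Nat.card Q := by
    rw [Nat.card_prod, Nat.card_eq_fintype_card, Fintype.card_coe]
    exact Nat.mul_le_mul_right _ hC
  exact Nat.mul_le_mul h1 (Nat.succ_le_succ ((card_le E).trans (Nat.pow_le_pow_right (by norm_num) h1)))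

lemma exists_hasRes_bd [Finite Q] [DecidableEq I]
    (hA1 : StmtA1 (k := k) (A := P ⥤ ModuleCat.{u} k))
    (hA2 : StmtA2 (k := k) (A := P ⥤ ModuleCat.{u} k))
    (hB1 : StmtB1 (k := k) (A := P ⥤ ModuleCat.{u} k)) (hD : StmtD e C)
    (E : I ≃ ASp e C) {M : P ⥤ ModuleCat.{u} k}
    (hM : AlN e C M) : HasRes (Gf k E) (rho (Nat.card Q) + 2) M := by
  classical
  refine hasRes_bd hB1 E _ (fun N hN => ?_) hM
  choose C2 hC hcard X hX hG σ h1 h2 h3 using exists_sink (k := k) hD E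
  refine hA2 (Gf k E) (fun i f => end_scalar (E i).2.1 f) (rho (Nat.card Q)) X
    (fun i => kerRep (σ i)) σ (fun i => kerι (σ i)) (fun i => kerι_comp (σ i))
    (fun i => kerIsLimit (σ i)) h1 h2 h3 (fun i => ?_) N hN
  obtain ⟨N2, ⟨F⟩⟩ := Finite.exists_equiv_fin (ASp e (C2 i))
  have hK : AlN e (C2 i) (kerRep (σ i)) := AlN.ker (σ i) (hX i) (hG i)
  refine hasRes_transfer (hC i) F.symm E hK (hasRes_bd hB1 F.symm _ (fun N hN => ?_) hK)
  exact pd_bd k hA1 F.symm _ (rho_le F.symm (hcard i)) N hN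

theorem uniform (hA1 : StmtA1 (k := k) (A := P ⥤ ModuleCat.{u} k))
    (hA2 : StmtA2 (k := k) (A := P ⥤ ModuleCat.{u} k))
    (hB1 : StmtB1 (k := k) (A := P ⥤ ModuleCat.{u} k)) [Finite Q] (hD : ∀ C, StmtD e C)
    (M : P ⥤ ModuleCat.{u} k) (hM : IsFP k M) :
    Nonempty (SpreadResolution k M (rho (Nat.card Q) + 2)) := by
  classical
  obtain ⟨C, hC⟩ := hM.aligned e
  obtain ⟨N, ⟨F⟩⟩ := Finite.exists_equiv_fin (ASp e C)
  exact hasRes_res _ hC (exists_hasRes_bd hA1 hA2 hB1 (hD C) F.symm hC)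

end R118.Spr
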