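import Pool.Agent.R118.Spr.Comp
import Pool.Agent.R118.Spr.A

/-!
# The ranking of aligned spreads
-/

open CategoryTheory Limits

universe u

namespace R118.Spr

set_option linter.unusedSectionVars false

variable {k : Type u} [Field k] {T Q P : Type u} [LinearOrder T] [PartialOrder Q] [PartialOrder P]
  {e : P ≃o T × Q} {C : Finset T} {I : Type} [Fintype I] (E : I ≃ ASp e C)

variable (k) in
/-- there is a morphism `G j ⟶ G i` which is nonzero at `p` -/
def RR (p : P) (j i : I) : Prop := ∃ f : Gf k E j ⟶ Gf k E i, cf f p ≠ 0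

variable {E}

lemma RR.left {p : P} {j i : I} (h : RR k E p j i) : p ∈ (E j).1 := by
  obtain ⟨f, hf⟩ := h
  exact cf_left hf

lemma RR.right {p : P} {j i : I} (h : RR k E p j i) : p ∈ (E i).1 := by
  obtain ⟨f, hf⟩ := h
  exact cf_right hf

lemma RR.refl {p : P} {i : I} (h : p ∈ (E i).1) : RR k E p i i :=
  ⟨𝟙 _, by rw [cf_id h]; exact one_ne_zero⟩

lemma RR.trans {p : P} {l j i : I} (h : RR k E p l j) (h' : RR k E p j i) : RR k E p l i := by
  obtain ⟨f, hf⟩ := h
  obtain ⟨g, hg⟩ := h'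
  exact ⟨f ≫ g, by rw [cf_comp]; exact mul_ne_zero hf hg⟩

lemma RR.sub {p : P} {j i : I} (h : RR k E p j i) (h' : RR k E p i j) :
    (E j).1 ⊆ (E i).1 := by
  obtain ⟨f, hf⟩ := h
  obtain ⟨g, hg⟩ := h'
  obtain ⟨c, hc⟩ := end_scalar (E j).2.1 (f ≫ g)
  have hp : p ∈ (E j).1 := cf_left hf
  have hc0 : c ≠ 0 := by
    intro h0
    have : cf (f ≫ g) p = cf (c • 𝟙 (Gf k E j)) p := by rw [hc]
    rw [cf_comp, cf_smul, h0, zero_mul] at this
    exact mul_ne_zero hf hg this
  intro x hx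
  have : cf (f ≫ g) x = cf (c • 𝟙 (Gf k E j)) x := by rw [hc]
  rw [cf_comp, cf_smul, cf_id hx, mul_one] at this
  refine cf_right (f := f) (p := x) ?_
  intro h0
  rw [h0, zero_mul] at this
  exact hc0 this.symm

lemma RR.antisymm {p : P} {j i : I} (h : RR k E p j i) (h' : RR k E p i j) : j = i :=
  E.injective (Subtype.ext (Set.Subset.antisymm (h.sub h') (h'.sub h)))

variable (k E) in
open scoped Classical in
/-- the height of `i` at `p` -/
noncomputable def hgt (p : P) (i : I) : ℕ := (Finset.univ.filter (fun j => RR k E p j i)).card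

lemma hgt_le (p : P) (i : I) : hgt k E p i ≤ Fintype.card I := by
  classical
  exact Finset.card_le_univ _

lemma RR.hgt_lt {p : P} {j i : I} (h : RR k E p j i) (hne : j ≠ i) :
    hgt k E p j < hgt k E p i := by
  classical
  refine Finset.card_lt_card ⟨fun l hl => ?_, fun hs => ?_⟩
  · exact Finset.mem_filter.2 ⟨Finset.mem_univ _, ((Finset.mem_filter.1 hl).2).trans h⟩
  · have := Finset.mem_filter.1 (hs (Finset.mem_filter.2 ⟨Finset.mem_univ i, RR.refl h.right⟩))
    exact hne (h.antisymm this.2)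

lemma exists_grid (S : ASp e C) : ∃ x : C × Q, pt e (x.1 : T) x.2 ∈ S.1 := by
  obtain ⟨p, hp⟩ := S.2.1.nonempty
  obtain ⟨t, q, rfl⟩ := exists_pt e p
  obtain ⟨c, hc, hct⟩ := exists_floor (S.2.2.low t q hp)
  exact ⟨(⟨c, hc⟩, q), (S.2.2.same c t q hct).2 hp⟩

variable (k E) in
/-- the ranking -/
lemma exists_rank [Finite Q] : ∃ (r : I → ℕ) (b : I → P), (∀ i, b i ∈ (E i).1) ∧
    ∀ i j, j ≠ i → r i ≤ r j → ∀ f : Gf k E j ⟶ Gf k E i, cf f (b i) = 0 := by
  classical
  obtain ⟨N, ⟨F⟩⟩ := Finite.exists_equiv_fin (C × Q)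
  have hmin : ∀ i, ∃ x : C × Q, pt e (x.1 : T) x.2 ∈ (E i).1 ∧
      ∀ y : C × Q, pt e (y.1 : T) y.2 ∈ (E i).1 → F x ≤ F y := by
    intro i
    obtain ⟨x, hx⟩ := exists_grid (E i)
    obtain ⟨z, hz, hz'⟩ := Finset.exists_min_image
      (Finset.univ.filter (fun n : Fin N => pt e ((F.symm n).1 : T) (F.symm n).2 ∈ (E i).1)) id
      ⟨F x, by simpa using hx⟩
    refine ⟨F.symm z, (Finset.mem_filter.1 hz).2, fun y hy => ?_⟩
    rw [Equiv.apply_symm_apply]
    exact hz' (F y) (by simpa using hy)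
  choose x hx hx' using hmin
  refine ⟨fun i => (F (x i)).1 * (Fintype.card I + 1) + hgt k E (pt e ((x i).1 : T) (x i).2) i,
    fun i => pt e ((x i).1 : T) (x i).2, hx, fun i j hji hr f => ?_⟩
  by_contra hne
  have hR : RR k E (pt e ((x i).1 : T) (x i).2) j i := ⟨f, hne⟩
  have h1 := hx' j (x i) hR.left
  have h2 := hR.hgt_lt hji
  rcases h1.lt_or_eq with h3 | h3
  · have h4 : (F (x j)).1 + 1 ≤ (F (x i)).1 := h3
    have h5 := hgt_le (k := k) (E := E) (pt e ((x j).1 : T) (x j).2) j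
    have h6 := Nat.mul_le_mul_right (Fintype.card I + 1) h4
    simp only at hr
    nlinarith
  · have h4 : x j = x i := F.injective h3
    simp only [h4] at hr
    omega

section U

variable (r : I → ℕ)

variable (k E) in
/-- the submodule of the images of maps of larger rank -/
def UU (i : I) : Set P :=
  {x | x ∈ (E i).1 ∧ ∃ j, j ≠ i ∧ r i ≤ r j ∧ ∃ f : Gf k E j ⟶ Gf k E i, cf f x ≠ 0}

variable {r}

lemma UU_up {i : I} {x y : P} (hx : x ∈ UU k E r i) (hxy : x ≤ y) (hy : y ∈ (E i).1) :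
    y ∈ UU k E r i := by
  obtain ⟨hxi, j, hj, hr, f, hf⟩ := hx
  refine ⟨hy, j, hj, hr, f, ?_⟩
  have hxj := cf_left hf
  by_cases hyj : y ∈ (E j).1
  · rw [cf_eq f hxy hxj hyj hy]
    exact hf
  · exact absurd (cf_zero f hxy hxj hyj hy) hf

lemma UU_conv (i : I) : (UU k E r i).OrdConnected :=
  ⟨fun _ hp _ hr _ hx => UU_up hp hx.1 ((E i).2.1.convex.out hp.1 hr.1 hx)⟩

lemma UU_alS (i : I) : AlS e C (UU k E r i) where
  low t q h := (E i).2.2.low t q h.1
  same t t' q hs := by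
    constructor
    · intro h
      exact UU_up h (hs.le e q) (((E i).2.2.same t t' q hs).1 h.1)
    · rintro ⟨h1, j, hj, hr, f, hf⟩
      refine ⟨((E i).2.2.same t t' q hs).2 h1, j, hj, hr, f, ?_⟩
      have hj' := cf_left hf
      rwa [← cf_eq f (hs.le e q) (((E j).2.2.same t t' q hs).2 hj') hj' h1]

/-- inclusion of an up-closed subset -/
noncomputable def incl (i : I) : sp k (UU k E r i) (UU_conv i) ⟶ Gf k E i :=
  mkc (fun _ => 1) (fun _ _ _ _ _ _ _ => rfl)
    (fun _ _ hpq hp hq hq' _ => absurd (UU_up hp hpq hq') hq)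
    (fun _ _ _ hp hp' _ _ => absurd hp.1 hp')

lemma cf_incl {i : I} {x : P} (hx : x ∈ UU k E r i) : cf (incl (k := k) (E := E) (r := r) i) x = 1 :=
  cf_mkc _ _ _ _ hx hx.1

lemma incl_mono (i : I) : Mono (incl (k := k) (E := E) (r := r) i) := by
  refine ⟨fun {Z} a b h => ?_⟩
  ext p x
  refine vl_inj ?_
  have h1 := congrArg (fun t : Z ⟶ Gf k E i => vl (t.app p x)) h
  simp only [comp_app_apply] at h1
  rw [app_eq, app_eq, map_smul, map_smul, smul_eq_mul, smul_eq_mul] at h1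
  by_cases hp : p ∈ UU k E r i
  · have h2 : vl (elt (incl (k := k) (E := E) (r := r) i) p) = 1 := cf_incl hp
    rw [h2, mul_one, mul_one] at h1
    exact h1
  · rw [vl_notMem hp, vl_notMem hp]

lemma incl_fac {i j : I} (hji : j ≠ i) (hr : r i ≤ r j) (f : Gf k E j ⟶ Gf k E i) :
    ∃ f' : Gf k E j ⟶ sp k (UU k E r i) (UU_conv i), f' ≫ incl i = f := by
  have hmem : ∀ p, cf f p ≠ 0 → p ∈ UU k E r i :=
    fun p hp => ⟨cf_right hp, j, hji, hr, f, hp⟩
  refine ⟨mkc (fun p => cf f p) ?_ ?_ ?_, cf_ext fun p hp hp' => ?_⟩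
  · intro p q hpq hp hq hq' _
    exact cf_eq f hpq hp hq hq'.1
  · intro p q hpq hp hq hq' _
    exact cf_zero f hpq hp hq hq'.1
  · intro p q hpq hp hp' hq hq'
    rw [cf_eq f hpq hp hq hq'.1]
    by_contra h
    exact hp' (hmem p h)
  · rw [cf_comp]
    by_cases hU : p ∈ UU k E r i
    · rw [cf_mkc _ _ _ _ hp hU, cf_incl hU, mul_one]
    · have h1 : cf f p = 0 := by
        by_contra h
        exact hU (hmem p h)
      rw [h1]
      by_contra h
      exact hU (cf_right (left_ne_zero_of_mul h))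

lemma incl_zero {b : I → P} (hb : ∀ i, b i ∈ (E i).1)
    (hb' : ∀ i j, j ≠ i → r i ≤ r j → ∀ f : Gf k E j ⟶ Gf k E i, cf f (b i) = 0)
    (i : I) (g : Gf k E i ⟶ sp k (UU k E r i) (UU_conv i)) : g ≫ incl i = 0 := by
  obtain ⟨c, hc⟩ := end_scalar (E i).2.1 (g ≫ incl i)
  have h1 : cf (g ≫ incl i) (b i) = 0 := by
    rw [cf_comp]
    by_contra h
    obtain ⟨_, j, hj, hr, f, hf⟩ := cf_right (left_ne_zero_of_mul h)
    exact hf (hb' i j hj hr f)
  rw [hc, cf_smul, cf_id (hb i), mul_one] at h1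
  rw [hc, h1, zero_smul]

end U

/-- Hom spaces between aligned representations are finite-dimensional -/
lemma AlN.finHom [Finite Q] {M N : P ⥤ ModuleCat.{u} k} (hM : AlN e C M) (hN : AlN e C N) :
    FiniteDimensional k (M ⟶ N) := by
  classical
  have hMf := fun p => hM.fin p
  have hNf := fun p => hN.fin p
  let Φ : (M ⟶ N) →ₗ[k] (∀ x : C × Q, (M.obj (pt e (x.1 : T) x.2) →ₗ[k] N.obj (pt e (x.1 : T) x.2))) :=
    { toFun := fun f x => (f.app (pt e (x.1 : T) x.2)).hom
      map_add' := fun f g => rfl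
      map_smul' := fun c f => rfl }
  refine FiniteDimensional.of_injective Φ ?_
  rw [injective_iff_map_eq_zero]
  intro f hf
  ext p x
  obtain ⟨t, q, rfl⟩ := exists_pt e p
  change f.app (pt e t q) x = 0
  by_cases hc : ∃ c ∈ C, c ≤ t
  · obtain ⟨c, hcC, hct⟩ := exists_floor hc
    obtain ⟨y, rfl⟩ := (hM.same c t q hct).2 x
    rw [nat_apply]
    have h1 := congrArg (fun F => F (⟨c, hcC⟩, q) y) hf
    have h2 : f.app (pt e c q) y = 0 := h1
    rw [h2, map_zero]
  · rw [hM.low t q (fun c hc' h => hc ⟨c, hc', h⟩) x, map_zero]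

variable (k E) in
/-- every module of finite length over the endomorphism ring of the sum of the aligned spreads has
finite projective dimension -/
theorem pd_finite [Finite Q] [DecidableEq I] (N : ModuleCat.{u} (Lam (Gf k E)))
    (hN : IsFiniteLength (Lam (Gf k E)) N) : ∃ n, HasProjectiveDimensionLT N n := by
  obtain ⟨r, b, hb, hb'⟩ := exists_rank k E
  refine stmtA (k := k) (A := P ⥤ ModuleCat.{u} k) (Gf k E) ?_ ?_ r
    (fun i => sp k (UU k E r i) (UU_conv i)) (fun i => incl i) (fun i => incl_mono i) ?_ ?_ ?_ N hN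
  · intro i
    exact AlN.finHom (AlN.biprod fun a => (E a).2.2.alN _) ((E i).2.2.alN _)
  · intro i f
    exact end_scalar (E i).2.1 f
  · intro i j hji hr f
    exact incl_fac hji hr f
  · intro i g
    exact incl_zero hb hb' i g
  · intro i
    exact comps E (UU_conv i) (UU_alS i)

end R118.Spr
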