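import Pool.Agent.R118.Spr.Comp
import Pool.Agent.R118.Spr.A
import Pool.Agent.R118.Spr.B

/-!
# Statements for the uniform bound (Q2 of MP_467d59_al)

Parts SPR-C (`StmtA1`, `StmtA2`, `StmtB1`: module theory, to be proved in `C.lean`) and
SPR-D (`StmtD`: combinatorics of aligned sets, to be proved in `D.lean`).
-/

open CategoryTheory Limits

universe v u w

namespace R118.Spr

section abstract

variable {k : Type w} [Field k] {A : Type u} [Category.{v} A] [Preadditive A] [Linear k A]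
  [HasFiniteBiproducts A]

/-- bounded version of `StmtA` -/
def StmtA1 : Prop :=
  ∀ {I : Type} [Fintype I] [DecidableEq I] (G : I → A)
    (_hfd : ∀ i, FiniteDimensional k ((⨁ G) ⟶ G i))
    (_hEnd : ∀ i (f : G i ⟶ G i), ∃ c : k, f = c • 𝟙 (G i))
    (r : I → ℕ) (R : ℕ) (_hR : ∀ i, r i < R) (U : I → A) (u : ∀ i, U i ⟶ G i)
    (_hmono : ∀ i, Mono (u i))
    (_hfac : ∀ i j, j ≠ i → r i ≤ r j → ∀ f : G j ⟶ G i, ∃ f' : G j ⟶ U i, f' ≫ u i = f)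
    (_hzero : ∀ i (g : G i ⟶ U i), g ≫ u i = 0)
    (_hadd : ∀ i, ∃ (m : ℕ) (s : Fin m → I) (p : ∀ b, U i ⟶ G (s b)) (q : ∀ b, G (s b) ⟶ U i),
      ∑ b, p b ≫ q b = 𝟙 (U i))
    (N : ModuleCat.{v} (Lam G)) (_hN : IsFiniteLength (Lam G) N),
    HasProjectiveDimensionLT N (R + 1)

/-- version with right almost split maps `σ i : E i ⟶ G i` whose kernels have resolutions of
length at most `B` -/
def StmtA2 : Prop :=
  ∀ {I : Type} [Fintype I] [DecidableEq I] (G : I → A)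
    (_hEnd : ∀ i (f : G i ⟶ G i), ∃ c : k, f = c • 𝟙 (G i))
    (B : ℕ) (E K : I → A) (σ : ∀ i, E i ⟶ G i) (κ : ∀ i, K i ⟶ E i) (w : ∀ i, κ i ≫ σ i = 0)
    (_hk : ∀ i, Nonempty (IsLimit (KernelFork.ofι (κ i) (w i))))
    (_hfac : ∀ i j, j ≠ i → ∀ f : G j ⟶ G i, ∃ f' : G j ⟶ E i, f' ≫ σ i = f)
    (_hzero : ∀ i (g : G i ⟶ E i), g ≫ σ i = 0)
    (_hadd : ∀ i, ∃ (m : ℕ) (s : Fin m → I) (p : ∀ b, E i ⟶ G (s b)) (q : ∀ b, G (s b) ⟶ E i),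
      ∑ b, p b ≫ q b = 𝟙 (E i))
    (_hres : ∀ i, HasRes G B (K i))
    (N : ModuleCat.{v} (Lam G)) (_hN : IsFiniteLength (Lam G) N),
    HasProjectiveDimensionLT N (B + 3)

/-- bounded version of `StmtB` -/
def StmtB1 : Prop :=
  ∀ {I : Type} [Fintype I] [DecidableEq I] (G : I → A) (n : ℕ)
    (_hpd : ∀ (N : ModuleCat.{v} (Lam G)), IsFiniteLength (Lam G) N →
      HasProjectiveDimensionLT N (n + 1))
    (MM : A → Prop)
    (_hfin : ∀ M, MM M → FiniteDimensional k ((⨁ G) ⟶ M))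
    (_hker : ∀ M, MM M → ∀ (m : ℕ) (s : Fin m → I) (g : (⨁ fun j => G (s j)) ⟶ M),
      ∃ (K : A) (i : K ⟶ ⨁ fun j => G (s j)) (w : i ≫ g = 0), MM K ∧
        Nonempty (IsLimit (KernelFork.ofι i w)))
    (_hiso : ∀ M, MM M → ∀ (m : ℕ) (s : Fin m → I) (g : (⨁ fun j => G (s j)) ⟶ M),
      (∀ a, Function.Bijective (fun h : G a ⟶ ⨁ fun j => G (s j) => h ≫ g)) → IsIso g)
    (_hidem : ∀ (m : ℕ) (s : Fin m → I)
      (e : (⨁ fun j => G (s j)) ⟶ ⨁ fun j => G (s j)), e ≫ e = e → e ≠ 0 →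
      ∃ (a b : Fin m) (hab : s a = s b) (c : k), c ≠ 0 ∧
        biproduct.ι (fun j => G (s j)) a ≫ e ≫ biproduct.π (fun j => G (s j)) b =
          c • eqToHom (congrArg G hab))
    (M : A) (_hM : MM M), HasRes G n M

end abstract

section combinatorics

variable {T Q P : Type u} [LinearOrder T] [PartialOrder Q] [PartialOrder P]

/-- `W` is a proper subset of `S`, up-closed in `S` -/
def T1 (S W : Set P) : Prop := W ⊆ S ∧ W ≠ S ∧ ∀ x ∈ W, ∀ y ∈ S, x ≤ y → y ∈ W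

/-- `S ⊆ W`, `S` is down-closed in `W`, and some element of `W \ S` is above an element of `S` -/
def T2 (S W : Set P) : Prop :=
  S ⊆ W ∧ (∀ x ∈ S, ∀ y ∈ W, y ≤ x → y ∈ S) ∧ ∃ p ∈ S, ∃ w ∈ W, w ∉ S ∧ p ≤ w

/-- **SPR-D** -/
def StmtD [Finite Q] (e : P ≃o T × Q) (C : Finset T) : Prop :=
  ∀ S : Set P, IsSpread S → AlS e C S →
    ∃ C2 : Finset T, C2 ⊆ C ∧ C2.card ≤ 4 * Nat.card Q + 1 ∧ AlS e C2 S ∧
      (∀ U : Set P, T1 S U → AlS e C U → ∃ W : Set P, AlS e C2 W ∧ T1 S W ∧ U ⊆ W) ∧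
      (∀ S' : Set P, IsSpread S' → AlS e C S' → S ⊆ S' → S ≠ S' →
        (∀ x ∈ S, ∀ y ∈ S', y ≤ x → y ∈ S) →
        ∃ W : Set P, W.OrdConnected ∧ AlS e C2 W ∧ T2 S W ∧
          (∀ x ∈ S', x ∈ W → ∀ y ∈ S', y ≤ x → y ∈ W) ∧
          (∀ x ∈ S', x ∈ W → ∀ y ∈ W, x ≤ y → y ∈ S'))

end combinatorics

end R118.Spr
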