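import Pool.Agent.R118.Spr.Final
import Pool.Agent.R118.Spr.Stm2

/-!
# Right almost split maps between aligned spread representations
-/

open CategoryTheory Limits

universe u

namespace R118.Spr

set_option linter.unusedSectionVars false

section general
variable {k : Type u} [Field k] {P : Type u} [PartialOrder P]

lemma sp_congr {S S' : Set P} (h : S = S') (hS : S.OrdConnected) (hS' : S'.OrdConnected) :
    sp k S hS = sp k S' hS' := by
  subst h; rfl

variable {S W : Set P} {hS : S.OrdConnected} {hW : W.OrdConnected}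

variable (k) in
/-- the canonical map -/
noncomputable def can (hS : S.OrdConnected) (hW : W.OrdConnected) (h : T1 S W ∨ T2 S W) :
    sp k W hW ⟶ sp k S hS :=
  mkc (fun _ => 1) (fun _ _ _ _ _ _ _ => rfl)
    (fun p q hpq hp hq hqS _ => by
      rcases h with h | h
      · exact absurd (h.2.2 p hp q hqS hpq) hq
      · exact absurd (h.1 hqS) hq)
    (fun p q hpq hp hpS _ hqS => by
      rcases h with h | h
      · exact absurd (h.1 hp) hpS
      · exact absurd (h.2.1 q hqS p hp hpq) hpS)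

lemma cf_can (h : T1 S W ∨ T2 S W) {p : P} (hp : p ∈ W) (hpS : p ∈ S) :
    cf (can k hS hW h) p = 1 := cf_mkc _ _ _ _ hp hpS

lemma can_zero (hS : IsSpread S) (h : T1 S W ∨ T2 S W) (g : sp k S hS.convex ⟶ sp k W hW) :
    g ≫ can k hS.convex hW h = 0 := by
  obtain ⟨c, hc⟩ := end_scalar hS (g ≫ can k hS.convex hW h)
  have key : ∃ p ∈ S, cf g p = 0 := by
    rcases h with h | h
    · obtain ⟨h1, h2, _⟩ := h
      have : ∃ p ∈ S, p ∉ W := by
        by_contra hcon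
        push Not at hcon
        exact h2 (Set.Subset.antisymm h1 hcon)
      obtain ⟨p, hp, hpW⟩ := this
      exact ⟨p, hp, by
        by_contra h0
        exact hpW (cf_right h0)⟩
    · obtain ⟨_, _, p, hp, w, hw, hwS, hpw⟩ := h
      exact ⟨p, hp, cf_zero g hpw hp hwS hw⟩
  obtain ⟨p, hp, h0⟩ := key
  have h1 : cf (g ≫ can k hS.convex hW h) p = 0 := by rw [cf_comp, h0, zero_mul]
  rw [hc, cf_smul, cf_id hp, mul_one] at h1
  rw [hc, h1, zero_smul]

lemma cf_const {S' : Set P} {hS' : S'.OrdConnected} (hS : IsSpread S) (hsub : S ⊆ S')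
    (f : sp k S' hS' ⟶ sp k S hS.convex) {x y : P} (hx : x ∈ S) (hy : y ∈ S) :
    cf f y = cf f x := by
  have := hS.connected x hx y hy
  clear hy
  induction this with
  | refl => rfl
  | tail _ hbc ih =>
    obtain ⟨hb, hc, h | h⟩ := hbc
    · rw [cf_eq f h (hsub hb) (hsub hc) hc, ih]
    · rw [← cf_eq f h (hsub hc) (hsub hb) hb, ih]

lemma T1.conv (hS : S.OrdConnected) (h : T1 S W) : W.OrdConnected :=
  ⟨fun p hp _ hr x hx => h.2.2 p hp x (hS.out (h.1 hp) (h.1 hr) hx) hx.1⟩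

end general

section aligned

variable {k : Type u} [Field k] {T Q P : Type u} [LinearOrder T] [PartialOrder Q] [PartialOrder P]
  {e : P ≃o T × Q} {C C2 : Finset T}

lemma Same.mono (h : C2 ⊆ C) {t t' : T} (hs : Same C t t') : Same C2 t t' :=
  ⟨hs.1, fun c hc h' => hs.2 c (h hc) h'⟩

lemma AlS.mono (h : C2 ⊆ C) {S : Set P} (hS : AlS e C2 S) : AlS e C S where
  low t q hp := by
    obtain ⟨c, hc, hct⟩ := hS.low t q hp
    exact ⟨c, h hc, hct⟩
  same t t' q hs := hS.same t t' q (hs.mono h)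

lemma AlN.mono (h : C2 ⊆ C) {N : P ⥤ ModuleCat.{u} k} (hN : AlN e C2 N) : AlN e C N where
  fin := hN.fin
  low t q hl x := hN.low t q (fun c hc => hl c (h hc)) x
  same t t' q hs := hN.same t t' q (hs.mono h)

instance finite_AlS [Finite Q] : Finite {S : Set P // AlS e C S} := by
  refine Finite.of_injective (β := Set (C × Q)) (fun S => {x | pt e (x.1 : T) x.2 ∈ S.1}) ?_
  intro S S' h
  refine Subtype.ext (alS_ext S.2 S'.2 fun c hc q => ?_)
  have := congrArg (fun A => (⟨c, hc⟩, q) ∈ A) h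
  exact iff_of_eq this

lemma card_le [Finite Q] {I : Type} [Fintype I] (E : I ≃ ASp e C) :
    Fintype.card I ≤ 2 ^ (Nat.card (C × Q)) := by
  classical
  have : Fintype Q := Fintype.ofFinite Q
  rw [Nat.card_eq_fintype_card, ← Fintype.card_set]
  refine Fintype.card_le_of_injective
    (fun i => ({x | pt e (x.1 : T) x.2 ∈ (E i).1} : Set (C × Q))) ?_
  intro i j h
  refine E.injective (Subtype.ext (alS_ext (E i).2.2 (E j).2.2 fun c hc q => ?_))
  have := congrArg (fun A => (⟨c, hc⟩, q) ∈ A) h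
  exact iff_of_eq this

/-- every map `sp S' ⟶ sp S`, `S' ≠ S`, factors through a set of type 1 or type 2 -/
lemma can_fac {S S' : Set P} (hS : IsSpread S) (hSA : AlS e C S)
    (F1 : ∀ U : Set P, T1 S U → AlS e C U → ∃ W : Set P, AlS e C2 W ∧ T1 S W ∧ U ⊆ W)
    (F2 : ∀ S' : Set P, IsSpread S' → AlS e C S' → S ⊆ S' → S ≠ S' →
        (∀ x ∈ S, ∀ y ∈ S', y ≤ x → y ∈ S) →
        ∃ W : Set P, W.OrdConnected ∧ AlS e C2 W ∧ T2 S W ∧
          (∀ x ∈ S', x ∈ W → ∀ y ∈ S', y ≤ x → y ∈ W) ∧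
          (∀ x ∈ S', x ∈ W → ∀ y ∈ W, x ≤ y → y ∈ S'))
    (hS' : IsSpread S') (hSA' : AlS e C S') (hne : S' ≠ S)
    (f : sp k S' hS'.convex ⟶ sp k S hS.convex) :
    ∃ (W : Set P) (hW : W.OrdConnected) (_ : AlS e C2 W) (h : T1 S W ∨ T2 S W)
      (f' : sp k S' hS'.convex ⟶ sp k W hW), f' ≫ can k hS.convex hW h = f := by
  have hup : ∀ x y, x ∈ S → cf f x ≠ 0 → y ∈ S → x ≤ y → cf f y ≠ 0 := by
    intro x y _ hx0 hy hxy
    have hx' := cf_left hx0
    by_cases hy' : y ∈ S'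
    · rw [cf_eq f hxy hx' hy' hy]
      exact hx0
    · exact absurd (cf_zero f hxy hx' hy' hy) hx0
  by_cases hU : {p | p ∈ S ∧ cf f p ≠ 0} = S
  · have hall : ∀ p ∈ S, cf f p ≠ 0 := fun p hp => by
      rw [← hU] at hp
      exact hp.2
    have hsub : S ⊆ S' := fun p hp => cf_left (hall p hp)
    have hdown : ∀ x ∈ S, ∀ y ∈ S', y ≤ x → y ∈ S := by
      intro x hx y hy hyx
      by_contra hyS
      refine hall x hx ?_
      rw [cf_eq f hyx hy (hsub hx) hx]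
      by_contra h0
      exact hyS (cf_right h0)
    obtain ⟨W, hW, hWA, hT2, hd, hu⟩ := F2 S' hS' hSA' hsub hne.symm hdown
    obtain ⟨x0, hx0⟩ := hS.nonempty
    refine ⟨W, hW, hWA, Or.inr hT2, mkc (fun _ => cf f x0) (fun _ _ _ _ _ _ _ => rfl) ?_ ?_, ?_⟩
    · intro p q hpq hp hq hqW hpW
      exact absurd (hu p hp hpW q hqW hpq) hq
    · intro p q hpq hp hpW hq hqW
      exact absurd (hd q hq hqW p hp hpq) hpW
    · refine cf_ext fun p hp hpS => ?_
      have hpW : p ∈ W := hT2.1 hpS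
      rw [cf_comp, cf_mkc _ _ _ _ hp hpW, cf_can _ hpW hpS, mul_one,
        cf_const hS hsub f hx0 hpS]
  · have hT1 : T1 S {p | p ∈ S ∧ cf f p ≠ 0} :=
      ⟨fun p hp => hp.1, hU, fun x hx y hy hxy => ⟨hy, hup x y hx.1 hx.2 hy hxy⟩⟩
    have hA : AlS e C {p | p ∈ S ∧ cf f p ≠ 0} := by
      refine ⟨fun t q h => hSA.low t q h.1, fun t t' q hs => ⟨fun h => ?_, fun h => ?_⟩⟩
      · have h' := (hSA.same t t' q hs).1 h.1
        exact ⟨h', hup _ _ h.1 h.2 h' (hs.le e q)⟩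
      · have h1 := (hSA.same t t' q hs).2 h.1
        have h2 := cf_left h.2
        have h3 := (hSA'.same t t' q hs).2 h2
        refine ⟨h1, ?_⟩
        rw [← cf_eq f (hs.le e q) h3 h2 h.1]
        exact h.2
    obtain ⟨W, hWA, hTW, hUW⟩ := F1 _ hT1 hA
    have hzero : ∀ p, p ∉ W → cf f p = 0 := by
      intro p hp
      by_contra h0
      exact hp (hUW ⟨cf_right h0, h0⟩)
    refine ⟨W, hTW.conv hS.convex, hWA, Or.inl hTW, mkc (fun p => cf f p) ?_ ?_ ?_, ?_⟩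
    · intro p q hpq hp hq hqW _
      exact cf_eq f hpq hp hq (hTW.1 hqW)
    · intro p q hpq hp hq hqW _
      exact cf_zero f hpq hp hq (hTW.1 hqW)
    · intro p q hpq hp hpW hq hqW
      rw [cf_eq f hpq hp hq (hTW.1 hqW), hzero p hpW]
    · refine cf_ext fun p hp hpS => ?_
      rw [cf_comp]
      by_cases hpW : p ∈ W
      · rw [cf_mkc _ _ _ _ hp hpW, cf_can _ hpW hpS, mul_one]
      · rw [hzero p hpW]
        by_contra h0
        exact hpW (cf_right (left_ne_zero_of_mul h0))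

variable {I : Type} [Fintype I]

lemma comps_sum {E : I ≃ ASp e C} {m : ℕ} (Y : Fin m → (P ⥤ ModuleCat.{u} k))
    (h : ∀ b, ∃ (m' : ℕ) (s : Fin m' → I) (p : ∀ c, Y b ⟶ Gf k E (s c))
      (q : ∀ c, Gf k E (s c) ⟶ Y b), ∑ c, p c ≫ q c = 𝟙 (Y b)) :
    ∃ (m' : ℕ) (s : Fin m' → I) (p : ∀ c, (⨁ Y) ⟶ Gf k E (s c))
      (q : ∀ c, Gf k E (s c) ⟶ ⨁ Y), ∑ c, p c ≫ q c = 𝟙 (⨁ Y) := by
  classical
  choose m' s p q hpq using h
  obtain ⟨N, ⟨F⟩⟩ := Finite.exists_equiv_fin (Σ b : Fin m, Fin (m' b))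
  refine ⟨N, fun n => s (F.symm n).1 (F.symm n).2,
    fun n => biproduct.π Y _ ≫ p (F.symm n).1 (F.symm n).2,
    fun n => q (F.symm n).1 (F.symm n).2 ≫ biproduct.ι Y _, ?_⟩
  have h1 : ∀ x : (Σ b : Fin m, Fin (m' b)), True := fun _ => trivial
  rw [Equiv.sum_comp F.symm (fun x => (biproduct.π Y x.1 ≫ p x.1 x.2) ≫
    (q x.1 x.2 ≫ biproduct.ι Y x.1)), Fintype.sum_sigma, ← biproduct.total]
  refine Finset.sum_congr rfl fun b _ => ?_
  have h2 : ∀ c, (biproduct.π Y b ≫ p b c) ≫ (q b c ≫ biproduct.ι Y b) =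
      biproduct.π Y b ≫ (p b c ≫ q b c) ≫ biproduct.ι Y b := fun c => by
    simp only [Category.assoc]
  rw [Finset.sum_congr rfl fun c _ => h2 c, ← Preadditive.comp_sum, ← Preadditive.sum_comp, hpq,
    Category.id_comp]

/-- the sink map of an aligned spread -/
lemma exists_sink [Finite Q] (hD : StmtD e C) (E : I ≃ ASp e C) (i : I) :
    ∃ (C2 : Finset T) (_ : C2 ⊆ C) (_ : C2.card ≤ 4 * Nat.card Q + 1)
      (X : P ⥤ ModuleCat.{u} k) (_ : AlN e C2 X) (_ : AlN e C2 (Gf k E i)) (σ : X ⟶ Gf k E i),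
      (∀ j, j ≠ i → ∀ f : Gf k E j ⟶ Gf k E i, ∃ f' : Gf k E j ⟶ X, f' ≫ σ = f) ∧
      (∀ g : Gf k E i ⟶ X, g ≫ σ = 0) ∧
      (∃ (m : ℕ) (s : Fin m → I) (p : ∀ b, X ⟶ Gf k E (s b)) (q : ∀ b, Gf k E (s b) ⟶ X),
        ∑ b, p b ≫ q b = 𝟙 X) := by
  classical
  obtain ⟨C2, hC, hcard, hSA, F1, F2⟩ := hD (E i).1 (E i).2.1 (E i).2.2
  let J := {W : {S : Set P // AlS e C2 S} // W.1.OrdConnected ∧ (T1 (E i).1 W.1 ∨ T2 (E i).1 W.1)}
  obtain ⟨m, ⟨F⟩⟩ := Finite.exists_equiv_fin J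
  let Y : Fin m → (P ⥤ ModuleCat.{u} k) := fun b => sp k (F.symm b).1.1 (F.symm b).2.1
  let σ : (⨁ Y) ⟶ Gf k E i :=
    biproduct.desc (fun b => can k (E i).2.1.convex (F.symm b).2.1 (F.symm b).2.2)
  refine ⟨C2, hC, hcard, ⨁ Y, AlN.biprod fun b => (F.symm b).1.2.alN _, hSA.alN _, σ, ?_, ?_, ?_⟩
  · intro j hji f
    have hne : (E j).1 ≠ (E i).1 := fun h => hji (E.injective (Subtype.ext h))
    obtain ⟨W, hW, hWA, hT, f', hf'⟩ :=
      can_fac (E i).2.1 (E i).2.2 F1 F2 (E j).2.1 (E j).2.2 hne f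
    have key : ∀ (b : Fin m) (w : J), F.symm b = w → ∀ f' : Gf k E j ⟶ sp k w.1.1 w.2.1,
        f' ≫ can k (E i).2.1.convex w.2.1 w.2.2 = f → ∃ f'' : Gf k E j ⟶ ⨁ Y, f'' ≫ σ = f := by
      rintro b _ rfl f' h
      refine ⟨f' ≫ biproduct.ι Y b, ?_⟩
      rw [Category.assoc, biproduct.ι_desc, h]
    exact key (F ⟨⟨W, hWA⟩, hW, hT⟩) ⟨⟨W, hWA⟩, hW, hT⟩ (F.symm_apply_apply _) f' hf'
  · intro g
    have h1 : g ≫ σ = ∑ b, (g ≫ biproduct.π Y b) ≫
        can k (E i).2.1.convex (F.symm b).2.1 (F.symm b).2.2 := by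
      have h2 : g ≫ σ = g ≫ (∑ b, biproduct.π Y b ≫ biproduct.ι Y b) ≫ σ := by
        rw [biproduct.total, Category.id_comp]
      rw [h2, Preadditive.sum_comp, Preadditive.comp_sum]
      refine Finset.sum_congr rfl fun b _ => ?_
      rw [Category.assoc, Category.assoc, biproduct.ι_desc]
    rw [h1]
    exact Finset.sum_eq_zero fun b _ => can_zero (E i).2.1 _ _
  · exact comps_sum Y fun b => comps E (F.symm b).2.1 ((F.symm b).1.2.mono hC)

end aligned

end R118.Spr
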